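import Pool.Agent.H447R3.DegDefs

/-!
# The standard conjectures in a range of degrees: definitions
-/

open CategoryTheory AlgebraicGeometry

universe u v

namespace Pool.Agent.W537

open Pool.Agent.H914 VarClass Obj WeilCohomology

variable {k : Type u} [Field k] {𝒱 : VarClass k} {ops : CycleOps 𝒱}

/-- The Lefschetz standard conjecture for `X` in the degrees `i ≤ d`: for every `i ≤ d` there is
an algebraic cycle of codimension `i` on `X × X` whose action on cohomology is inverse to
`ξ ^ (n - i) : H^i(X) → H^(2n - i)(X)`, where `n = dim X` and `ξ` is the class of `D`. -/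
def LefschetzUpTo (W : WeilCohomology.{u, v} ops) (X : 𝒱.Obj) (D : X.Cycles) (d : ℕ) : Prop :=
  ∀ i ≤ d, ∃ z, (X.prod X).IsCyc i z ∧ ∀ a ∈ W.gr X i,
    W.corr (W.cl (X.prod X) z) (W.cl X D ^ (X.dim - i) * a) = a

/-- The Kunneth projectors of `X` in the degrees `i` and `2 n - i`, `i ≤ d`, are induced by
algebraic cycles of codimension `n = dim X` on `X × X`. -/
def KunnethUpTo (W : WeilCohomology.{u, v} ops) (X : 𝒱.Obj) (d : ℕ) : Prop :=
  ∀ i ≤ d, (∃ P, (X.prod X).IsCyc X.dim P ∧ InducesProjector W X i P) ∧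
    ∃ P, (X.prod X).IsCyc X.dim P ∧ InducesProjector W X (2 * X.dim - i) P

/-- Every cycle `z` on `X × X`, of any codimension `q`, all of whose intersection numbers with the
cycles of codimension `2 n - q` vanish, acts as zero on `H^i(X)` for all `i` such that
`|i - n| + |j - n| ≥ 2 (n - d)`, where `n = dim X` and `j = i + 2 (q - n)` is the degree with
`z (H^i(X)) ⊆ H^j(X)`. -/
def NumTrivialVanishOutside (W : WeilCohomology.{u, v} ops) (X : 𝒱.Obj) (d : ℕ) : Prop :=
  ∀ q ≤ 2 * X.dim, ∀ z, (X.prod X).IsCyc q z →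
    (∀ w, (X.prod X).IsCyc (2 * X.dim - q) w → (X.prod X).V.degCycle (ops.mul z w) = 0) →
    ∀ i : ℕ, 2 * ((X.dim : ℤ) - d) ≤
      |(i : ℤ) - X.dim| + |((i : ℤ) + 2 * ((q : ℤ) - X.dim)) - X.dim| →
    ∀ a ∈ W.gr X i, W.corr (W.cl (X.prod X) z) a = 0

end Pool.Agent.W537
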