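import Pool.Agent.W537.RangeB
import Pool.Agent.W537.RangeDefs

/-!
# The conjecture D for the cycles of a given dimension on the square of a variety
-/

open CategoryTheory AlgebraicGeometry Finset

universe u v

namespace Pool.Agent.W537

open Pool.Agent.H914 VarClass Obj WeilCohomology Pool.Agent.H447

variable {k : Type u} [Field k] {𝒱 : VarClass k} {ops : CycleOps 𝒱}
  {W : WeilCohomology.{u, v} ops} {X Y : 𝒱.Obj}

lemma rop_of_isCyc {q : ℕ} {d : ℤ} (hd : (q : ℤ) = X.dim + d) {z : (X.prod X).Cycles}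
    (hz : (X.prod X).IsCyc q z) : ROp W X d (W.corr (W.cl _ z)) :=
  ⟨fun W => W.corr (W.cl _ z), Or.inl ⟨q, hd, z, hz, fun _ => rfl⟩, rfl⟩

lemma exists_cyc_of_rop {q : ℕ} {d : ℤ} (hd : (q : ℤ) = X.dim + d)
    {y : Module.End W.K (W.H X)} (hy : ROp W X d y) :
    ∃ z, (X.prod X).IsCyc q z ∧ W.corr (W.cl _ z) = y := by
  obtain ⟨Y, ⟨p, hp, z, hz, hY⟩ | ⟨hd', _⟩, rfl⟩ := hy
  · obtain rfl : p = q := by omega
    exact ⟨z, hz, (hY W).symm⟩
  · omega

/-- Numerical triviality in terms of super traces. -/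
lemma rop_num {p q : ℕ} {d : ℤ} (hpq : p + q = 2 * X.dim) (hd : (p : ℤ) = X.dim + d)
    {z : (X.prod X).Cycles} (hz : (X.prod X).IsCyc p z)
    (hnum : ∀ w, (X.prod X).IsCyc q w → (X.prod X).V.degCycle (ops.mul z w) = 0)
    (y : Module.End W.K (W.H X)) (hy : ROp W X (-d) y) :
    LinearMap.trace W.K (W.H X) (par (W.isInternal X) * (W.corr (W.cl _ z) * y)) = 0 := by
  obtain ⟨w, hw, rfl⟩ := exists_cyc_of_rop (q := q) (by omega) hy
  rw [str_eq_deg hpq hz hw, hnum _ (ops.pull_mem _ hw), Rat.cast_zero]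

/-- The conjecture D for one codimension in terms of the algebra of operators. -/
lemma rop_hN {p q : ℕ} {d : ℤ} (hpq : p + q = 2 * X.dim) (hd : (p : ℤ) = X.dim + d)
    (h : HomEqNumIn W (X.prod X) p) (u : Module.End W.K (W.H X)) (hu : ROp W X d u)
    (h0 : ∀ y, ROp W X (-d) y →
      LinearMap.trace W.K (W.H X) (par (W.isInternal X) * (u * y)) = 0) : u = 0 := by
  obtain ⟨z, hz, rfl⟩ := exists_cyc_of_rop hd hu
  have : W.cl _ z = 0 := by
    apply h z hz
    intro w hw
    rw [dim_prod, show X.dim + X.dim - p = q by omega] at hw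
    have h2 := h0 (W.corr (W.cl _ (ops.pull (swap X X) w)))
      (rop_of_isCyc (q := q) (by omega) (ops.pull_mem _ hw))
    rw [← mul_assoc, W.cl_pull, ← tr_mul_eq_trace (W.cl_mem hz),
      tr_mul_cl hz hw (by rw [dim_prod]; omega)] at h2
    exact_mod_cast h2
  rw [this, corr_zero]

/-- **One dimension controls a range.** -/
theorem range_tfae {D : X.Cycles} (hD : X.IsCyc 1 D) (hHL : HardLefschetz W X D) {d : ℕ}
    (hd : d < X.dim) :
    List.TFAE [HomEqNumIn W (X.prod X) (2 * X.dim - d),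
      ∀ e ≤ d, HomEqNumIn W (X.prod X) (2 * X.dim - e) ∧ HomEqNumIn W (X.prod X) e,
      LefschetzUpTo W X D d ∧ KunnethUpTo W X d ∧ NumTrivialVanishOutside W X d] := by
  have hLh : IsHom (W.gr X) 2 (LinearMap.mulLeft W.K (W.cl X D)) := by
    simpa using rop_opAlg.hom (rop_mulLeft (W := W) hD)
  set r := X.dim - d with hr
  have hr1 : 1 ≤ r := by omega
  tfae_have 1 → 3 := by
    intro h
    obtain ⟨f, t, hf, hval⟩ := exists_sl2 (W.isInternal X) hLh W_hbd hHL
    have hact : LowerAct (W.gr X) X.dim (LinearMap.mulLeft W.K (W.cl X D)) f := hval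
    have hN := rop_hN (W := W) (X := X) (p := 2 * X.dim - d) (q := d) (d := (r : ℤ)) (by omega)
      (by omega) h
    have hfr : ROp W X (-r) (f ^ r) := f_pow_mem rop_opAlg (W.isInternal X) rop_str
      (rop_mulLeft hD) t hf r hN
    have hθ : ∀ c, r ≤ c → c ≤ X.dim → ∃ θ, ROp W X (-c) θ ∧ ∀ a ∈ W.gr X (X.dim - c),
        θ (((LinearMap.mulLeft W.K (W.cl X D)) ^ c) a) = a := fun c h1 h2 =>
      exists_theta_range rop_opAlg (W.isInternal X) W_hbd (rop_mulLeft hD) hHL hact hr1 hfr h1 h2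
    refine ⟨?_, ?_, ?_⟩
    · intro i hi
      obtain ⟨θ, hθR, hθ'⟩ := hθ (X.dim - i) (by omega) (by omega)
      obtain ⟨z, hz, rfl⟩ := exists_cyc_of_rop (q := i) (by omega) hθR
      refine ⟨z, hz, fun a ha => ?_⟩
      have h1 := hθ' a (by rwa [show X.dim - (X.dim - i) = i by omega])
      rw [LinearMap.pow_mulLeft, LinearMap.mulLeft_apply] at h1
      exact h1
    · choose! θ hθR hθ' using hθ
      have hproj := proj_mem_of_theta_range rop_opAlg (W.isInternal X) W_hbd (rop_mulLeft hD)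
        hHL (r := r) θ hθR hθ'
      have hP : ∀ (j : ℕ), ROp W X 0 (proj (W.isInternal X) j) →
          ∃ P, (X.prod X).IsCyc X.dim P ∧ InducesProjector W X j P := by
        intro j hj
        obtain ⟨P, hP, hP'⟩ := exists_cyc_of_rop (q := X.dim) (by simp) hj
        refine ⟨P, hP, fun l a ha => ?_⟩
        rw [hP']
        split_ifs with hlj
        · subst hlj; exact proj_same _ ha
        · exact proj_ne _ ha hlj
      intro i hi
      have h1 := hproj i (by omega) (X.dim - i) (by omega) (by omega)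
      rw [show X.dim - (X.dim - i) = i by omega,
        show X.dim + (X.dim - i) = 2 * X.dim - i by omega] at h1
      exact ⟨hP _ h1.1, hP _ h1.2⟩
    · intro q hq z hz hnum i hi a ha
      refine vanish_region rop_opAlg (W.isInternal X) W_hbd (rop_mulLeft hD) hHL hact hr1 hfr hN
        (d := (q : ℤ) - X.dim) (rop_of_isCyc (by ring) hz)
        (rop_num (p := q) (q := 2 * X.dim - q) (by omega) (by ring) hz hnum) ?_ ha
      rw [hr, Nat.cast_sub hd.le]
      exact hi
  tfae_have 3 → 2 := by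
    rintro ⟨-, -, hV⟩ e he
    have key : ∀ q ≤ 2 * X.dim, 2 * ((X.dim : ℤ) - d) ≤ 2 * |(q : ℤ) - X.dim| →
        HomEqNumIn W (X.prod X) q := by
      intro q hq hqd z hz hnum
      rw [dim_prod, ← two_mul] at hnum
      apply corr_inj
      apply gr_ext (W.isInternal X)
      intro i a ha
      rw [LinearMap.zero_apply]
      apply hV q hq z hz hnum i _ a ha
      refine hqd.trans ?_
      have h1 := abs_add_le ((X.dim : ℤ) - i) (((i : ℤ) + 2 * ((q : ℤ) - X.dim)) - X.dim)
      rw [show (X.dim : ℤ) - i + (((i : ℤ) + 2 * ((q : ℤ) - X.dim)) - X.dim) =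
        2 * ((q : ℤ) - X.dim) by ring, abs_mul, abs_two, abs_sub_comm (X.dim : ℤ) i] at h1
      exact h1
    constructor
    · apply key _ (by omega)
      rw [abs_of_nonneg (by omega)]
      omega
    · apply key _ (by omega)
      rw [abs_of_nonpos (by omega)]
      omega
  tfae_have 2 → 1 := fun h => (h d le_rfl).1
  tfae_finish

end Pool.Agent.W537
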