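import Pool.Agent.H914R2.Core0
import Pool.Agent.H914R2.Graded
import Pool.Agent.H914R2.KDesc

/-!
# Operators whose powers have constant trace
-/

open Polynomial Finset

namespace Pool.Agent.W537

open Pool.Agent.H914

variable {K : Type*} [Field K] {V : Type*} [AddCommGroup V] [Module K V]

lemma trace_mul_aeval {E : Module.End K V} {b : K}
    (htr : ∀ k : ℕ, LinearMap.trace K V (E ^ (k + 1)) = b) (r : K[X]) :
    LinearMap.trace K V (E * aeval E r) = b * r.eval 1 := by
  induction r using Polynomial.induction_on' with
  | add p q hp hq => rw [map_add, mul_add, map_add, hp, hq, eval_add, mul_add]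
  | monomial m c =>
    rw [aeval_monomial]
    have : E * ((algebraMap K (Module.End K V)) c * E ^ m) = c • E ^ (m + 1) := by
      rw [Algebra.algebraMap_eq_smul_one, smul_mul_assoc, one_mul, mul_smul_comm, ← pow_succ']
    rw [this, map_smul, htr, eval_monomial, one_pow, mul_one, smul_eq_mul, mul_comm]

variable [CharZero K] [Module.Finite K V] {gr : ℕ → Submodule K V}

/-- An operator with values in `gr i` all of whose powers have trace `b`: then `gr i` has dimension
at least `b`. -/
theorem le_of_trace_pow {i : ℕ} {E : Module.End K V} (hE : ∀ x, E x ∈ gr i) {b : ℕ}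
    (htr : ∀ k : ℕ, LinearMap.trace K V (E ^ (k + 1)) = b) : b ≤ Module.finrank K (gr i) := by
  obtain ⟨w, k, -, hww, hkw, g, hg⟩ := exists_fitting E
  have h1 : (b : K) * w.eval 1 = 0 := by
    have h2 := trace_mul_aeval htr (X ^ k * w)
    have h3 : aeval E (X ^ k * w) = 0 := by
      rw [map_mul, map_pow, aeval_X, hkw]
    rw [h3, mul_zero, map_zero, eval_mul, eval_pow, eval_X, one_pow, one_mul] at h2
    exact h2.symm
  set e : Module.End K V := E * aeval E g with he
  have hew : e = 1 - aeval E w := by
    rw [he, ← map_one (aeval E : K[X] →ₐ[K] Module.End K V), ← map_sub, hg, map_mul, aeval_X]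
  have hee : e * e = e := by
    rw [hew, mul_sub, sub_mul, sub_mul, hww]
    simp
  have htre : LinearMap.trace K V e = b := by
    have h3 : g.eval 1 = 1 - w.eval 1 := by
      have := congrArg (Polynomial.eval 1) hg
      rw [eval_sub, eval_one, eval_mul, eval_X, one_mul] at this
      exact this.symm
    rw [he, trace_mul_aeval htr, h3, mul_sub, mul_one, h1, sub_zero]
  rw [trace_idem hee] at htre
  have h4 : Module.finrank K (LinearMap.range e) = b := by exact_mod_cast htre
  rw [← h4]
  apply Submodule.finrank_mono
  rintro _ ⟨x, rfl⟩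
  exact hE _

/-- An operator supported on `gr i` all of whose powers have the trace of the identity of `gr i` is
unipotent on `gr i`. -/
theorem unipotent_of_trace_pow (h : DirectSum.IsInternal gr) {i : ℕ} {E : Module.End K V}
    (hPE : proj h i * E = E) (hEP : E * proj h i = E)
    (htr : ∀ k : ℕ, LinearMap.trace K V (E ^ (k + 1)) = Module.finrank K (gr i)) {M : ℕ}
    (hM : Module.finrank K (gr i) ≤ M) : ∀ a ∈ gr i, ((1 - E) ^ M) a = 0 := by
  set P := proj h i with hP
  have hPP : P * P = P := proj_mul_proj h i
  set u := P - E with hu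
  have hu1 : u = P * (1 - E) := by rw [mul_sub, mul_one, hPE]
  have hcomm : Commute P (1 - E) := by
    change P * (1 - E) = (1 - E) * P
    rw [mul_sub, sub_mul, mul_one, one_mul, hPE, hEP]
  have hupow : ∀ r : ℕ, u ^ (r + 1) = P * (1 - E) ^ (r + 1) := by
    intro r
    rw [hu1, hcomm.mul_pow]
    congr 1
    induction r with
    | zero => simp
    | succ r ih => rw [pow_succ, ih, hPP]
  have hnil : IsNilpotent u := by
    apply isNilpotent_of_trace_pow
    intro r
    have hdvd : (X : K[X]) ∣ 1 - (1 - X) ^ (r + 1) := by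
      rw [X_dvd_iff, coeff_zero_eq_eval_zero]
      simp
    obtain ⟨s, hs⟩ := hdvd
    have hs1 : s.eval 1 = 1 := by
      have := congrArg (Polynomial.eval 1) hs
      simp at this
      exact this.symm
    have h2 : (1 - E) ^ (r + 1) = 1 - E * aeval E s := by
      have := congrArg (aeval E) hs
      rw [map_mul, aeval_X, map_sub, map_one, map_pow, map_sub, map_one, aeval_X] at this
      rw [← this]; abel
    rw [hupow, h2, mul_sub, mul_one, ← mul_assoc, hPE, map_sub, trace_mul_aeval htr, hs1, mul_one,
      hP, trace_proj, sub_self]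
  have hmem : ∀ x ∈ gr i, u x ∈ gr i := by
    intro x _
    rw [hu1]
    exact proj_mem h i _
  have hpow : ∀ (m : ℕ), ∀ x ∈ gr i, ((1 - E) ^ m) x = (u ^ m) x ∧ (u ^ m) x ∈ gr i := by
    intro m
    induction m with
    | zero => intro x hx; exact ⟨by simp, by simpa using hx⟩
    | succ m ih =>
      intro x hx
      obtain ⟨h1, h2⟩ := ih x hx
      refine ⟨?_, ?_⟩
      · rw [pow_succ', pow_succ', Module.End.mul_apply, Module.End.mul_apply, h1, hu,
          LinearMap.sub_apply, LinearMap.sub_apply, Module.End.one_apply, hP, proj_same h h2]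
      · rw [pow_succ', Module.End.mul_apply]; exact hmem _ h2
  intro a ha
  rw [(hpow M a ha).1]
  set ν : Module.End K (gr i) := u.restrict hmem with hν
  have hνpow : ∀ (m : ℕ) (x : gr i), ((ν ^ m) x : V) = (u ^ m) (x : V) := by
    intro m
    induction m with
    | zero => intro x; simp
    | succ m ih =>
      intro x
      rw [pow_succ, Module.End.mul_apply, ih, pow_succ, Module.End.mul_apply]
      rfl
  have hνnil : IsNilpotent ν := by
    obtain ⟨N, hN⟩ := hnil
    refine ⟨N, ?_⟩
    apply LinearMap.ext
    intro x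
    apply Subtype.ext
    rw [hνpow, hN]
    simp
  have h5 : ν ^ Module.finrank K (gr i) = 0 := by
    have h6 := LinearMap.aeval_self_charpoly ν
    rwa [IsNilpotent.charpoly_eq_X_pow_finrank hνnil, map_pow, aeval_X] at h6
  have h7 : ν ^ M = 0 := by
    rw [← Nat.sub_add_cancel hM, pow_add, h5, mul_zero]
  have h8 := hνpow M ⟨a, ha⟩
  rw [h7] at h8
  exact h8.symm

omit [CharZero K] [Module.Finite K V] in
/-- The geometric series inverts a unipotent operator. -/
lemma geom_inv {E : Module.End K V} {M : ℕ} {a : V} (h0 : ((1 - E) ^ M) a = 0) :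
    ((∑ k ∈ range M, (1 - E) ^ k) * E) a = a := by
  have := geom_sum_mul_neg (1 - E) M
  rw [sub_sub_cancel] at this
  rw [this, LinearMap.sub_apply, Module.End.one_apply, h0, sub_zero]

end Pool.Agent.W537
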