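import Pool.Agent.H447R3.DegB
import Pool.Agent.H447R3.AoB

/-!
# Powers of the lowering operator
-/

open Polynomial Finset

namespace Pool.Agent.W537

open Pool.Agent.H914 Pool.Agent.H447

section Ring

variable {K : Type*} [Field K] {A : Type*} [Ring A] [Algebra K A]

/-- The commutator with `e`. -/
noncomputable def adL (K : Type*) [Field K] {A : Type*} [Ring A] [Algebra K A] (e : A) :
    Module.End K A :=
  LinearMap.mulLeft K e - LinearMap.mulRight K e

lemma adL_apply (e y : A) : adL K e y = e * y - y * e := rfl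

lemma adL_mul (e x y : A) : adL K e (x * y) = adL K e x * y + x * adL K e y := by
  simp only [adL_apply]; noncomm_ring

/-- The powers of the commutator with `e` on a product with `f`. -/
lemma adL_pow_f_mul {h e f : A} (t : Sl2 h e f) (y : A) (k : ℕ) :
    (adL K e ^ (k + 2)) (f * y) = f * (adL K e ^ (k + 2)) y +
      ((k + 2 : ℕ) : K) • (h * (adL K e ^ (k + 1)) y) -
      (((k + 2) * (k + 1) : ℕ) : K) • (e * (adL K e ^ k) y) := by
  have hf : adL K e f = h := by rw [adL_apply, t.ef]
  have he : adL K e e = 0 := by rw [adL_apply, sub_self]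
  have hh : adL K e h = -((2 : K) • e) := by
    have h2 : (2 : K) • e = 2 * e := by rw [ofNat_smul_eq_nsmul, nsmul_eq_mul]; rfl
    rw [adL_apply, h2, ← t.he, neg_sub]
  induction k with
  | zero =>
    simp only [zero_add, pow_succ, pow_zero, one_mul, Module.End.mul_apply, Module.End.one_apply,
      mul_one]
    rw [adL_mul, hf, map_add, adL_mul, adL_mul, hf, hh, neg_mul, smul_mul_assoc]
    have e1 : ((2 : ℕ) : K) = 2 := by norm_num
    rw [e1, two_smul, two_smul]
    abel
  | succ k ih =>
    rw [pow_succ' (adL K e) (k + 1 + 1), Module.End.mul_apply, ih, map_sub, map_add, map_smul,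
      map_smul, adL_mul, adL_mul, adL_mul, hf, hh, he, zero_mul, zero_add]
    rw [← Module.End.mul_apply (adL K e), ← Module.End.mul_apply (adL K e),
      ← Module.End.mul_apply (adL K e), ← pow_succ', ← pow_succ', ← pow_succ', neg_mul,
      smul_mul_assoc]
    rw [show k + 1 + 2 = k + 2 + 1 by ring]
    have e1 : ((k + 2 + 1 : ℕ) : K) = ((k + 2 : ℕ) : K) + 1 := by push_cast; ring
    have e2 : (((k + 2 + 1) * (k + 1 + 1) : ℕ) : K) =
        (((k + 2) * (k + 1) : ℕ) : K) + ((k + 2 : ℕ) : K) * 2 := by push_cast; ring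
    rw [e1, e2, add_smul, add_smul, one_smul, mul_smul, smul_add, smul_neg]
    rw [show k + 1 + 1 = k + 2 by ring]
    abel

/-- The value of the power `2 r` of the commutator with `e` on `f ^ r`. -/
lemma adL_pow_f_pow {h e f : A} (t : Sl2 h e f) (r : ℕ) :
    (adL K e ^ (2 * r)) (f ^ r) = ((((-1) ^ r * (2 * r).factorial : ℤ)) : K) • e ^ r := by
  have hstep : ∀ r : ℕ, (adL K e ^ (2 * r)) (f ^ r) =
      ((((-1) ^ r * (2 * r).factorial : ℤ)) : K) • e ^ r →
      (adL K e ^ (2 * r + 1)) (f ^ r) = 0 := by
    intro r hr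
    rw [pow_succ', Module.End.mul_apply, hr, map_smul, adL_apply, ← pow_succ, ← pow_succ', sub_self,
      smul_zero]
  induction r with
  | zero => simp
  | succ r ih =>
    have h1 := hstep r ih
    have h2 : (adL K e ^ (2 * r + 2)) (f ^ r) = 0 := by
      rw [pow_succ', Module.End.mul_apply, h1, map_zero]
    rw [show 2 * (r + 1) = 2 * r + 2 by ring, pow_succ' f, adL_pow_f_mul t, h2, h1, ih, mul_zero,
      mul_zero, smul_zero, zero_add, zero_sub, mul_smul_comm, ← pow_succ', smul_smul, ← neg_smul]
    congr 1
    rw [Nat.factorial_succ, Nat.factorial_succ]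
    push_cast
    ring

end Ring

variable {K : Type*} [Field K] [CharZero K] {V : Type*} [AddCommGroup V] [Module K V]
variable {gr : ℕ → Submodule K V} {n : ℕ} {L : Module.End K V}

omit [CharZero K] in
/-- The adjoint representation of `sl(2)`. -/
lemma sl2_adL {h e f : Module.End K V} (t : Sl2 h e f) :
    Sl2 (adL K h) (adL K e) (adL K f) := by
  constructor
  · apply LinearMap.ext
    intro Y
    simp only [LinearMap.sub_apply, Module.End.mul_apply, adL_apply]
    have := t.ef
    calc e * (f * Y - Y * f) - (f * Y - Y * f) * e - (f * (e * Y - Y * e) - (e * Y - Y * e) * f)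
        = (e * f - f * e) * Y - Y * (e * f - f * e) := by noncomm_ring
      _ = _ := by rw [this]
  · apply LinearMap.ext
    intro Y
    have h2 : (2 * adL K e) Y = 2 * (e * Y - Y * e) := by
      rw [two_mul, LinearMap.add_apply, adL_apply, two_mul]
    rw [h2]
    simp only [LinearMap.sub_apply, Module.End.mul_apply, adL_apply]
    have := t.he
    calc h * (e * Y - Y * e) - (e * Y - Y * e) * h - (e * (h * Y - Y * h) - (h * Y - Y * h) * e)
        = (h * e - e * h) * Y - Y * (h * e - e * h) := by noncomm_ring
      _ = _ := by rw [this]; noncomm_ring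
  · apply LinearMap.ext
    intro Y
    have h2 : (-(2 * adL K f)) Y = -(2 * (f * Y - Y * f)) := by
      rw [LinearMap.neg_apply, two_mul, LinearMap.add_apply, adL_apply, two_mul]
    rw [h2]
    simp only [LinearMap.sub_apply, Module.End.mul_apply, adL_apply]
    have := t.hf
    calc h * (f * Y - Y * f) - (f * Y - Y * f) * h - (f * (h * Y - Y * h) - (h * Y - Y * h) * f)
        = (h * f - f * h) * Y - Y * (h * f - f * h) := by noncomm_ring
      _ = _ := by rw [this]; noncomm_ring

/-- Injectivity of the powers of the commutator with `L` on the operators of negative degree. -/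
lemma adL_inj [Module.Finite K V] (h : DirectSum.IsInternal gr) {f : Module.End K V}
    (t : Sl2 (wt h n) L f) {r : ℕ} {x : Module.End K V} (hx : IsHom gr (-(2 * r : ℕ)) x)
    (h0 : (adL K L ^ (2 * r)) x = 0) : x = 0 := by
  apply e_pow_inj (sl2_adL t) (c := 2 * r) _ h0
  have := weight_dbl (n := n) h hx
  rw [adL, this]
  congr 1
  push_cast; ring

/-- The commutator with `L` is skew-adjoint for the super trace. -/
lemma str_adL (h : DirectSum.IsInternal gr) (hL : IsHom gr (2 * 1) L) (x y : Module.End K V) :
    LinearMap.trace K V (par h * (adL K L x * y)) =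
      -LinearMap.trace K V (par h * (x * adL K L y)) := by
  rw [adL_apply, adL_apply, sub_mul, mul_sub x, mul_sub, mul_sub, map_sub, map_sub, mul_assoc L,
    str_comm h hL, mul_assoc, mul_assoc]
  ring

lemma str_adL_pow (h : DirectSum.IsInternal gr) (hL : IsHom gr (2 * 1) L) (m : ℕ)
    (x y : Module.End K V) :
    LinearMap.trace K V (par h * ((adL K L ^ m) x * y)) =
      (-1) ^ m * LinearMap.trace K V (par h * (x * (adL K L ^ m) y)) := by
  induction m generalizing x y with
  | zero => simp
  | succ m ih =>
    rw [pow_succ', Module.End.mul_apply, str_adL h hL, ih, ← Module.End.mul_apply, ← pow_succ,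
      pow_succ (-1 : K)]
    rw [pow_succ']
    ring

lemma str_adL_even (h : DirectSum.IsInternal gr) (hL : IsHom gr (2 * 1) L) (r : ℕ)
    (x y : Module.End K V) :
    LinearMap.trace K V (par h * ((adL K L ^ (2 * r)) x * y)) =
      LinearMap.trace K V (par h * (x * (adL K L ^ (2 * r)) y)) := by
  rw [str_adL_pow h hL, pow_mul]
  simp

variable {R : ℤ → Module.End K V → Prop}

lemma adL_mem (hR : OpAlg gr R) (hL : R 1 L) {d : ℤ} {y : Module.End K V} (hy : R d y) (m : ℕ) :
    R (d + m) ((adL K L ^ m) y) := by
  induction m with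
  | zero => simpa using hy
  | succ m ih =>
    rw [pow_succ', Module.End.mul_apply, adL_apply]
    apply hR.sub
    · exact hR.cast (hR.mul hL ih) (by push_cast; ring)
    · exact hR.cast (hR.mul ih hL) (by push_cast; ring)

/-- **Powers of the lowering operator.** If the algebra has rational super traces and no nonzero
numerically trivial operator of degree `r`, then it contains the power `r` of the lowering
operator. -/
theorem f_pow_mem [Module.Finite K V] (hR : OpAlg gr R) (h : DirectSum.IsInternal gr)
    (hstr : ∀ y, R 0 y → ∃ q : ℚ, LinearMap.trace K V (par h * y) = q)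
    (hL : R 1 L) {f : Module.End K V} (t : Sl2 (wt h n) L f) (hf : IsHom gr (-2) f) (r : ℕ)
    (hN : ∀ u, R r u → (∀ y, R (-r) y → LinearMap.trace K V (par h * (u * y)) = 0) → u = 0) :
    R (-r) (f ^ r) := by
  have hLh : IsHom gr (2 * 1) L := hR.hom hL
  -- the nondegeneracy with coefficients
  have hNK : ∀ u ∈ KS R r, (∀ y, R (-r) y → LinearMap.trace K V (par h * (u * y)) = 0) →
      u = 0 := by
    intro u hu h0
    obtain ⟨m, c, z, hz, rfl⟩ := OpAlg.exists_rep hu
    apply sum_smul_eq_zero
    intro ret
    apply hN _ (hR.sum (fun i _ => hR.smul _ (hz i)))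
    intro y hy
    have h1 := h0 y hy
    have h2 : LinearMap.trace K V (par h * ((∑ i, ((ret (c i) : ℚ) : K) • z i) * y)) =
        ((ret (LinearMap.trace K V (par h * ((∑ i, c i • z i) * y))) : ℚ) : K) := by
      rw [Finset.sum_mul, Finset.sum_mul, Finset.mul_sum, Finset.mul_sum, map_sum, map_sum,
        map_sum]
      push_cast
      apply Finset.sum_congr rfl
      intro i _
      obtain ⟨q, hq⟩ := hstr (z i * y) (hR.cast (hR.mul (hz i) hy) (by ring))
      rw [smul_mul_assoc, smul_mul_assoc, mul_smul_comm, mul_smul_comm, map_smul, map_smul, hq,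
        smul_eq_mul, smul_eq_mul, ret_mul]
      push_cast; rfl
    rw [h2, h1, map_zero, Rat.cast_zero]
  -- the bilinear form
  set b : Module.End K V →ₗ[K] Module.End K V →ₗ[K] K :=
    LinearMap.mk₂ K (fun x y => LinearMap.trace K V (par h * (x * y)))
      (fun x y z => by rw [add_mul, mul_add, map_add])
      (fun a x y => by rw [smul_mul_assoc, mul_smul_comm, map_smul])
      (fun x y z => by rw [mul_add, mul_add, map_add])
      (fun a x y => by rw [mul_smul_comm, mul_smul_comm, map_smul]) with hb
  have hba : ∀ x y, b x y = LinearMap.trace K V (par h * (x * y)) := fun x y => rfl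
  obtain ⟨γ, hγ, hγ'⟩ := exists_rep_of_orth b (KS R (-r)) (KS R r) (b (f ^ r)) (by
    intro u hu h0
    have : u = 0 := by
      apply hNK u hu
      intro y hy
      have h1 := h0 y (Submodule.subset_span hy)
      rw [hba, str_comm h (hR.hom hy)] at h1
      exact h1
    rw [this, map_zero])
  obtain ⟨ret, hret⟩ := exists_retract K
  obtain ⟨w, hw, hw'⟩ := hR.exists_twist h hstr (ret := ret) hγ
  set c : ℤ := (-1) ^ r * (2 * r).factorial with hc
  have hδ : (adL K L ^ (2 * r)) (f ^ r) = (c : K) • L ^ r := adL_pow_f_pow t r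
  have hδw : R r ((adL K L ^ (2 * r)) w) := hR.cast (adL_mem hR hL hw (2 * r)) (by
    push_cast; ring)
  have hcL : R r ((c : K) • L ^ r) := by
    have := hR.smul (c : ℚ) (hR.pow hL r)
    rw [Rat.cast_intCast] at this
    exact hR.cast this (by ring)
  have hLr : R r (L ^ r) := hR.cast (hR.pow hL r) (by ring)
  have hkey : (adL K L ^ (2 * r)) w - (c : K) • L ^ r = 0 := by
    apply hN _ (hR.sub hδw hcL)
    intro y hy
    have hδy : R r ((adL K L ^ (2 * r)) y) := hR.cast (adL_mem hR hL hy (2 * r)) (by
      push_cast; ring)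
    obtain ⟨q, hq⟩ := hstr (L ^ r * y) (hR.cast (hR.mul hLr hy) (by ring))
    have e1 := hγ' _ (Submodule.subset_span hδy)
    rw [hba, hba] at e1
    rw [sub_mul, mul_sub, map_sub, str_adL_even h hLh,
      hw' _ (hR.cast hδy (by ring)), e1, ← str_adL_even h hLh, hδ, smul_mul_assoc, mul_smul_comm,
      map_smul, hq, smul_eq_mul, ret_mul]
    have h1 : ret (c : K) = c := by
      have := ret_ratCast hret (c : ℚ)
      rwa [Rat.cast_intCast] at this
    rw [h1]
    push_cast
    ring
  have hfr : IsHom gr (-(2 * r : ℕ)) (f ^ r) := by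
    have := hf.pow r
    rwa [show (r : ℤ) * -2 = -(2 * r : ℕ) by push_cast; ring] at this
  have hwh : IsHom gr (-(2 * r : ℕ)) w := by
    have := hR.hom hw
    rwa [show (2 : ℤ) * -r = -(2 * r : ℕ) by push_cast; ring] at this
  have : w - f ^ r = 0 := by
    apply adL_inj h t (hwh.sub hfr)
    rw [map_sub, hδ, hkey]
  rw [← sub_eq_zero.1 this]
  exact hw

end Pool.Agent.W537
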