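import Pool.Agent.W537.NP_G

open Set Topology Filter

namespace Pool.Agent.W519.N

theorem isClosed_nonIso_I (X : Type*) [TopologicalSpace X] : IsClosed (NonIso X) := by
  rw [← isOpen_compl_iff, isOpen_iff_forall_mem_open]
  intro x hx
  have hx' : IsOpen ({x} : Set X) := by
    by_contra h
    exact hx h
  refine ⟨{x}, ?_, hx', rfl⟩
  intro y hy
  rw [mem_singleton_iff] at hy
  subst hy
  intro h
  exact h hx'

theorem exists_bad_I {X : Type*} [TopologicalSpace X] [T2Space X]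
    (h2 : ¬ LocallyCompactSpace X) : ∃ p : X, ∀ K ∈ 𝓝 p, ¬ IsCompact K := by
  by_contra hcon
  push Not at hcon
  apply h2
  have : WeaklyLocallyCompactSpace X := ⟨fun x => by
    obtain ⟨K, hK, hKc⟩ := hcon x
    exact ⟨K, hKc, hK⟩⟩
  infer_instance

theorem exists_seq_ne_I {X : Type*} [TopologicalSpace X] [T2Space X] [ParacompactSpace X]
    {C : Set X} (hC : IsClosed C) (hnc : ¬ IsCompact C) (p : X) :
    ∃ x : ℕ → X, (∀ k, x k ∈ C) ∧ (∀ k, x k ≠ p) ∧
      LocallyFinite (fun k => ({x k} : Set X)) := by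
  classical
  obtain ⟨q, W, -, hqW, hqC, hWf, hWd⟩ := exists_discrete_expansion hC hnc
  have hinj : ∀ a b, q a = q b → a = b := by
    intro a b hab
    by_contra hne
    have := hWd hne
    exact (Set.disjoint_left.1 this) (hqW a) (hab ▸ hqW b)
  have hs : ∃ s : ℕ, ∀ k, q (k + s) ≠ p := by
    by_cases h : ∃ k0, q k0 = p
    · obtain ⟨k0, hk0⟩ := h
      refine ⟨k0 + 1, fun k hk => ?_⟩
      have := hinj _ _ (hk.trans hk0.symm)
      omega
    · push Not at h
      exact ⟨0, fun k => h _⟩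
  obtain ⟨s, hs⟩ := hs
  refine ⟨fun k => q (k + s), fun k => hqC _, hs, ?_⟩
  have h3 : LocallyFinite (fun k => W (k + s)) :=
    hWf.comp_injective (fun a b h => by simpa using h)
  exact h3.subset (fun k => by
    rw [singleton_subset_iff]
    exact hqW _)

theorem not_allNormal_of_not_locallyCompact_paracompact_I {X : Type*} [TopologicalSpace X]
    [T2Space X] [ParacompactSpace X] [FirstCountableTopology X]
    (hH : ∀ (p : X)
      (N : ℕ → Set X) (_ : (𝓝 p).HasBasis (fun _ : ℕ => True) N)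
      (x : ℕ → ℕ → X) (_ : ∀ m k, x m k ∈ N m) (_ : ∀ m k, x m k ≠ p)
      (_ : ∀ m, LocallyFinite (fun k => ({x m k} : Set X)))
      (W : ℕ → Set X) (_ : LocallyFinite W) (_ : Pairwise (Function.onFun Disjoint W))
      (_ : ∀ m n, Disjoint (W m) (N n))
      (q : ℕ → X) (_ : ∀ m, q m ∈ W m) (y : ℕ → ℕ → X) (_ : ∀ m k, y m k ∈ W m)
      (_ : ∀ m k, y m k ≠ q m) (_ : ∀ m, q m ∈ closure (range (y m))), ¬ AllNormal X)
    (h1 : ¬ IsCompact (NonIso X)) (h2 : ¬ LocallyCompactSpace X) : ¬ AllNormal X := by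
  classical
  obtain ⟨p, hp⟩ := exists_bad_I h2
  obtain ⟨q0, W0, hWo, hqW, hqC, hWf, hWd⟩ := exists_discrete_expansion (isClosed_nonIso_I X) h1
  obtain ⟨t, ht, htf⟩ := hWf p
  obtain ⟨M, hM⟩ : ∃ M : ℕ, ∀ n, (W0 n ∩ t).Nonempty → n < M := by
    obtain ⟨M, hM⟩ := htf.bddAbove
    exact ⟨M + 1, fun n hn => Nat.lt_succ_of_le (hM hn)⟩
  have hdisj : ∀ n, Disjoint (W0 (n + M)) t := by
    intro n
    rw [Set.disjoint_iff_inter_eq_empty]
    by_contra h
    have := hM _ (Set.nonempty_iff_ne_empty.2 h)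
    omega
  obtain ⟨N', hN'⟩ := (𝓝 p).exists_antitone_basis
  have hT : ∀ n, ∃ T : Set X, T ∈ 𝓝 p ∧ IsClosed T ∧ T ⊆ N' n ∩ t := by
    intro n
    obtain ⟨T, h3, h4, h5⟩ := exists_mem_nhds_isClosed_subset
      (inter_mem (hN'.toHasBasis.mem_of_mem trivial : N' n ∈ 𝓝 p) ht)
    exact ⟨T, h3, h4, h5⟩
  choose T hTn hTc hTs using hT
  have hbasis : (𝓝 p).HasBasis (fun _ : ℕ => True) T := by
    refine ⟨fun s => ⟨fun hs => ?_, ?_⟩⟩
    · obtain ⟨n, -, hn⟩ := hN'.toHasBasis.mem_iff.1 hs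
      exact ⟨n, trivial, ((hTs n).trans inter_subset_left).trans hn⟩
    · rintro ⟨n, -, hn⟩
      exact mem_of_superset (hTn n) hn
  have hx : ∀ m, ∃ x : ℕ → X, (∀ k, x k ∈ T m) ∧ (∀ k, x k ≠ p) ∧
      LocallyFinite (fun k => ({x k} : Set X)) :=
    fun m => exists_seq_ne_I (hTc m) (hp _ (hTn m)) p
  choose x hx1 hx2 hx3 using hx
  have hy : ∀ m, ∃ y : ℕ → X, (∀ k, y k ∈ W0 (m + M)) ∧ (∀ k, y k ≠ q0 (m + M)) ∧
      q0 (m + M) ∈ closure (range y) := by
    intro m
    have hcl : q0 (m + M) ∈ closure (W0 (m + M) \ {q0 (m + M)}) := by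
      rw [mem_closure_iff]
      intro o ho hqo
      by_contra hne
      apply hqC (m + M)
      have h6 : o ∩ W0 (m + M) = {q0 (m + M)} := by
        apply Subset.antisymm
        · rintro z ⟨hz1, hz2⟩
          by_contra hz3
          exact hne ⟨z, hz1, hz2, hz3⟩
        · rw [singleton_subset_iff]
          exact ⟨hqo, hqW _⟩
      rw [← h6]
      exact ho.inter (hWo _)
    obtain ⟨y, hy1, hy2⟩ := mem_closure_iff_seq_limit.1 hcl
    refine ⟨y, fun k => (hy1 k).1, fun k => (hy1 k).2, ?_⟩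
    exact mem_closure_of_tendsto hy2 (Eventually.of_forall fun k => mem_range_self k)
  choose y hy1 hy2 hy3 using hy
  have hshift : Function.Injective (fun n : ℕ => n + M) := fun a b h => by simpa using h
  refine hH p T hbasis x hx1 hx2 hx3 (fun n => W0 (n + M)) (hWf.comp_injective hshift) ?_ ?_
    (fun n => q0 (n + M)) (fun m => hqW _) y hy1 hy2 hy3
  · intro a b hab
    exact hWd (fun h => hab (hshift h))
  · intro m n
    exact (hdisj m).mono_right ((hTs n).trans inter_subset_right)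

end Pool.Agent.W519.N
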