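import Pool.Agent.W537.AnDefs
import Pool.Agent.H914R2.Blocks

/-!
# The span of all algebraic classes, and algebraic operators
-/

open CategoryTheory AlgebraicGeometry

universe u v w

namespace Pool.Agent.W537

open Pool.Agent.H914 VarClass Obj WeilCohomology

variable {k : Type u} [Field k] {𝒱 : VarClass k} {ops : CycleOps 𝒱}

/-- The `K`-span of all algebraic classes, in all codimensions. -/
def algSpan (W : WeilCohomology.{u, v} ops) (X : 𝒱.Obj) : Submodule W.K (W.H X) :=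
  Submodule.span W.K {c | ∃ p z, X.IsCyc p z ∧ W.cl X z = c}

variable {W : WeilCohomology.{u, v} ops} {X Y Z R : 𝒱.Obj}

lemma cl_algSpan {p : ℕ} {z : X.Cycles} (hz : X.IsCyc p z) : W.cl X z ∈ algSpan W X :=
  Submodule.subset_span ⟨p, z, hz, rfl⟩

lemma one_algSpan : (1 : W.H X) ∈ algSpan W X := by
  rw [← W.cl_fund]
  exact cl_algSpan X.V.fundCycle_mem

lemma mul_algSpan {x y : W.H X} (hx : x ∈ algSpan W X) (hy : y ∈ algSpan W X) :
    x * y ∈ algSpan W X := by
  induction hx using Submodule.span_induction with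
  | mem x hx =>
    obtain ⟨p, z, hz, rfl⟩ := hx
    induction hy using Submodule.span_induction with
    | mem y hy =>
      obtain ⟨q, w, hw, rfl⟩ := hy
      rw [← W.cl_mul]
      exact cl_algSpan (ops.mul_mem hz hw)
    | zero => rw [mul_zero]; exact Submodule.zero_mem _
    | add x y _ _ hx hy => rw [mul_add]; exact Submodule.add_mem _ hx hy
    | smul a x _ hx => rw [mul_smul_comm]; exact Submodule.smul_mem _ _ hx
  | zero => rw [zero_mul]; exact Submodule.zero_mem _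
  | add x y _ _ hx hy => rw [add_mul]; exact Submodule.add_mem _ hx hy
  | smul a x _ hx => rw [smul_mul_assoc]; exact Submodule.smul_mem _ _ hx

lemma map_algSpan (f : X ⟶ Y) {y : W.H Y} (hy : y ∈ algSpan W Y) :
    W.map f y ∈ algSpan W X := by
  induction hy using Submodule.span_induction with
  | mem y hy =>
    obtain ⟨q, w, hw, rfl⟩ := hy
    rw [← W.cl_pull]
    exact cl_algSpan (ops.pull_mem f hw)
  | zero => rw [map_zero]; exact Submodule.zero_mem _
  | add x y _ _ hx hy => rw [map_add]; exact Submodule.add_mem _ hx hy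
  | smul a x _ hx => rw [map_smul]; exact Submodule.smul_mem _ _ hx

lemma push_algSpan (f : X ⟶ Y) {x : W.H X} (hx : x ∈ algSpan W X) :
    W.push f x ∈ algSpan W Y := by
  induction hx using Submodule.span_induction with
  | mem x hx =>
    obtain ⟨p, z, hz, rfl⟩ := hx
    by_cases h : X.dim ≤ p + Y.dim
    · rw [← W.cl_push]
      exact cl_algSpan (ops.push_mem (q := p + Y.dim - X.dim) f hz (by omega))
    · have h1 := W.push_mem f (W.cl_mem hz)
      rw [grZ_of_neg (by push_cast; omega)] at h1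
      rw [(Submodule.mem_bot _).1 h1]
      exact Submodule.zero_mem _
  | zero => rw [map_zero]; exact Submodule.zero_mem _
  | add x y _ _ hx hy => rw [map_add]; exact Submodule.add_mem _ hx hy
  | smul a x _ hx => rw [map_smul]; exact Submodule.smul_mem _ _ hx

lemma corr_algSpan {γ : W.H (X.prod Y)} (hγ : γ ∈ algSpan W (X.prod Y)) {x : W.H X}
    (hx : x ∈ algSpan W X) : W.corr γ x ∈ algSpan W Y := by
  rw [corr_apply]
  exact push_algSpan _ (mul_algSpan hγ (map_algSpan _ hx))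

lemma spanCycles_le (j : ℤ) : spanCycles W X j ≤ algSpan W X := by
  apply Submodule.span_mono
  rintro c ⟨p, -, z, hz, rfl⟩
  exact ⟨p, z, hz, rfl⟩

lemma KOp.algSpan' {d : ℤ} {φ : W.H X →ₗ[W.K] W.H Y} (hφ : φ ∈ KOp W X Y d) {x : W.H X}
    (hx : x ∈ algSpan W X) : φ x ∈ algSpan W Y := by
  obtain ⟨γ, hγ, rfl⟩ := mem_KOp_iff.1 hφ
  exact corr_algSpan (spanCycles_le _ hγ) hx

/-- The class `x × y` on `X × Y`. -/
noncomputable def ext (W : WeilCohomology.{u, v} ops) {X Y : 𝒱.Obj} (x : W.H X) (y : W.H Y) :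
    W.H (X.prod Y) :=
  W.map (fst X Y) x * W.map (snd X Y) y

lemma ext_algSpan {x : W.H X} {y : W.H Y} (hx : x ∈ algSpan W X) (hy : y ∈ algSpan W Y) :
    ext W x y ∈ algSpan W (X.prod Y) :=
  mul_algSpan (map_algSpan _ hx) (map_algSpan _ hy)

lemma ext_smul_left (c : W.K) (x : W.H X) (y : W.H Y) : ext W (c • x) y = c • ext W x y := by
  rw [ext, map_smul, smul_mul_assoc]; rfl

lemma ext_smul_right (c : W.K) (x : W.H X) (y : W.H Y) : ext W x (c • y) = c • ext W x y := by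
  rw [ext, map_smul, mul_smul_comm]; rfl

/-- The class `z` on `Z` is, up to a nonzero factor, the pull-back of the class `y` on `Y` along
some morphism. -/
def Pulls (W : WeilCohomology.{u, v} ops) {Y Z : 𝒱.Obj} (y : W.H Y) (z : W.H Z) : Prop :=
  ∃ (f : Z ⟶ Y) (c : W.K), c ≠ 0 ∧ W.map f y = c • z

lemma Pulls.refl (y : W.H Y) : Pulls W y y :=
  ⟨𝟙 Y, 1, one_ne_zero, by rw [W.map_id, one_smul]⟩

lemma Pulls.trans {x : W.H X} {y : W.H Y} {z : W.H Z} (h : Pulls W x y) (h' : Pulls W y z) :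
    Pulls W x z := by
  obtain ⟨f, c, hc, hf⟩ := h
  obtain ⟨g, d, hd, hg⟩ := h'
  exact ⟨g ≫ f, c * d, mul_ne_zero hc hd, by rw [W.map_comp, hf, map_smul, hg, smul_smul]⟩

lemma Pulls.mem {y : W.H Y} {z : W.H Z} (h : Pulls W y z) (hy : y ∈ algSpan W Y) :
    z ∈ algSpan W Z := by
  obtain ⟨f, c, hc, hf⟩ := h
  have h1 := map_algSpan f hy
  rw [hf] at h1
  have h2 := Submodule.smul_mem _ c⁻¹ h1
  rwa [smul_smul, inv_mul_cancel₀ hc, one_smul] at h2

lemma Pulls.smul_left {y : W.H Y} {z : W.H Z} {c : W.K} (hc : c ≠ 0) (h : Pulls W (c • y) z) :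
    Pulls W y z := by
  obtain ⟨f, d, hd, hf⟩ := h
  refine ⟨f, c⁻¹ * d, mul_ne_zero (inv_ne_zero hc) hd, ?_⟩
  rw [map_smul] at hf
  rw [← smul_smul, ← hf, smul_smul, inv_mul_cancel₀ hc, one_smul]

lemma Pulls.smul_right {y : W.H Y} {z : W.H Z} {c : W.K} (hc : c ≠ 0) (h : Pulls W y (c • z)) :
    Pulls W y z := by
  obtain ⟨f, d, hd, hf⟩ := h
  exact ⟨f, d * c, mul_ne_zero hd hc, by rw [hf, smul_smul]⟩

/-- The class on the product with the unit class. -/
lemma Pulls.ext_one (x : W.H X) : Pulls W x (ext W x (1 : W.H R)) :=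
  ⟨fst X R, 1, one_ne_zero, by rw [ext, map_one, mul_one, one_smul]⟩

lemma Pulls.of_ext_one (x : W.H X) (π : X ⟶ R) : Pulls W (ext W x (1 : W.H R)) x :=
  ⟨Obj.lift (𝟙 X) π, 1, one_ne_zero, by
    rw [ext, map_one, mul_one, ← W.map_comp, Obj.lift_fst, W.map_id, one_smul]⟩

lemma Pulls.ext_right (x : W.H X) {y : W.H Y} {z : W.H Z} (h : Pulls W y z) :
    Pulls W (ext W x y) (ext W x z) := by
  obtain ⟨f, c, hc, hf⟩ := h
  refine ⟨Obj.lift (fst X Z) (snd X Z ≫ f), c, hc, ?_⟩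
  rw [ext, map_mul, ← W.map_comp, ← W.map_comp, Obj.lift_fst, Obj.lift_snd, W.map_comp, hf,
    map_smul, mul_smul_comm]
  rfl

lemma Pulls.assoc (x : W.H X) (y : W.H Y) (z : W.H Z) :
    Pulls W (ext W (ext W x y) z) (ext W x (ext W y z)) := by
  refine ⟨Obj.lift (Obj.lift (fst X (Y.prod Z)) (snd X (Y.prod Z) ≫ fst Y Z))
    (snd X (Y.prod Z) ≫ snd Y Z), 1, one_ne_zero, ?_⟩
  rw [ext, ext, map_mul, map_mul, map_mul, ← W.map_comp, ← W.map_comp, ← W.map_comp,
    ← W.map_comp, ← W.map_comp, Obj.lift_fst, Obj.lift_snd, one_smul, ext, ext, map_mul,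
    ← W.map_comp, ← W.map_comp]
  simp only [Obj.lift_fst, Obj.lift_snd, mul_assoc]

lemma Pulls.assoc' (x : W.H X) (y : W.H Y) (z : W.H Z) :
    Pulls W (ext W x (ext W y z)) (ext W (ext W x y) z) := by
  refine ⟨Obj.lift (fst (X.prod Y) Z ≫ fst X Y)
    (Obj.lift (fst (X.prod Y) Z ≫ snd X Y) (snd (X.prod Y) Z)), 1, one_ne_zero, ?_⟩
  rw [ext, ext, map_mul, map_mul, map_mul, ← W.map_comp, ← W.map_comp, ← W.map_comp,
    ← W.map_comp, ← W.map_comp, one_smul, ext, ext, map_mul, ← W.map_comp, ← W.map_comp]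
  simp only [Obj.lift_fst, Obj.lift_snd, mul_assoc]

end Pool.Agent.W537
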