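import Pool.Agent.W537.AnA

/-!
# Words in lines: permutations, concatenation, contraction
-/

open CategoryTheory AlgebraicGeometry

universe u v w

namespace Pool.Agent.W537

open Pool.Agent.H914 VarClass Obj WeilCohomology

variable {k : Type u} [Field k] {𝒱 : VarClass k} {ops : CycleOps 𝒱}
  {W : WeilCohomology.{u, v} ops} {X Y Z R R' : 𝒱.Obj}

lemma Pulls.swap {i j : ℕ} {x : W.H X} {y : W.H Y} (hx : x ∈ W.gr X i) (hy : y ∈ W.gr Y j)
    (z : W.H Z) : Pulls W (ext W x (ext W y z)) (ext W y (ext W x z)) := by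
  refine ⟨Obj.lift (snd Y (X.prod Z) ≫ fst X Z) (Obj.lift (fst Y (X.prod Z))
    (snd Y (X.prod Z) ≫ snd X Z)), (-1) ^ (i * j), pow_ne_zero _ (by norm_num), ?_⟩
  simp only [ext, map_mul, ← W.map_comp, Obj.lift_fst, Obj.lift_snd, Obj.lift_fst_assoc,
    Obj.lift_snd_assoc, Category.assoc]
  rw [← mul_assoc,
    W.comm (W.map_mem _ hx) (W.map_mem (fst Y (X.prod Z)) hy), smul_mul_assoc, mul_assoc]

lemma ext_gr {i j : ℕ} {x : W.H X} {y : W.H Y} (hx : x ∈ W.gr X i) (hy : y ∈ W.gr Y j) :
    ext W x y ∈ W.gr (X.prod Y) (i + j) :=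
  W.mul_mem (W.map_mem _ hx) (W.map_mem _ hy)

/-- Contraction of two adjacent factors. -/
lemma contract {x x' : W.H X} {z : W.H Z} (h : ext W x (ext W x' z) ∈ algSpan W _)
    (hne : W.tr X (x * x') ≠ 0) : z ∈ algSpan W Z := by
  have h1 := push_algSpan (snd X Z) (map_algSpan (Obj.lift (fst X Z) (𝟙 (X.prod Z))) h)
  have e1 : W.push (snd X Z) (W.map (Obj.lift (fst X Z) (𝟙 (X.prod Z)))
      (ext W x (ext W x' z))) = W.tr X (x * x') • z := by
    rw [ext, map_mul, ← W.map_comp, ← W.map_comp, Obj.lift_fst, Obj.lift_snd, W.map_id, ext,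
      ← mul_assoc, ← map_mul, push_snd]
  rw [e1] at h1
  have h2 := Submodule.smul_mem _ (W.tr X (x * x'))⁻¹ h1
  rwa [smul_smul, inv_mul_cancel₀ hne, one_smul] at h2

variable {J : Type w} (P : J → 𝒱.Obj) {I : J → Type v}

/-- The product of the varieties belonging to a word, with a last factor `R`. -/
noncomputable def nest (R : 𝒱.Obj) : List ((Σ j, I j) × Bool) → 𝒱.Obj
  | [] => R
  | s :: l => (P s.1.1).prod (nest R l)

variable {P} (u : ∀ s : (Σ j, I j) × Bool, W.H (P s.1.1))

/-- The external product of the classes belonging to a word, with a last factor `r`. -/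
noncomputable def vec {R : 𝒱.Obj} (r : W.H R) :
    ∀ l : List ((Σ j, I j) × Bool), W.H (nest P R l)
  | [] => r
  | s :: l => ext W (u s) (vec r l)

lemma vec_smul (c : W.K) (r : W.H R) (l) : vec u (c • r) l = c • vec u r l := by
  induction l with
  | nil => rfl
  | cons s l ih => rw [vec, ih, ext_smul_right]; rfl

lemma vec_pulls {r : W.H R} {r' : W.H R'} (h : Pulls W r r') (l) :
    Pulls W (vec u r l) (vec u r' l) := by
  induction l with
  | nil => exact h
  | cons s l ih => exact Pulls.ext_right _ ih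

lemma vec_append (r : W.H R) (l l') : Pulls W (vec u (vec u r l') l) (vec u r (l ++ l')) := by
  induction l with
  | nil => exact Pulls.refl _
  | cons s l ih => exact Pulls.ext_right _ ih

lemma vec_append' (r : W.H R) (l l') : Pulls W (vec u r (l ++ l')) (vec u (vec u r l') l) := by
  induction l with
  | nil => exact Pulls.refl _
  | cons s l ih => exact Pulls.ext_right _ ih

/-- The projection to the last factor. -/
noncomputable def toR (R : 𝒱.Obj) : ∀ l, nest P (I := I) R l ⟶ R
  | [] => 𝟙 R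
  | s :: l => snd (P s.1.1) (nest P R l) ≫ toR R l

lemma ext_vec {r' : W.H R'} (π : R' ⟶ R) (l) :
    Pulls W (ext W (vec u (1 : W.H R) l) r') (vec u r' l) := by
  induction l with
  | nil =>
    refine ⟨Obj.lift π (𝟙 R'), 1, one_ne_zero, ?_⟩
    change W.map (Obj.lift π (𝟙 R')) (W.map (fst R R') 1 * W.map (snd R R') r') = (1 : W.K) • r'
    rw [map_one, one_mul, ← W.map_comp, Obj.lift_snd, W.map_id, one_smul]
  | cons s l ih => exact (Pulls.assoc _ _ _).trans (Pulls.ext_right _ ih)

/-- The class belonging to a word (with the unit class on `R`) is algebraic. -/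
def Alg (u : ∀ s : (Σ j, I j) × Bool, W.H (P s.1.1)) (R : 𝒱.Obj)
    (l : List ((Σ j, I j) × Bool)) : Prop :=
  vec u (1 : W.H R) l ∈ algSpan W (nest P R l)

variable {u}

lemma Alg.nil : Alg u R [] := one_algSpan

lemma Alg.append {l l'} (h : Alg u R l) (h' : Alg u R l') : Alg u R (l ++ l') :=
  (vec_append u _ l l').mem ((ext_vec u (toR R l') l).mem (ext_algSpan h h'))

/-- The classes are homogeneous. -/
def Homog (u : ∀ s : (Σ j, I j) × Bool, W.H (P s.1.1)) : Prop :=
  ∀ s, ∃ d, u s ∈ W.gr _ d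

/-- The classes form dual pairs. -/
def Paired (u : ∀ s : (Σ j, I j) × Bool, W.H (P s.1.1)) : Prop :=
  ∀ a, W.tr (P a.1) (u (a, true) * u (a, false)) ≠ 0

lemma vec_perm (hu : Homog u) (r : W.H R) {l l'} (h : l.Perm l') :
    Pulls W (vec u r l) (vec u r l') := by
  induction h with
  | nil => exact Pulls.refl _
  | cons s _ ih => exact Pulls.ext_right _ ih
  | swap s t l =>
    obtain ⟨i, hi⟩ := hu s
    obtain ⟨j, hj⟩ := hu t
    exact Pulls.swap hj hi _
  | trans _ _ h1 h2 => exact h1.trans h2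

lemma Alg.perm (hu : Homog u) {l l'} (h : l.Perm l') (hl : Alg u R l) : Alg u R l' :=
  (vec_perm hu _ h).mem hl

lemma Paired.ne (hu : Homog u) (hp : Paired u) (a : Σ j, I j) (b : Bool) :
    W.tr (P a.1) (u (a, b) * u (a, !b)) ≠ 0 := by
  cases b
  · obtain ⟨i, hi⟩ := hu (a, false)
    obtain ⟨j, hj⟩ := hu (a, true)
    change W.tr (P a.1) (u (a, false) * u (a, true)) ≠ 0
    rw [W.comm hi hj, map_smul, smul_eq_mul]
    exact mul_ne_zero (pow_ne_zero _ (by norm_num)) (hp a)
  · exact hp a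

lemma Alg.contract (hu : Homog u) (hp : Paired u) {a : Σ j, I j} {b : Bool} {l}
    (h : Alg u R ((a, b) :: (a, !b) :: l)) : Alg u R l :=
  W537.contract h (Paired.ne hu hp a b)

end Pool.Agent.W537
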