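import Pool.Agent.W537.AnB

/-!
# The semigroup of algebraic words
-/

open CategoryTheory AlgebraicGeometry

universe u v w

namespace Pool.Agent.W537

open Pool.Agent.H914 VarClass Obj WeilCohomology

section Abstract

variable {A : Type*} [AddCommGroup A] {Γ : Type*} [Group Γ] [Fintype Γ] (act : Γ → A →+ A)
  (S : AddSubmonoid A)

/-- The norm. -/
def nrm (x : A) : A := ∑ γ, act γ x

variable {act S}

lemma nrm_add (x y : A) : nrm act (x + y) = nrm act x + nrm act y := by
  simp [nrm, Finset.sum_add_distrib]

lemma nrm_neg (x : A) : nrm act (-x) = -nrm act x := by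
  simp [nrm]

lemma nrm_zero : nrm act (0 : A) = 0 := by simp [nrm]

lemma nrm_mem (hS : ∀ γ, ∀ x ∈ S, act γ x ∈ S) {x : A} (hx : x ∈ S) : nrm act x ∈ S :=
  sum_mem fun γ _ => hS γ x hx

/-- The elements whose norm is invertible in the semigroup up to torsion. -/
def good (act : Γ → A →+ A) (S : AddSubmonoid A) : AddSubgroup A where
  carrier := {x | ∃ c : ℕ, 1 ≤ c ∧ c • nrm act x ∈ S ∧ -(c • nrm act x) ∈ S}
  zero_mem' := ⟨1, le_rfl, by rw [nrm_zero, smul_zero]; exact S.zero_mem,
    by rw [nrm_zero, smul_zero, neg_zero]; exact S.zero_mem⟩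
  add_mem' := by
    rintro x y ⟨c, hc, h1, h2⟩ ⟨d, hd, h3, h4⟩
    refine ⟨c * d, Nat.one_le_iff_ne_zero.2 (by positivity), ?_, ?_⟩
    · have e : (c * d) • nrm act (x + y) = d • (c • nrm act x) + c • (d • nrm act y) := by
        rw [nrm_add, smul_add, smul_smul, smul_smul, mul_comm d c]
      rw [e]
      exact S.add_mem (S.nsmul_mem h1 d) (S.nsmul_mem h3 c)
    · have e : -((c * d) • nrm act (x + y)) = d • (-(c • nrm act x)) + c • (-(d • nrm act y)) := by
        rw [nrm_add, smul_add, smul_neg, smul_neg, smul_smul, smul_smul, mul_comm d c, neg_add]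
      rw [e]
      exact S.add_mem (S.nsmul_mem h2 d) (S.nsmul_mem h4 c)
  neg_mem' := by
    rintro x ⟨c, hc, h1, h2⟩
    refine ⟨c, hc, ?_, ?_⟩
    · rw [nrm_neg, smul_neg]; exact h2
    · rw [nrm_neg, smul_neg, neg_neg]; exact h1

/-- **The norm argument.** -/
theorem neg_mem_of_good (h1 : ∀ x, act 1 x = x) (hS : ∀ γ, ∀ x ∈ S, act γ x ∈ S) {x : A}
    (hx : x ∈ S) (hg : x ∈ good act S) : -x ∈ S := by
  classical
  obtain ⟨c, hc, -, h3⟩ := hg
  have h4 : nrm act x - x ∈ S := by
    have : nrm act x - x = ∑ γ ∈ Finset.univ.erase (1 : Γ), act γ x := by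
      rw [nrm, ← Finset.add_sum_erase _ _ (Finset.mem_univ (1 : Γ)), h1]
      abel
    rw [this]
    exact sum_mem fun γ _ => hS γ x hx
  have h5 : (c - 1) • nrm act x ∈ S := S.nsmul_mem (nrm_mem hS hx) _
  have e : -x = -(c • nrm act x) + (c - 1) • nrm act x + (nrm act x - x) := by
    obtain ⟨d, rfl⟩ : ∃ d, c = d + 1 := ⟨c - 1, by omega⟩
    rw [Nat.add_sub_cancel, succ_nsmul]
    abel
  rw [e]
  exact S.add_mem (S.add_mem h3 h5) h4

end Abstract

variable {k : Type u} [Field k] {𝒱 : VarClass k} {ops : CycleOps 𝒱}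
  {W : WeilCohomology.{u, v} ops} {R : 𝒱.Obj} {J : Type w} {P : J → 𝒱.Obj} {I : J → Type v}

/-- The opposite letter. -/
def opp (s : (Σ j, I j) × Bool) : (Σ j, I j) × Bool := (s.1, !s.2)

lemma opp_opp (s : (Σ j, I j) × Bool) : opp (opp s) = s := by
  rcases s with ⟨a, b⟩
  simp [opp]

/-- The sign of a letter. -/
def sg (b : Bool) : ℤ := if b then 1 else -1

/-- The element of the free abelian group belonging to a letter. -/
noncomputable def val (s : (Σ j, I j) × Bool) : (Σ j, I j) →₀ ℤ := Finsupp.single s.1 (sg s.2)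

lemma val_opp (s : (Σ j, I j) × Bool) : val (opp s) = -val s := by
  rcases s with ⟨a, b⟩
  cases b <;> simp [opp, val, sg]

/-- The element of the free abelian group belonging to a word. -/
noncomputable def net (l : List ((Σ j, I j) × Bool)) : (Σ j, I j) →₀ ℤ := (l.map val).sum

@[simp] lemma net_nil : net ([] : List ((Σ j, I j) × Bool)) = 0 := rfl
@[simp] lemma net_cons (s : (Σ j, I j) × Bool) (l) : net (s :: l) = val s + net l := by
  simp [net]
@[simp] lemma net_append (l l' : List ((Σ j, I j) × Bool)) : net (l ++ l') = net l + net l' := by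
  simp [net]

lemma net_perm {l l' : List ((Σ j, I j) × Bool)} (h : l.Perm l') : net l = net l' :=
  (h.map val).sum_eq

lemma net_opp (l : List ((Σ j, I j) × Bool)) : net (l.map opp) = -net l := by
  induction l with
  | nil => simp
  | cons s l ih =>
    rw [List.map_cons, net_cons, net_cons, val_opp, ih]
    abel

lemma opp_mem {s : (Σ j, I j) × Bool} {m : List ((Σ j, I j) × Bool)} (h : net (s :: m) = 0) :
    opp s ∈ m := by
  classical
  by_contra hs
  have key : ∀ m : List ((Σ j, I j) × Bool), opp s ∉ m → 0 ≤ sg s.2 * net m s.1 := by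
    intro m
    induction m with
    | nil => intro _; simp
    | cons t m ih =>
      intro ht
      rw [List.mem_cons, not_or] at ht
      have h1 := ih ht.2
      rw [net_cons, Finsupp.add_apply, mul_add]
      have h2 : 0 ≤ sg s.2 * val t s.1 := by
        by_cases h3 : t.1 = s.1
        · have h4 : t.2 = s.2 := by
            by_contra h4
            apply ht.1
            rcases s with ⟨a, b⟩
            rcases t with ⟨a', b'⟩
            change a' = a at h3
            change ¬ b' = b at h4
            subst h3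
            cases b <;> cases b' <;> simp_all [opp]
          rw [val, h3, h4, Finsupp.single_eq_same]
          exact mul_self_nonneg _
        · rw [val, Finsupp.single_apply, if_neg h3, mul_zero]
      omega
  have h1 := key m hs
  have h2 := congrArg (fun f : (Σ j, I j) →₀ ℤ => f s.1) h
  simp only [net_cons, Finsupp.add_apply, Finsupp.coe_zero, Pi.zero_apply] at h2
  rw [val, Finsupp.single_eq_same] at h2
  rcases s with ⟨a, b⟩
  cases b
  · simp only [sg, Bool.false_eq_true, if_false] at h1 h2
    omega
  · simp only [sg, if_true] at h1 h2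
    omega

variable {u : ∀ s : (Σ j, I j) × Bool, W.H (P s.1.1)}

lemma Alg.cancel (hu : Homog u) (hp : Paired u) (n : ℕ) :
    ∀ m : List ((Σ j, I j) × Bool), m.length ≤ n → net m = 0 →
      ∀ l, Alg u R (m ++ l) → Alg u R l := by
  classical
  induction n with
  | zero =>
    intro m hm _ l hl
    rw [List.eq_nil_of_length_eq_zero (by omega : m.length = 0)] at hl
    exact hl
  | succ n ih =>
    intro m hm hnet l hl
    rcases m with _ | ⟨s, m⟩
    · exact hl
    · have h1 := opp_mem hnet
      have h2 : m.Perm (opp s :: m.erase (opp s)) := List.perm_cons_erase h1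
      have h3 : Alg u R ((s.1, s.2) :: (s.1, !s.2) :: (m.erase (opp s) ++ l)) :=
        Alg.perm hu ((h2.cons s).append_right l) hl
      refine ih (m.erase (opp s)) ?_ ?_ l (Alg.contract hu hp h3)
      · have := h2.length_eq
        simp only [List.length_cons] at this hm
        omega
      · have h4 := net_perm (h2.cons s)
        rw [hnet, net_cons, net_cons, val_opp] at h4
        have : val s + (-val s + net (m.erase (opp s))) = net (m.erase (opp s)) := by abel
        rw [this] at h4
        exact h4.symm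

/-- The projectors are algebraic. -/
def PairsAlg (u : ∀ s : (Σ j, I j) × Bool, W.H (P s.1.1)) (R : 𝒱.Obj) : Prop :=
  ∀ a, Alg u R [(a, true), (a, false)]

lemma PairsAlg.opp (hu : Homog u) (h : PairsAlg u R) (s : (Σ j, I j) × Bool) :
    Alg u R [s, opp s] := by
  rcases s with ⟨a, b⟩
  cases b
  · exact Alg.perm hu (List.Perm.swap _ _ _) (h a)
  · exact h a

lemma PairsAlg.all (hu : Homog u) (h : PairsAlg u R) (l : List ((Σ j, I j) × Bool)) :
    Alg u R (l ++ l.map W537.opp) := by
  induction l with
  | nil => exact Alg.nil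
  | cons s l ih =>
    have h1 := (PairsAlg.opp hu h s).append ih
    refine Alg.perm hu ?_ h1
    simp only [List.cons_append, List.nil_append, List.map_cons]
    exact (List.perm_middle.symm).cons s

/-- Algebraicity of a word depends only on the element of the free abelian group. -/
theorem Alg.of_net (hu : Homog u) (hp : Paired u) (h : PairsAlg u R)
    {l l' : List ((Σ j, I j) × Bool)} (hl : Alg u R l) (hnet : net l = net l') :
    Alg u R l' := by
  have h1 := hl.append (PairsAlg.all hu h l')
  have h2 : Alg u R ((l ++ l'.map W537.opp) ++ l') := by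
    refine Alg.perm hu ?_ h1
    rw [List.append_assoc]
    exact List.perm_append_comm.append_left l
  refine Alg.cancel hu hp _ _ le_rfl ?_ l' h2
  rw [net_append, net_opp, hnet, add_neg_cancel]

/-- The semigroup of algebraic words. -/
def algSG (u : ∀ s : (Σ j, I j) × Bool, W.H (P s.1.1)) (R : 𝒱.Obj) :
    AddSubmonoid ((Σ j, I j) →₀ ℤ) where
  carrier := {x | ∃ l, net l = x ∧ Alg u R l}
  zero_mem' := ⟨[], rfl, Alg.nil⟩
  add_mem' := by
    rintro _ _ ⟨l, rfl, hl⟩ ⟨l', rfl, hl'⟩
    exact ⟨l ++ l', net_append _ _, hl.append hl'⟩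

lemma Alg.mem {l : List ((Σ j, I j) × Bool)} (hl : Alg u R l) : net l ∈ algSG u R := ⟨l, rfl, hl⟩

lemma Alg.of_mem (hu : Homog u) (hp : Paired u) (h : PairsAlg u R)
    {l : List ((Σ j, I j) × Bool)} (hl : net l ∈ algSG u R) : Alg u R l := by
  obtain ⟨l', h1, h2⟩ := hl
  exact h2.of_net hu hp h h1

end Pool.Agent.W537
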