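import Pool.Agent.W537.AnC

/-!
# Frames of lines with algebraic projectors
-/

open CategoryTheory AlgebraicGeometry

universe u v w

namespace Pool.Agent.W537

open Pool.Agent.H914 VarClass Obj WeilCohomology

variable {k : Type u} [Field k] {𝒱 : VarClass k} {ops : CycleOps 𝒱}

/-- Dual bases of homogeneous vectors with algebraic projectors. -/
structure IsFrame (W : WeilCohomology.{u, v} ops) (Y : 𝒱.Obj) {I : Type v} [Fintype I]
    (v w : I → W.H Y) (E : I → Module.End W.K (W.H Y)) : Prop where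
  sum : ∑ i, E i = 1
  alg : ∀ i, E i ∈ KOp W Y Y 0
  act : ∀ i, ∃ ε : W.K, ε ≠ 0 ∧ ∀ x, E i x = (ε * W.tr Y (x * w i)) • v i
  degv : ∀ i, ∃ d, v i ∈ W.gr Y d
  degw : ∀ i, ∃ d, w i ∈ W.gr Y d
  pair : ∀ i, W.tr Y (v i * w i) ≠ 0
  orth : ∀ i m, i ≠ m → W.tr Y (v m * w i) = 0

variable {W : WeilCohomology.{u, v} ops} {X Y Z R : 𝒱.Obj} {I I' : Type v} [Fintype I] [Fintype I']
  {v w : I → W.H Y} {E : I → Module.End W.K (W.H Y)}

/-- Changing the order in a trace changes it by a nonzero factor. -/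
lemma tr_comm_ne {a b : W.H Y} {i j : ℕ} (ha : a ∈ W.gr Y i) (hb : b ∈ W.gr Y j) :
    W.tr Y (a * b) = (-1) ^ (i * j) * W.tr Y (b * a) := by
  rw [W.comm ha hb, map_smul, smul_eq_mul]

/-- If one factor is homogeneous, the sign does not depend on the other one. -/
lemma tr_comm_sign {a : W.H Y} {i : ℕ} (ha : a ∈ W.gr Y i) (x : W.H Y) :
    W.tr Y (x * a) = (-1) ^ i * W.tr Y (a * x) := by
  refine gr_induction (W.isInternal Y)
    (p := fun x => W.tr Y (x * a) = (-1) ^ i * W.tr Y (a * x)) ?_ ?_ x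
  · intro j x hx
    by_cases h : j + i = 2 * Y.dim
    · rw [tr_comm_ne hx ha]
      congr 1
      have h1 : Even (j + i) := h ▸ even_two_mul _
      rcases Nat.even_or_odd i with hi | hi
      · rw [hi.neg_one_pow, (hi.mul_left j).neg_one_pow]
      · have hj : Odd j := by
          by_contra hj
          rw [Nat.not_odd_iff_even] at hj
          exact (Nat.not_even_iff_odd.2 (hj.add_odd hi)) h1
        rw [hi.neg_one_pow, (hj.mul hi).neg_one_pow]
    · rw [W.tr_eq_zero (W.mul_mem hx ha) h, W.tr_eq_zero (W.mul_mem ha hx) (by omega), mul_zero]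
  · intro x y hx hy
    rw [add_mul, mul_add, map_add, map_add, hx, hy, mul_add]

/-- The component of an algebraic class. -/
lemma IsFrame.mem (h : IsFrame W Y v w E) {x : W.H Y} (hx : x ∈ algSpan W Y) {i : I}
    (hi : W.tr Y (x * w i) ≠ 0) : v i ∈ algSpan W Y := by
  obtain ⟨ε, hε, hE⟩ := h.act i
  have h1 := KOp.algSpan' (h.alg i) hx
  rw [hE] at h1
  have hc : ε * W.tr Y (x * w i) ≠ 0 := mul_ne_zero hε hi
  have h2 := Submodule.smul_mem _ (ε * W.tr Y (x * w i))⁻¹ h1
  rwa [smul_smul, inv_mul_cancel₀ hc, one_smul] at h2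

/-- Every nonzero vector has a nonzero component. -/
lemma IsFrame.exists_ne (h : IsFrame W Y v w E) {x : W.H Y} (hx : x ≠ 0) :
    ∃ i, W.tr Y (x * w i) ≠ 0 := by
  by_contra h0
  push Not at h0
  apply hx
  have h1 := congrArg (fun F => F x) h.sum
  simp only [LinearMap.sum_apply, Module.End.one_apply] at h1
  rw [← h1]
  apply Finset.sum_eq_zero
  intro i _
  obtain ⟨ε, -, hE⟩ := h.act i
  rw [hE, h0, mul_zero, zero_smul]

/-- Every vector is the sum of its components. -/
lemma IsFrame.mem_span (h : IsFrame W Y v w E) (x : W.H Y) :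
    x ∈ Submodule.span W.K {y | ∃ i, W.tr Y (x * w i) ≠ 0 ∧ v i = y} := by
  have h1 := congrArg (fun F => F x) h.sum
  simp only [LinearMap.sum_apply, Module.End.one_apply] at h1
  have h2 : ∀ i, E i x ∈ Submodule.span W.K {y | ∃ i, W.tr Y (x * w i) ≠ 0 ∧ v i = y} := by
    intro i
    obtain ⟨ε, -, hE⟩ := h.act i
    rw [hE]
    by_cases hi : W.tr Y (x * w i) = 0
    · rw [hi, mul_zero, zero_smul]; exact Submodule.zero_mem _
    · exact Submodule.smul_mem _ _ (Submodule.subset_span ⟨i, hi, rfl⟩)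
  have h3 := Submodule.sum_mem (t := Finset.univ) _ (fun i _ => h2 i)
  rwa [h1] at h3

lemma IsFrame.ne_zero (h : IsFrame W Y v w E) (i : I) : v i ≠ 0 := by
  intro h0
  apply h.pair i
  rw [h0, zero_mul, map_zero]

/-- The dual frame. -/
theorem IsFrame.dual (h : IsFrame W Y v w E) : ∃ E', IsFrame W Y w v E' := by
  classical
  choose ε hε hE using h.act
  choose dv hdv using h.degv
  choose dw hdw using h.degw
  have hex : ∀ i, ∃ ψ ∈ KOp W Y Y 0, ∀ a b, W.tr Y (E i a * b) = W.tr Y (a * ψ b) := by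
    intro i
    obtain ⟨ψ, hψ, hadj⟩ := KOp.exists_adjoint (h.alg i)
    exact ⟨ψ, KOp.cast hψ (by ring), hadj⟩
  choose E' hE' hadj using hex
  have hact : ∀ i b, E' i b = (ε i * W.tr Y (v i * b)) • w i := by
    intro i b
    rw [← sub_eq_zero]
    apply nondeg_right
    intro a
    rw [mul_sub, map_sub, ← hadj, hE, smul_mul_assoc, map_smul, mul_smul_comm, map_smul,
      smul_eq_mul, smul_eq_mul]
    ring
  refine ⟨E', ?_, hE', fun i => ⟨ε i * (-1) ^ dv i, mul_ne_zero (hε i) (pow_ne_zero _ (by norm_num)),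
    fun x => ?_⟩, fun i => ⟨_, hdw i⟩, fun i => ⟨_, hdv i⟩, fun i => ?_, fun i m him => ?_⟩
  · apply LinearMap.ext
    intro b
    rw [← sub_eq_zero]
    apply nondeg_right
    intro a
    rw [mul_sub, map_sub, LinearMap.sum_apply, Finset.mul_sum, map_sum]
    have h1 : ∀ i, W.tr Y (a * E' i b) = W.tr Y (E i a * b) := fun i => (hadj i a b).symm
    rw [Finset.sum_congr rfl (fun i _ => h1 i), ← map_sum, ← Finset.sum_mul]
    have h2 := congrArg (fun F => F a) h.sum
    simp only [LinearMap.sum_apply, Module.End.one_apply] at h2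
    rw [h2, Module.End.one_apply, sub_self]
  · rw [hact, tr_comm_sign (hdv i) x]
    congr 1
    have : ((-1 : W.K) ^ dv i) * (-1) ^ dv i = 1 := by
      rw [← pow_add, ← two_mul, pow_mul]; simp
    linear_combination (-(ε i) * W.tr Y (v i * x)) * this
  · rw [tr_comm_sign (hdv i)]
    exact mul_ne_zero (pow_ne_zero _ (by norm_num)) (h.pair i)
  · rw [tr_comm_sign (hdv i), h.orth m i (Ne.symm him), mul_zero]

/-- The trace of a product of external products. -/
lemma tr_ext_mul {a : W.H Y} {b : W.H Z} {y : W.H Y} {z : W.H Z} {i j : ℕ} (hy : y ∈ W.gr Y i)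
    (hz : z ∈ W.gr Z j) :
    W.tr (Y.prod Z) (ext W a b * ext W y z) = (-1) ^ (i * j) * (W.tr Y (a * y) * W.tr Z (b * z)) := by
  refine gr_induction (W.isInternal Z) (p := fun b => W.tr (Y.prod Z) (ext W a b * ext W y z) =
    (-1) ^ (i * j) * (W.tr Y (a * y) * W.tr Z (b * z))) ?_ ?_ b
  · intro m b hb
    have e1 : ext W a b * ext W y z = (-1 : W.K) ^ (m * i) • ext W (a * y) (b * z) := by
      rw [ext, ext, ext, mul_assoc, ← mul_assoc (W.map (snd Y Z) b),
        W.comm (W.map_mem _ hb) (W.map_mem (fst Y Z) hy), smul_mul_assoc, mul_smul_comm, map_mul,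
        map_mul]
      simp only [mul_assoc]
    rw [e1, map_smul, ext, W.tr_prod, smul_eq_mul]
    by_cases h : m + j = 2 * Z.dim
    · congr 1
      have h1 : Even (m + j) := h ▸ even_two_mul _
      rcases Nat.even_or_odd m with hm | hm
      · have hj : Even j := by
          by_contra hj
          rw [Nat.not_even_iff_odd] at hj
          exact (Nat.not_even_iff_odd.2 (hm.add_odd hj)) h1
        rw [(hm.mul_right i).neg_one_pow, (hj.mul_left i).neg_one_pow]
      · have hj : Odd j := by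
          by_contra hj
          rw [Nat.not_odd_iff_even] at hj
          exact (Nat.not_even_iff_odd.2 (hm.add_even hj)) h1
        rcases Nat.even_or_odd i with hi | hi
        · rw [(hi.mul_left m).neg_one_pow, (hi.mul_right j).neg_one_pow]
        · rw [(hm.mul hi).neg_one_pow, (hi.mul hj).neg_one_pow]
    · rw [W.tr_eq_zero (W.mul_mem hb hz) h, mul_zero, mul_zero, mul_zero]
  · intro b b' hb hb'
    have e1 : ext W a (b + b') = ext W a b + ext W a b' := by
      rw [ext, map_add, mul_add]; rfl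
    rw [e1, add_mul, map_add, hb, hb', add_mul, map_add]
    ring

/-- The product frame. -/
theorem IsFrame.prod {v' w' : I' → W.H Z} {E' : I' → Module.End W.K (W.H Z)}
    (h : IsFrame W Y v w E) (h' : IsFrame W Z v' w' E') :
    IsFrame W (Y.prod Z) (fun s : I × I' => ext W (v s.1) (v' s.2))
      (fun s => ext W (w s.1) (w' s.2)) (fun s => extOp W (E s.1) (E' s.2)) := by
  classical
  refine ⟨?_, fun s => KOp.cast (KOp.ext (h.alg s.1) (h'.alg s.2)) (by ring), fun s => ?_,
    fun s => ?_, fun s => ?_, fun s => ?_, fun s t hst => ?_⟩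
  · rw [Fintype.sum_prod_type]
    have : ∀ i, ∑ j, extOp W (E i) (E' j) = extOp W (E i) 1 := by
      intro i
      rw [← h'.sum, extOp_sum']
    rw [Finset.sum_congr rfl (fun i _ => this i), ← extOp_sum, h.sum, extOp_one]
  · obtain ⟨ε, hε, hE⟩ := h.act s.1
    obtain ⟨ε', hε', hE'⟩ := h'.act s.2
    obtain ⟨i, hi⟩ := h.degw s.1
    obtain ⟨j, hj⟩ := h'.degw s.2
    refine ⟨ε * ε' * (-1) ^ (i * j), mul_ne_zero (mul_ne_zero hε hε') (pow_ne_zero _ (by norm_num)),
      ?_⟩
    set T : Module.End W.K (W.H (Y.prod Z)) :=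
      (W.tr (Y.prod Z) ∘ₗ LinearMap.mulRight W.K (ext W (w s.1) (w' s.2))).smulRight
        ((ε * ε' * (-1) ^ (i * j)) • ext W (v s.1) (v' s.2)) with hT
    have key : extOp W (E s.1) (E' s.2) = T := by
      apply ext_kunneth_lin
      intro a b
      rw [extOp_tmul, hE, hE', hT, LinearMap.smulRight_apply, LinearMap.comp_apply,
        LinearMap.mulRight_apply]
      change _ = W.tr (Y.prod Z) (ext W a b * ext W (w s.1) (w' s.2)) • _
      rw [tr_ext_mul hi hj]
      change ext W _ _ = _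
      rw [ext_smul_left, ext_smul_right, smul_smul, smul_smul]
      congr 1
      have : ((-1 : W.K) ^ (i * j)) * (-1) ^ (i * j) = 1 := by
        rw [← pow_add, ← two_mul, pow_mul]; simp
      linear_combination (-(ε * W.tr Y (a * w s.1) * (ε' * W.tr Z (b * w' s.2)))) * this
    intro x
    rw [key, hT, LinearMap.smulRight_apply, LinearMap.comp_apply, LinearMap.mulRight_apply,
      smul_smul, mul_comm]
  · obtain ⟨i, hi⟩ := h.degv s.1
    obtain ⟨j, hj⟩ := h'.degv s.2
    exact ⟨_, ext_gr hi hj⟩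
  · obtain ⟨i, hi⟩ := h.degw s.1
    obtain ⟨j, hj⟩ := h'.degw s.2
    exact ⟨_, ext_gr hi hj⟩
  · obtain ⟨i, hi⟩ := h.degw s.1
    obtain ⟨j, hj⟩ := h'.degw s.2
    rw [tr_ext_mul hi hj]
    exact mul_ne_zero (pow_ne_zero _ (by norm_num)) (mul_ne_zero (h.pair _) (h'.pair _))
  · obtain ⟨i, hi⟩ := h.degw s.1
    obtain ⟨j, hj⟩ := h'.degw s.2
    rw [tr_ext_mul hi hj]
    by_cases h1 : s.1 = t.1
    · have h2 : s.2 ≠ t.2 := fun h2 => hst (Prod.ext h1 h2)
      rw [h'.orth _ _ h2, mul_zero, mul_zero]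
    · rw [h.orth _ _ h1, zero_mul, mul_zero]

end Pool.Agent.W537
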