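import Pool.Agent.H914R2.DDefs

/-!
# Products of varieties with complex multiplication by algebraic correspondences: definitions
-/

open CategoryTheory AlgebraicGeometry

universe u v w

namespace Pool.Agent.W537

open Pool.Agent.H914

section Alg

variable {K : Type*} [Field K] {A : Type*} [Ring A] [Algebra K A] {C : Type*} [Ring C]
  [Algebra K C]

/-- Some linear combination of the operators given by the elements of `S` has a squarefree
characteristic polynomial. -/
def SimpleIn [Module.Finite K A] (p : A →ₐ[K] C) (s : C →ₗ[K] A) (S : Set C) : Prop :=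
  ∃ T ∈ corrSpan p s S, Squarefree (LinearMap.charpoly T)

/-- Some linear combination of the operators given by the elements of `S` is injective on the
subspace `U`. -/
def InjectiveIn (U : Submodule K A) (p : A →ₐ[K] C) (s : C →ₗ[K] A) (S : Set C) : Prop :=
  ∃ T ∈ corrSpan p s S, ∀ x ∈ U, T x = 0 → x = 0

/-- The algebra `A` is generated by the elements of the sets `B j` and the subspaces `gr i` with
`i` in `S`. -/
def GeneratedIn (gr : ℕ → Submodule K A) (B : ℕ → Set A) (S : Set ℕ) : Prop :=
  Algebra.adjoin K ({c | ∃ j, c ∈ B j} ∪ {x | ∃ i ∈ S, x ∈ gr i}) = ⊤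

/-- For every nonzero vector `x` in the subspace `U` there is an operator `T` given by an element
of one of the sets `B q` such that `tr (T x * x)` is not zero. -/
def AnisotropicIn (tr : A →ₗ[K] K) (U : Submodule K A) (p : A →ₐ[K] C) (s : C →ₗ[K] A)
    (B : ℕ → Set C) : Prop :=
  ∀ x ∈ U, x ≠ 0 → ∃ q, ∃ c ∈ B q, tr (corrOp p s c x * x) ≠ 0

end Alg

open VarClass Obj WeilCohomology

variable {k : Type u} [Field k] {𝒱 : VarClass k} {ops : CycleOps 𝒱}

/-- The iterated products of members of the family `P` (with any bracketing and repetitions). -/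
inductive IsProductOf {ι : Type w} (P : ι → 𝒱.Obj) : 𝒱.Obj → Prop
  | base (i : ι) : IsProductOf P (P i)
  | prod {Y Z : 𝒱.Obj} : IsProductOf P Y → IsProductOf P Z → IsProductOf P (Y.prod Z)

/-- Some `K`-linear combination of algebraic correspondences of degree zero on `X` acts on the
cohomology `H(X)` (in all degrees together) with a squarefree characteristic polynomial, where `K`
is the coefficient field. -/
def SimpleCorrespondence (W : WeilCohomology.{u, v} ops) (X : 𝒱.Obj) : Prop :=
  SimpleIn (W.map (fst X X)) (W.push (snd X X)) (algClasses W (X.prod X) X.dim)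

/-- The `K`-algebra `H(X)` is generated by the algebraic classes and the subspaces `H^i(X)` with
`i` in `S`. -/
def GeneratedInDegrees (W : WeilCohomology.{u, v} ops) (X : 𝒱.Obj) (S : Set ℕ) : Prop :=
  GeneratedIn (W.gr X) (algClasses W X) S

/-- Some `K`-linear combination of algebraic correspondences of codimension `i` on `X × X` gives
an injective map from `H^(2n-i)(X)` to `H^i(X)`, where `n = dim X` (for `i < n` this follows from
the Lefschetz standard conjecture, for `i = n` the diagonal may be taken). -/
def AlgebraicDuality (W : WeilCohomology.{u, v} ops) (X : 𝒱.Obj) (i : ℕ) : Prop :=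
  InjectiveIn (W.gr X (2 * X.dim - i)) (W.map (fst X X)) (W.push (snd X X))
    (algClasses W (X.prod X) i)

/-- No nonzero vector `x` in `H^i(X)` is isotropic for all algebraic correspondences: for some
algebraic cycle `z` on `X × X` the number `Tr (z(x) x)` is not zero. -/
def NoIsotropicVector (W : WeilCohomology.{u, v} ops) (X : 𝒱.Obj) (i : ℕ) : Prop :=
  AnisotropicIn (W.tr X) (W.gr X i) (W.map (fst X X)) (W.push (snd X X))
    (algClasses W (X.prod X))

end Pool.Agent.W537
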