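import Pool.Agent.W537.AnD

/-!
# The semigroup of algebraic words of a family of varieties with frames
-/

open CategoryTheory AlgebraicGeometry

universe u v w

namespace Pool.Agent.W537

open Pool.Agent.H914 VarClass Obj WeilCohomology

section Abstract

variable {A : Type*} [AddCommGroup A] {Γ : Type*} [Group Γ] [Fintype Γ] {act : Γ → A →+ A}
  {S : AddSubmonoid A}

/-- The elements a positive multiple of whose norm lies in the semigroup. -/
def cone (act : Γ → A →+ A) (S : AddSubmonoid A) : AddSubmonoid A where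
  carrier := {x | ∃ c : ℕ, 1 ≤ c ∧ c • nrm act x ∈ S}
  zero_mem' := ⟨1, le_rfl, by rw [nrm_zero, smul_zero]; exact S.zero_mem⟩
  add_mem' := by
    rintro x y ⟨c, hc, h1⟩ ⟨d, hd, h3⟩
    refine ⟨c * d, Nat.one_le_iff_ne_zero.2 (by positivity), ?_⟩
    have e : (c * d) • nrm act (x + y) = d • (c • nrm act x) + c • (d • nrm act y) := by
      rw [nrm_add, smul_add, smul_smul, smul_smul, mul_comm d c]
    rw [e]
    exact S.add_mem (S.nsmul_mem h1 d) (S.nsmul_mem h3 c)

lemma mem_good_of_cone {x : A} (h : x ∈ cone act S) (h' : -x ∈ cone act S) : x ∈ good act S := by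
  obtain ⟨c, hc, h1⟩ := h
  obtain ⟨d, hd, h2⟩ := h'
  refine ⟨c * d, Nat.one_le_iff_ne_zero.2 (by positivity), ?_, ?_⟩
  · rw [mul_comm, ← smul_smul]
    exact S.nsmul_mem h1 d
  · rw [nrm_neg, smul_neg] at h2
    have e : -((c * d) • nrm act x) = c • (-(d • nrm act x)) := by
      rw [smul_neg, smul_smul]
    rw [e]
    exact S.nsmul_mem h2 c

lemma le_cone (hS : ∀ γ, ∀ x ∈ S, act γ x ∈ S) {x : A} (hx : x ∈ S) : x ∈ cone act S :=
  ⟨1, le_rfl, by rw [one_smul]; exact nrm_mem hS hx⟩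

lemma nrm_act (hmul : ∀ γ γ' x, act γ (act γ' x) = act (γ * γ') x) (γ : Γ) (x : A) :
    nrm act (act γ x) = nrm act x := by
  rw [nrm, nrm]
  simp only [hmul]
  exact Fintype.sum_equiv (Equiv.mulRight γ) _ _ (fun _ => rfl)

lemma cone_of_pair (hmul : ∀ γ γ' x, act γ (act γ' x) = act (γ * γ') x) {γ γ' : Γ} {x : A}
    (h : act γ x + act γ' x ∈ cone act S) : x ∈ cone act S := by
  obtain ⟨c, hc, h1⟩ := h
  rw [nrm_add, nrm_act hmul, nrm_act hmul, ← two_smul ℕ, smul_smul] at h1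
  exact ⟨c * 2, by omega, h1⟩

end Abstract

variable {k : Type u} [Field k] {𝒱 : VarClass k} {ops : CycleOps 𝒱}
  {W : WeilCohomology.{u, v} ops} {X Y Z R : 𝒱.Obj}

lemma map_diag (a b : W.H X) : W.map (diag X) (ext W a b) = a * b := by
  rw [ext, map_mul, ← W.map_comp, ← W.map_comp]
  have e1 : diag X ≫ fst X X = 𝟙 X := Obj.lift_fst _ _
  have e2 : diag X ≫ snd X X = 𝟙 X := Obj.lift_snd _ _
  rw [e1, e2, W.map_id, W.map_id]

lemma tr_diag (a b : W.H X) :
    W.tr (X.prod X) (W.push (diag X) 1 * ext W a b) = W.tr X (a * b) := by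
  rw [W.tr_push, one_mul, map_diag]

lemma tr_diag3 (a b c : W.H X) :
    W.tr (X.prod (X.prod X)) (W.push (Obj.lift (𝟙 X) (diag X)) 1 * ext W a (ext W b c)) =
      W.tr X (a * (b * c)) := by
  rw [W.tr_push, one_mul, ext, map_mul, ← W.map_comp, ← W.map_comp, Obj.lift_fst, Obj.lift_snd,
    W.map_id, map_diag]

lemma tr_corr (γ : W.H (X.prod Y)) (a : W.H X) (b : W.H Y) :
    W.tr Y (W.corr γ a * b) = W.tr (X.prod Y) (γ * ext W a b) := by
  rw [corr_apply, W.tr_push, ext, mul_assoc]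

variable {J : Type w} {P : J → 𝒱.Obj} {I : J → Type v} [∀ j, Fintype (I j)]
  {v w : ∀ j, I j → W.H (P j)} {E : ∀ j, I j → Module.End W.K (W.H (P j))}

/-- The class belonging to a letter. -/
noncomputable def uOf (v w : ∀ j, I j → W.H (P j)) (s : (Σ j, I j) × Bool) : W.H (P s.1.1) :=
  bif s.2 then v s.1.1 s.1.2 else w s.1.1 s.1.2

lemma Alg.single_of {u : ∀ s : (Σ j, I j) × Bool, W.H (P s.1.1)} {s : (Σ j, I j) × Bool}
    (h : u s ∈ algSpan W _) : Alg u R [s] :=
  (Pulls.ext_one (R := R) (u s)).mem h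

lemma Alg.pair_of {u : ∀ s : (Σ j, I j) × Bool, W.H (P s.1.1)} {s t : (Σ j, I j) × Bool}
    (h : ext W (u s) (u t) ∈ algSpan W _) : Alg u R [s, t] :=
  (Pulls.ext_right (u s) (Pulls.ext_one (R := R) (u t))).mem h

lemma Alg.triple_of {u : ∀ s : (Σ j, I j) × Bool, W.H (P s.1.1)} {s t r : (Σ j, I j) × Bool}
    (h : ext W (u s) (ext W (u t) (u r)) ∈ algSpan W _) : Alg u R [s, t, r] :=
  (Pulls.ext_right (u s) (Pulls.ext_right (u t) (Pulls.ext_one (R := R) (u r)))).mem h

section Frames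

variable (hf : ∀ j, IsFrame W (P j) (v j) (w j) (E j))
include hf

lemma homog_uOf : Homog (uOf v w) := by
  rintro ⟨⟨j, i⟩, b⟩
  cases b
  · exact (hf j).degw i
  · exact (hf j).degv i

lemma paired_uOf : Paired (uOf v w) := fun a => (hf a.1).pair a.2

/-- The element of the free abelian group belonging to a line. -/
noncomputable def ln {I : J → Type v} (j : J) (i : I j) : (Σ j, I j) →₀ ℤ :=
  Finsupp.single ⟨j, i⟩ 1

omit hf [∀ j, Fintype (I j)] in
lemma val_true (j : J) (i : I j) : val ((⟨j, i⟩, true) : (Σ j, I j) × Bool) = ln j i := by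
  simp [val, sg, ln]

omit hf [∀ j, Fintype (I j)] in
lemma val_false (j : J) (i : I j) : val ((⟨j, i⟩, false) : (Σ j, I j) × Bool) = -ln j i := by
  simp [val, sg, ln]

lemma pairsAlg_uOf : PairsAlg (uOf v w) R := by
  rintro ⟨j, i⟩
  obtain ⟨E', hE'⟩ := (hf j).dual
  apply Alg.pair_of
  have h1 := ((hf j).prod hE').mem (x := W.push (diag (P j)) 1) (push_algSpan _ one_algSpan)
    (i := (i, i)) (by
      rw [tr_diag]
      exact hE'.pair i)
  exact h1

lemma word1 {j : J} {z : W.H (P j)} (hz : z ∈ algSpan W (P j)) {i : I j}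
    (h : W.tr (P j) (z * w j i) ≠ 0) : ln j i ∈ algSG (uOf v w) R := by
  have h1 : Alg (uOf v w) R [(⟨j, i⟩, true)] := Alg.single_of ((hf j).mem hz h)
  have h2 := h1.mem
  rwa [net_cons, net_nil, add_zero, val_true] at h2

lemma word2 {j : J} {γ : W.H ((P j).prod (P j))} (hγ : γ ∈ algSpan W _) {i m : I j}
    (h : W.tr (P j) (W.corr γ (w j i) * w j m) ≠ 0) :
    ln j i + ln j m ∈ algSG (uOf v w) R := by
  have h1 : Alg (uOf v w) R [(⟨j, i⟩, true), (⟨j, m⟩, true)] := by
    apply Alg.pair_of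
    exact ((hf j).prod (hf j)).mem hγ (i := (i, m)) (by rw [← tr_corr]; exact h)
  have h2 := h1.mem
  rwa [net_cons, net_cons, net_nil, add_zero, val_true, val_true] at h2

lemma word2' {j : J} {γ : W.H ((P j).prod (P j))} (hγ : γ ∈ algSpan W _) {i m : I j}
    (h : W.tr (P j) (W.corr γ (v j i) * v j m) ≠ 0) :
    -ln j i + -ln j m ∈ algSG (uOf v w) R := by
  obtain ⟨E', hE'⟩ := (hf j).dual
  have h1 : Alg (uOf v w) R [(⟨j, i⟩, false), (⟨j, m⟩, false)] := by
    apply Alg.pair_of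
    exact (hE'.prod hE').mem hγ (i := (i, m)) (by rw [← tr_corr]; exact h)
  have h2 := h1.mem
  rwa [net_cons, net_cons, net_nil, add_zero, val_false, val_false] at h2

lemma word3 {j : J} {i i' m : I j} (h : W.tr (P j) (v j i * v j i' * w j m) ≠ 0) :
    -ln j i + (-ln j i' + ln j m) ∈ algSG (uOf v w) R := by
  obtain ⟨E', hE'⟩ := (hf j).dual
  have h1 : Alg (uOf v w) R [(⟨j, i⟩, false), (⟨j, i'⟩, false), (⟨j, m⟩, true)] := by
    apply Alg.triple_of
    exact (hE'.prod (hE'.prod (hf j))).mem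
      (x := W.push (Obj.lift (𝟙 (P j)) (diag (P j))) 1) (push_algSpan _ one_algSpan)
      (i := (i, (i', m))) (by
        rw [tr_diag3, ← mul_assoc]
        exact h)
  have h2 := h1.mem
  rwa [net_cons, net_cons, net_cons, net_nil, add_zero, val_false, val_false, val_true] at h2

omit hf [∀ j, Fintype (I j)] in
/-- The duality class between lines. -/
lemma corr_diag_one (a : W.H X) : W.corr (W.push (diag X) 1) a = a := by
  rw [corr_diag, one_mul]

end Frames

end Pool.Agent.W537
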