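import Pool.Agent.W537.AnE

/-!
# Conjecture D for products, from the semigroup of algebraic words
-/

open CategoryTheory AlgebraicGeometry

universe u v w

namespace Pool.Agent.W537

open Pool.Agent.H914 VarClass Obj WeilCohomology

variable {k : Type u} [Field k] {𝒱 : VarClass k} {ops : CycleOps 𝒱}
  {W : WeilCohomology.{u, v} ops} {X Y Z R : 𝒱.Obj}
  {J : Type w} {P : J → 𝒱.Obj} {I : J → Type v} [∀ j, Fintype (I j)]
  {v w : ∀ j, I j → W.H (P j)} {E : ∀ j, I j → Module.End W.K (W.H (P j))}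

section Cone

variable {Γ : Type*} [Group Γ] [Fintype Γ]
  {act : Γ → ((Σ j, I j) →₀ ℤ) →+ ((Σ j, I j) →₀ ℤ)}

/-- All lines are invertible up to norms and torsion. -/
theorem cone_all (hf : ∀ j, IsFrame W (P j) (v j) (w j) (E j))
    (hS : ∀ γ, ∀ x ∈ algSG (uOf v w) R, act γ x ∈ algSG (uOf v w) R) (D : J → Set ℕ)
    (hneg : ∀ j i, ∀ d ∈ D j, v j i ∈ W.gr (P j) d → -ln j i ∈ cone act (algSG (uOf v w) R))
    (hdual : ∀ j, ∀ d ∈ D j, ∃ γ ∈ algSpan W ((P j).prod (P j)),
      (∀ x ∈ W.gr (P j) (2 * (P j).dim - d), W.corr γ x ∈ W.gr (P j) d) ∧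
      ∀ x ∈ W.gr (P j) (2 * (P j).dim - d), W.corr γ x = 0 → x = 0)
    (hgen : ∀ j (U : Submodule W.K (W.H (P j))), (∀ x ∈ U, ∀ y ∈ U, x * y ∈ U) →
      algSpan W (P j) ≤ U → (∀ d ∈ D j, W.gr (P j) d ≤ U) → U = ⊤) (j : J) (i : I j) :
    ln j i ∈ cone act (algSG (uOf v w) R) ∧ -ln j i ∈ cone act (algSG (uOf v w) R) := by
  classical
  set S := algSG (uOf v w) R with hSdef
  have hpos : ∀ d ∈ D j, ∀ i, v j i ∈ W.gr (P j) d → ln j i ∈ cone act S := by
    intro d hd i hi
    obtain ⟨γ, hγ, hγd, hγ0⟩ := hdual j d hd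
    obtain ⟨E', hE'⟩ := (hf j).dual
    obtain ⟨e, he⟩ := (hf j).degw i
    have hde : d + e = 2 * (P j).dim := by
      by_contra h
      exact (hf j).pair i (W.tr_eq_zero (W.mul_mem hi he) h)
    have he' : w j i ∈ W.gr (P j) (2 * (P j).dim - d) := by
      rwa [show 2 * (P j).dim - d = e by omega]
    have h1 : W.corr γ (w j i) ≠ 0 := fun h0 => hE'.ne_zero i (hγ0 _ he' h0)
    obtain ⟨m, hm⟩ := (hf j).exists_ne h1
    obtain ⟨e', he''⟩ := (hf j).degw m
    have h2 : d + e' = 2 * (P j).dim := by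
      by_contra h
      exact hm (W.tr_eq_zero (W.mul_mem (hγd _ he') he'') h)
    obtain ⟨d', hd'⟩ := (hf j).degv m
    have h3 : d' + e' = 2 * (P j).dim := by
      by_contra h
      exact (hf j).pair m (W.tr_eq_zero (W.mul_mem hd' he'') h)
    have h4 : d' = d := by omega
    rw [h4] at hd'
    have h5 := le_cone hS (word2 hf (R := R) hγ hm)
    have h6 := hneg j m d hd hd'
    have h7 := (cone act S).add_mem h5 h6
    rwa [add_assoc, add_neg_cancel, add_zero] at h7
  -- the subspace spanned by the good lines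
  set U : Submodule W.K (W.H (P j)) :=
    Submodule.span W.K {y | ∃ i, ln j i ∈ cone act S ∧ v j i = y} with hU
  have hcomp : ∀ x : W.H (P j), (∀ i, W.tr (P j) (x * w j i) ≠ 0 → ln j i ∈ cone act S) →
      x ∈ U := by
    intro x hx
    refine Submodule.span_mono ?_ ((hf j).mem_span x)
    rintro y ⟨i, hi, rfl⟩
    exact ⟨i, hx i hi, rfl⟩
  have hUtop : U = ⊤ := by
    apply hgen j U
    · intro x hx y hy
      induction hx using Submodule.span_induction with
      | mem x hx =>
        obtain ⟨i, hi, rfl⟩ := hx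
        induction hy using Submodule.span_induction with
        | mem y hy =>
          obtain ⟨i', hi', rfl⟩ := hy
          apply hcomp
          intro m hm
          have h1 := le_cone hS (word3 hf (R := R) hm)
          have h2 := (cone act S).add_mem ((cone act S).add_mem hi hi') h1
          have e : ln j i + ln j i' + (-ln j i + (-ln j i' + ln j m)) = ln j m := by abel
          rwa [e] at h2
        | zero => rw [mul_zero]; exact Submodule.zero_mem _
        | add x y _ _ hx hy => rw [mul_add]; exact Submodule.add_mem _ hx hy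
        | smul a x _ hx => rw [mul_smul_comm]; exact Submodule.smul_mem _ _ hx
      | zero => rw [zero_mul]; exact Submodule.zero_mem _
      | add x y _ _ hx hy => rw [add_mul]; exact Submodule.add_mem _ hx hy
      | smul a x _ hx => rw [smul_mul_assoc]; exact Submodule.smul_mem _ _ hx
    · intro x hx
      apply hcomp
      intro i hi
      exact le_cone hS (word1 hf (R := R) hx hi)
    · intro d hd x hx
      apply hcomp
      intro i hi
      obtain ⟨e, he⟩ := (hf j).degw i
      obtain ⟨d', hd'⟩ := (hf j).degv i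
      have h1 : d + e = 2 * (P j).dim := by
        by_contra h
        exact hi (W.tr_eq_zero (W.mul_mem hx he) h)
      have h2 : d' + e = 2 * (P j).dim := by
        by_contra h
        exact (hf j).pair i (W.tr_eq_zero (W.mul_mem hd' he) h)
      have h4 : d' = d := by omega
      rw [h4] at hd'
      exact hpos d hd i hd'
  have hall : ∀ i, ln j i ∈ cone act S := by
    intro i
    by_contra hi
    have h1 : v j i ∈ U := hUtop ▸ Submodule.mem_top
    have h2 : ∀ x ∈ U, W.tr (P j) (x * w j i) = 0 := by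
      intro x hx
      induction hx using Submodule.span_induction with
      | mem x hx =>
        obtain ⟨m, hm, rfl⟩ := hx
        have him : i ≠ m := fun h => hi (h ▸ hm)
        exact (hf j).orth i m him
      | zero => rw [zero_mul, map_zero]
      | add x y _ _ hx hy => rw [add_mul, map_add, hx, hy, add_zero]
      | smul a x _ hx => rw [smul_mul_assoc, map_smul, hx, smul_zero]
    exact (hf j).pair i (h2 _ h1)
  refine ⟨hall i, ?_⟩
  obtain ⟨E', hE'⟩ := (hf j).dual
  obtain ⟨m, hm⟩ := hE'.exists_ne ((hf j).ne_zero i)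
  have h1 := le_cone hS (word2' hf (R := R) (γ := W.push (diag (P j)) 1)
    (push_algSpan _ one_algSpan) (i := i) (m := m) (by rw [corr_diag_one]; exact hm))
  have h2 := (cone act S).add_mem h1 (hall m)
  rwa [add_assoc, neg_add_cancel, add_zero] at h2

/-- All elements are good. -/
theorem good_all (hf : ∀ j, IsFrame W (P j) (v j) (w j) (E j))
    (hS : ∀ γ, ∀ x ∈ algSG (uOf v w) R, act γ x ∈ algSG (uOf v w) R) (D : J → Set ℕ)
    (hneg : ∀ j i, ∀ d ∈ D j, v j i ∈ W.gr (P j) d → -ln j i ∈ cone act (algSG (uOf v w) R))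
    (hdual : ∀ j, ∀ d ∈ D j, ∃ γ ∈ algSpan W ((P j).prod (P j)),
      (∀ x ∈ W.gr (P j) (2 * (P j).dim - d), W.corr γ x ∈ W.gr (P j) d) ∧
      ∀ x ∈ W.gr (P j) (2 * (P j).dim - d), W.corr γ x = 0 → x = 0)
    (hgen : ∀ j (U : Submodule W.K (W.H (P j))), (∀ x ∈ U, ∀ y ∈ U, x * y ∈ U) →
      algSpan W (P j) ≤ U → (∀ d ∈ D j, W.gr (P j) d ≤ U) → U = ⊤)
    (x : (Σ j, I j) →₀ ℤ) : x ∈ good act (algSG (uOf v w) R) := by
  classical
  induction x using Finsupp.induction_linear with
  | zero => exact (good act _).zero_mem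
  | add x y hx hy => exact (good act _).add_mem hx hy
  | single a n =>
    have h1 : ln a.1 a.2 ∈ good act (algSG (uOf v w) R) := by
      obtain ⟨h1, h2⟩ := cone_all hf hS D hneg hdual hgen a.1 a.2
      exact mem_good_of_cone h1 h2
    have e : (Finsupp.single a n : (Σ j, I j) →₀ ℤ) = n • ln a.1 a.2 := by
      rw [ln, Finsupp.smul_single, smul_eq_mul, mul_one]
    rw [e]
    exact (good act _).zsmul_mem h1 n

end Cone

omit [∀ j, Fintype (I j)] in
lemma net_false (l : List (Σ j, I j)) :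
    net (l.map fun a => (a, false)) = -net (l.map fun a => (a, true)) := by
  rw [← net_opp, List.map_map]
  rfl

/-- The frame of an iterated product. -/
theorem exists_frame (hf : ∀ j, IsFrame W (P j) (v j) (w j) (E j)) {Q : 𝒱.Obj}
    (hQ : IsProductOf P Q) :
    ∃ (I' : Type v) (_ : Fintype I') (v' w' : I' → W.H Q) (E' : I' → Module.End W.K (W.H Q))
      (lab : I' → List (Σ j, I j)), IsFrame W Q v' w' E' ∧ ∀ i (R : 𝒱.Obj) (r : W.H R),
        Pulls W (ext W (v' i) r) (vec (uOf v w) r ((lab i).map fun a => (a, true))) ∧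
        Pulls W (vec (uOf v w) r ((lab i).map fun a => (a, false))) (ext W (w' i) r) := by
  induction hQ with
  | base j =>
    exact ⟨I j, inferInstance, v j, w j, E j, fun i => [⟨j, i⟩], hf j,
      fun i R r => ⟨Pulls.refl _, Pulls.refl _⟩⟩
  | @prod Y Z _ _ ihY ihZ =>
    obtain ⟨I₁, _, v₁, w₁, E₁, lab₁, hf₁, h₁⟩ := ihY
    obtain ⟨I₂, _, v₂, w₂, E₂, lab₂, hf₂, h₂⟩ := ihZ
    refine ⟨I₁ × I₂, inferInstance, _, _, _, fun s => lab₁ s.1 ++ lab₂ s.2, hf₁.prod hf₂, ?_⟩
    intro s R r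
    rw [List.map_append, List.map_append]
    constructor
    · refine (Pulls.assoc _ _ _).trans ?_
      refine ((h₁ s.1 _ (ext W (v₂ s.2) r)).1).trans ?_
      exact (vec_pulls _ (h₂ s.2 R r).1 _).trans (vec_append _ _ _ _)
    · refine Pulls.trans ?_ (Pulls.assoc' _ _ _)
      refine Pulls.trans ?_ ((h₁ s.1 _ (ext W (w₂ s.2) r)).2)
      exact (vec_append' _ _ _ _).trans (vec_pulls _ (h₂ s.2 R r).2 _)

lemma exists_hom {Q : 𝒱.Obj} (hQ : IsProductOf P Q) : ∃ j, Nonempty (Q ⟶ P j) := by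
  induction hQ with
  | base j => exact ⟨j, ⟨𝟙 _⟩⟩
  | @prod Y Z _ _ ihY _ =>
    obtain ⟨j, ⟨f⟩⟩ := ihY
    exact ⟨j, ⟨fst Y Z ≫ f⟩⟩

/-- Numerically trivial cycles are orthogonal to the span of all algebraic classes. -/
lemma tr_zero_of_num {j : ℕ} {z : X.Cycles} (hz : X.IsCyc j z)
    (hnum : ∀ w, X.IsCyc (X.dim - j) w → X.V.degCycle (ops.mul z w) = 0) (hj : j ≤ X.dim)
    {y : W.H X} (hy : y ∈ algSpan W X) : W.tr X (W.cl X z * y) = 0 := by
  induction hy using Submodule.span_induction with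
  | mem y hy =>
    obtain ⟨p, w, hw, rfl⟩ := hy
    by_cases hp : j + p = X.dim
    · obtain rfl : p = X.dim - j := by omega
      have h1 := ops.mul_mem hz hw
      rw [hp] at h1
      rw [← W.cl_mul, W.tr_cl h1, hnum w hw, Rat.cast_zero]
    · exact W.tr_eq_zero (W.mul_mem (W.cl_mem hz) (W.cl_mem hw)) (by omega)
  | zero => rw [mul_zero, map_zero]
  | add u v _ _ hu hv => rw [mul_add, map_add, hu, hv, add_zero]
  | smul a u _ hu => rw [mul_smul_comm, map_smul, hu, smul_zero]

/-- **Conjecture D for iterated products.** -/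
theorem homEqNum_of_neg (hf : ∀ j, IsFrame W (P j) (v j) (w j) (E j))
    (hneg : ∀ R : 𝒱.Obj, ∀ x ∈ algSG (uOf v w) R, -x ∈ algSG (uOf v w) R) {Q : 𝒱.Obj}
    (hQ : IsProductOf P Q) : HomEqNum W Q := by
  obtain ⟨I', _, v', w', E', lab, hF, hlab⟩ := exists_frame hf hQ
  obtain ⟨j₀, ⟨π⟩⟩ := exists_hom hQ
  intro j hj z hz hnum
  by_contra hx
  obtain ⟨i, hi⟩ := hF.exists_ne hx
  have h1 : v' i ∈ algSpan W Q := hF.mem (cl_algSpan hz) hi
  have h2 : Alg (uOf v w) (P j₀) ((lab i).map fun a => (a, true)) :=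
    (hlab i (P j₀) 1).1.mem ((Pulls.ext_one (v' i)).mem h1)
  have h3 := hneg _ _ h2.mem
  rw [← net_false] at h3
  have h4 := Alg.of_mem (homog_uOf hf) (paired_uOf hf) (pairsAlg_uOf hf) h3
  have h5 : w' i ∈ algSpan W Q := (Pulls.of_ext_one (w' i) π).mem ((hlab i (P j₀) 1).2.mem h4)
  exact hi (tr_zero_of_num hz hnum hj h5)

end Pool.Agent.W537
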