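import Pool.Agent.W537.AnF

/-!
# Frames from operators with simple spectrum
-/

open CategoryTheory AlgebraicGeometry Polynomial

universe u v w

namespace Pool.Agent.W537

open Pool.Agent.H914 VarClass Obj WeilCohomology

section LinAlg

variable {L : Type*} [Field L] {V : Type*} [AddCommGroup V] [Module L V] [Module.Finite L V]

/-- A basis of eigenvectors. -/
lemma exists_eigenbasis (T : Module.End L V) {I : Type*} [Fintype I] (ev : I → L)
    (hinj : Function.Injective ev) (hroot : ∀ i, T.charpoly.IsRoot (ev i))
    (hcard : Fintype.card I = Module.finrank L V) :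
    ∃ b : Module.Basis I L V, ∀ i, T (b i) = ev i • b i := by
  classical
  have h1 : ∀ i, T.HasEigenvalue (ev i) := fun i =>
    (Module.End.hasEigenvalue_iff_isRoot_charpoly _ _).2 (hroot i)
  choose x hx using fun i => (h1 i).exists_hasEigenvector
  have hli : LinearIndependent L x := Module.End.eigenvectors_linearIndependent' T ev hinj x hx
  have hspan : ⊤ ≤ Submodule.span L (Set.range x) := by
    rw [top_le_iff]
    exact LinearIndependent.span_eq_top_of_card_eq_finrank' hli hcard
  refine ⟨Module.Basis.mk hli hspan, fun i => ?_⟩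
  rw [Module.Basis.mk_apply]
  exact (hx i).apply_eq_smul

omit [Module.Finite L V] in
/-- The projectors onto the lines are polynomials in the operator. -/
lemma coordOp_eq (T : Module.End L V) {I : Type*} [Fintype I] [DecidableEq I] (ev : I → L)
    (hinj : Function.Injective ev) (b : Module.Basis I L V) (hb : ∀ i, T (b i) = ev i • b i)
    (i : I) : (b.coord i).smulRight (b i) = aeval T (Lagrange.basis Finset.univ ev i) := by
  apply b.ext
  intro j
  rw [LinearMap.smulRight_apply, Module.End.aeval_apply_of_mem_apply_eq_smul (hb j),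
    Module.Basis.coord_apply, Module.Basis.repr_self]
  by_cases h : j = i
  · subst h
    rw [Finsupp.single_eq_same, Lagrange.eval_basis_self hinj.injOn (Finset.mem_univ _)]
  · rw [Finsupp.single_apply, if_neg h, zero_smul,
      Lagrange.eval_basis_of_ne (Ne.symm h) (Finset.mem_univ _), zero_smul]

omit [Module.Finite L V] in
/-- An eigenvector is a multiple of the basis vector. -/
lemma eq_smul_of_eigen (T : Module.End L V) {I : Type*} [Fintype I] (ev : I → L)
    (hinj : Function.Injective ev) (b : Module.Basis I L V) (hb : ∀ i, T (b i) = ev i • b i)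
    {i : I} {x : V} (hx : T x = ev i • x) : x = b.coord i x • b i := by
  classical
  have h1 : ∀ j, j ≠ i → b.coord j x = 0 := by
    intro j hj
    have h2 : b.coord j (T x) = ev j * b.coord j x := by
      conv_lhs => rw [← b.sum_repr x]
      rw [map_sum, map_sum, Finset.sum_eq_single j]
      · rw [map_smul, map_smul, hb, map_smul, Module.Basis.coord_apply, Module.Basis.coord_apply,
          Module.Basis.repr_self, Finsupp.single_eq_same, smul_eq_mul, smul_eq_mul]
        ring
      · intro m _ hm
        rw [map_smul, map_smul, hb, map_smul, Module.Basis.coord_apply, Module.Basis.repr_self,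
          Finsupp.single_apply, if_neg hm, smul_zero, smul_zero]
      · intro h; exact absurd (Finset.mem_univ _) h
    rw [hx, map_smul, smul_eq_mul] at h2
    have h3 : (ev i - ev j) * b.coord j x = 0 := by rw [sub_mul, h2, sub_self]
    rcases mul_eq_zero.1 h3 with h4 | h4
    · exact absurd (hinj (sub_eq_zero.1 h4)) (Ne.symm hj)
    · exact h4
  conv_lhs => rw [← b.sum_repr x]
  rw [Finset.sum_eq_single i]
  · rfl
  · intro j _ hj
    have := h1 j hj
    rw [Module.Basis.coord_apply] at this
    rw [this, zero_smul]
  · intro h; exact absurd (Finset.mem_univ _) h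

end LinAlg

variable {k : Type u} [Field k] {𝒱 : VarClass k} {ops : CycleOps 𝒱}
  {W : WeilCohomology.{u, v} ops} {X Y Z R : 𝒱.Obj}

lemma KOp.mul0 {φ ψ : Module.End W.K (W.H X)} (hφ : φ ∈ KOp W X X 0) (hψ : ψ ∈ KOp W X X 0) :
    φ * ψ ∈ KOp W X X 0 := KOp.cast (KOp.comp hφ hψ) (add_zero 0)

lemma KOp.aeval0 {φ : Module.End W.K (W.H X)} (hφ : φ ∈ KOp W X X 0) (p : W.K[X]) :
    aeval φ p ∈ KOp W X X 0 := by
  induction p using Polynomial.induction_on' with
  | add p q hp hq => rw [map_add]; exact Submodule.add_mem _ hp hq
  | monomial n a =>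
    rw [aeval_monomial, ← Algebra.smul_def]
    apply Submodule.smul_mem
    induction n with
    | zero => rw [pow_zero]; exact KOp.id X
    | succ n ih => rw [pow_succ]; exact KOp.mul0 ih hφ

/-- Every linear form is given by a vector. -/
lemma exists_rep (φ : W.H X →ₗ[W.K] W.K) : ∃ w, ∀ x, W.tr X (x * w) = φ x := by
  set T : W.H X →ₗ[W.K] Module.Dual W.K (W.H X) :=
    ((LinearMap.mul W.K (W.H X)).flip).compr₂ (W.tr X) with hT
  have hTa : ∀ w x, T w x = W.tr X (x * w) := fun w x => rfl
  have hinj : Function.Injective T := by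
    rw [← LinearMap.ker_eq_bot, LinearMap.ker_eq_bot']
    intro w hw
    apply nondeg_right
    intro x
    rw [← hTa, hw]; rfl
  have hsurj : Function.Surjective T :=
    (LinearMap.injective_iff_surjective_of_finrank_eq_finrank
      (Subspace.dual_finrank_eq (K := W.K) (V := W.H X)).symm).1 hinj
  obtain ⟨w, hw⟩ := hsurj φ
  exact ⟨w, fun x => by rw [← hTa, hw]⟩

/-- A vector orthogonal to all degrees but one is homogeneous. -/
lemma mem_gr_of_orth {w : W.H X} {d e : ℕ} (hde : d + e = 2 * X.dim)
    (h : ∀ j, j ≠ d → ∀ x ∈ W.gr X j, W.tr X (x * w) = 0) : w ∈ W.gr X e := by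
  classical
  have key : ∀ m, m ≠ e → proj (W.isInternal X) m w = 0 := by
    intro m hm
    apply nondeg_right
    intro c
    refine gr_induction (W.isInternal X)
      (p := fun c => W.tr X (c * proj (W.isInternal X) m w) = 0) ?_ ?_ c
    · intro j c hc
      by_cases hjm : j + m = 2 * X.dim
      · have h1 : W.tr X (c * proj (W.isInternal X) m w) = W.tr X (c * w) := by
          refine gr_induction (W.isInternal X)
            (p := fun w => W.tr X (c * proj (W.isInternal X) m w) = W.tr X (c * w)) ?_ ?_ w
          · intro l b hb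
            by_cases hl : l = m
            · subst hl; rw [proj_same _ hb]
            · rw [proj_ne _ hb hl, mul_zero, map_zero,
                W.tr_eq_zero (W.mul_mem hc hb) (by omega)]
          · intro b b' hb hb'
            rw [map_add, mul_add, mul_add, map_add, map_add, hb, hb']
        rw [h1, h j (by omega) c hc]
      · exact W.tr_eq_zero (W.mul_mem hc (proj_mem _ m w)) hjm
    · intro c c' hc hc'
      rw [add_mul, map_add, hc, hc', add_zero]
  have hsum := sum_proj (W.isInternal X) (N := 2 * X.dim + 1)
    (fun i hi => W.gr_eq_bot X i (by omega))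
  have h2 := congrArg (fun F => F w) hsum
  simp only [LinearMap.sum_apply, Module.End.one_apply] at h2
  rw [← h2]
  apply Submodule.sum_mem
  intro i _
  by_cases hi : i = e
  · subst hi; exact proj_mem _ _ _
  · rw [key i hi]; exact Submodule.zero_mem _

lemma KOp.hom0 {φ : Module.End W.K (W.H X)} (hφ : φ ∈ KOp W X X 0) {i : ℕ} {a : W.H X}
    (ha : a ∈ W.gr X i) : φ a ∈ W.gr X i := by
  have h1 := KOp.isHom hφ i a (by rw [grZ_natCast]; exact ha)
  rwa [mul_zero, add_zero, grZ_natCast] at h1

/-- Operators of degree zero commute with the projections to the degrees. -/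
lemma proj_comm {φ : Module.End W.K (W.H X)} (hφ : φ ∈ KOp W X X 0) (i : ℕ) (a : W.H X) :
    proj (W.isInternal X) i (φ a) = φ (proj (W.isInternal X) i a) := by
  refine gr_induction (W.isInternal X)
    (p := fun a => proj (W.isInternal X) i (φ a) = φ (proj (W.isInternal X) i a)) ?_ ?_ a
  · intro j a ha
    by_cases h : j = i
    · subst h
      rw [proj_same _ (KOp.hom0 hφ ha), proj_same _ ha]
    · rw [proj_ne _ (KOp.hom0 hφ ha) h, proj_ne _ ha h, map_zero]
  · intro a b ha hb
    rw [map_add, map_add, map_add, map_add, ha, hb]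

/-- **The frame of an operator with simple spectrum.** -/
theorem frame_of_eigenbasis {e : Module.End W.K (W.H X)} (he : e ∈ KOp W X X 0) {I : Type v}
    [Fintype I] [DecidableEq I] (ev : I → W.K) (hinj : Function.Injective ev)
    (b : Module.Basis I W.K (W.H X)) (hb : ∀ i, e (b i) = ev i • b i) :
    ∃ (w : I → W.H X) (E : I → Module.End W.K (W.H X)), IsFrame W X b w E ∧
      ∀ i x, W.tr X (x * w i) = b.coord i x := by
  classical
  choose w hw using fun i => exists_rep (W := W) (b.coord i)
  have hhom : ∀ i, ∃ d, b i ∈ W.gr X d := by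
    intro i
    obtain ⟨d, hd⟩ : ∃ d, proj (W.isInternal X) d (b i) ≠ 0 := by
      by_contra h0
      push Not at h0
      have hsum := sum_proj (W.isInternal X) (N := 2 * X.dim + 1)
        (fun i hi => W.gr_eq_bot X i (by omega))
      have h2 := congrArg (fun F => F (b i)) hsum
      simp only [LinearMap.sum_apply, h0, Finset.sum_const_zero, Module.End.one_apply] at h2
      exact b.ne_zero i h2.symm
    have h1 : e (proj (W.isInternal X) d (b i)) = ev i • proj (W.isInternal X) d (b i) := by
      rw [← proj_comm he, hb, map_smul]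
    have h2 := eq_smul_of_eigen e ev hinj b hb h1
    set c := b.coord i (proj (W.isInternal X) d (b i)) with hc
    have hc0 : c ≠ 0 := by
      intro h0
      rw [h0, zero_smul] at h2
      exact hd h2
    refine ⟨d, ?_⟩
    have h3 : b i = c⁻¹ • proj (W.isInternal X) d (b i) := by
      rw [h2, smul_smul, inv_mul_cancel₀ hc0, one_smul]
    rw [h3]
    exact Submodule.smul_mem _ _ (proj_mem _ _ _)
  refine ⟨w, fun i => (b.coord i).smulRight (b i), ⟨?_, fun i => ?_, fun i => ?_, hhom, fun i => ?_,
    fun i => ?_, fun i m him => ?_⟩, hw⟩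
  · apply LinearMap.ext
    intro x
    rw [LinearMap.sum_apply, Module.End.one_apply]
    conv_rhs => rw [← b.sum_repr x]
    rfl
  · rw [coordOp_eq e ev hinj b hb]
    exact KOp.aeval0 he _
  · refine ⟨1, one_ne_zero, fun x => ?_⟩
    rw [LinearMap.smulRight_apply, one_mul, hw]
  · obtain ⟨d, hd⟩ := hhom i
    have hdle : d ≤ 2 * X.dim := by
      by_contra h
      have := W.gr_eq_bot X d (by omega)
      rw [this] at hd
      exact b.ne_zero i ((Submodule.mem_bot _).1 hd)
    refine ⟨2 * X.dim - d, mem_gr_of_orth (d := d) (by omega) ?_⟩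
    intro j hj x hx
    rw [hw]
    have h1 : ((b.coord i).smulRight (b i) : Module.End W.K (W.H X)) x ∈ W.gr X j := by
      rw [coordOp_eq e ev hinj b hb]
      exact KOp.hom0 (KOp.aeval0 he _) hx
    rw [LinearMap.smulRight_apply] at h1
    by_contra h0
    have h2 : b i ∈ W.gr X j := by
      have := Submodule.smul_mem _ (b.coord i x)⁻¹ h1
      rwa [smul_smul, inv_mul_cancel₀ h0, one_smul] at this
    have h3 := proj_same (W.isInternal X) h2
    rw [proj_ne (W.isInternal X) hd (Ne.symm hj)] at h3
    exact b.ne_zero i h3.symm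
  · rw [hw, Module.Basis.coord_apply, Module.Basis.repr_self, Finsupp.single_eq_same]
    exact one_ne_zero
  · rw [hw, Module.Basis.coord_apply, Module.Basis.repr_self, Finsupp.single_apply,
      if_neg (Ne.symm him)]

end Pool.Agent.W537
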