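import Pool.Agent.W537.AnG

/-!
# Semilinear automorphisms permuting the lines
-/

open CategoryTheory AlgebraicGeometry

universe u v w

namespace Pool.Agent.W537

open Pool.Agent.H914 VarClass Obj WeilCohomology

variable {k : Type u} [Field k] {𝒱 : VarClass k} {ops : CycleOps 𝒱}
  {W : WeilCohomology.{u, v} ops} {X Y Z R : 𝒱.Obj}

lemma semi_algSpan (S : SemiLin W) {x : W.H X} (hx : x ∈ algSpan W X) :
    S.σ X x ∈ algSpan W X := by
  induction hx using Submodule.span_induction with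
  | mem x hx =>
    obtain ⟨p, z, hz, rfl⟩ := hx
    rw [S.cl]
    exact cl_algSpan hz
  | zero => rw [map_zero]; exact Submodule.zero_mem _
  | add x y _ _ hx hy => rw [map_add]; exact Submodule.add_mem _ hx hy
  | smul a x _ hx => rw [S.smul]; exact Submodule.smul_mem _ _ hx

lemma semi_one (S : SemiLin W) : S.σ X 1 = 1 := by
  rw [← W.cl_fund, S.cl]

lemma semi_ext (S : SemiLin W) (x : W.H X) (y : W.H Y) :
    S.σ (X.prod Y) (ext W x y) = ext W (S.σ X x) (S.σ Y y) := by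
  rw [ext, S.mul, S.map, S.map]
  rfl

lemma pulls_smul {y : W.H Y} {z : W.H Z} {c : W.K} (hc : c ≠ 0) (h : Pulls W y z) :
    Pulls W (c • y) z := by
  obtain ⟨f, d, hd, hf⟩ := h
  exact ⟨f, c * d, mul_ne_zero hc hd, by rw [map_smul, hf, smul_smul]⟩

lemma semi_step (S : SemiLin W) {x x' : W.H X} {c : W.K} (hc : c ≠ 0) (hx : S.σ X x = c • x')
    {y : W.H Y} {z : W.H Z} (h : Pulls W (S.σ Y y) z) :
    Pulls W (S.σ (X.prod Y) (ext W x y)) (ext W x' z) := by
  rw [semi_ext, hx, ext_smul_left]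
  exact pulls_smul hc (Pulls.ext_right _ h)

variable {J : Type w} {P : J → 𝒱.Obj} {I : J → Type v}

/-- The action on the letters. -/
def mv (g : ∀ j, I j → I j) (s : (Σ j, I j) × Bool) : (Σ j, I j) × Bool :=
  (⟨s.1.1, g s.1.1 s.1.2⟩, s.2)

variable {u : ∀ s : (Σ j, I j) × Bool, W.H (P s.1.1)}

lemma semi_vec (S : SemiLin W) (g : ∀ j, I j → I j)
    (hu : ∀ s, ∃ c : W.K, c ≠ 0 ∧ S.σ (P s.1.1) (u s) = c • u (mv g s)) (r : W.H R) (l) :
    Pulls W (S.σ _ (vec u r l)) (vec u (S.σ R r) (l.map (mv g))) := by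
  induction l with
  | nil => exact Pulls.refl _
  | cons s l ih =>
    obtain ⟨c, hc, h1⟩ := hu s
    exact semi_step S hc h1 ih

lemma Alg.map_semi (S : SemiLin W) (g : ∀ j, I j → I j)
    (hu : ∀ s, ∃ c : W.K, c ≠ 0 ∧ S.σ (P s.1.1) (u s) = c • u (mv g s)) {l}
    (hl : Alg u R l) : Alg u R (l.map (mv g)) := by
  have h1 := (semi_vec S g hu (1 : W.H R) l).mem (semi_algSpan S hl)
  rwa [semi_one] at h1

/-- The action on the free abelian group. -/
noncomputable def actG (g : ∀ j, I j → I j) : ((Σ j, I j) →₀ ℤ) →+ ((Σ j, I j) →₀ ℤ) :=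
  Finsupp.mapDomain.addMonoidHom (fun a => ⟨a.1, g a.1 a.2⟩)

lemma actG_single (g : ∀ j, I j → I j) (a : Σ j, I j) (n : ℤ) :
    actG g (Finsupp.single a n) = Finsupp.single ⟨a.1, g a.1 a.2⟩ n :=
  Finsupp.mapDomain_single

lemma actG_net (g : ∀ j, I j → I j) (l : List ((Σ j, I j) × Bool)) :
    actG g (net l) = net (l.map (mv g)) := by
  induction l with
  | nil => rw [List.map_nil, net_nil, map_zero]
  | cons s l ih =>
    rw [List.map_cons, net_cons, net_cons, map_add, ih]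
    congr 1
    rw [val, actG_single]
    rfl

variable [∀ j, Fintype (I j)]
  {v w : ∀ j, I j → W.H (P j)} {E : ∀ j, I j → Module.End W.K (W.H (P j))}

/-- **Conjecture D for products, generic form.** -/
theorem main_generic {Γ : Type*} [Group Γ] [Fintype Γ] [∀ j, MulAction Γ (I j)]
    (σ : Γ → SemiLin W) (hf : ∀ j, IsFrame W (P j) (v j) (w j) (E j))
    (hv : ∀ γ j i, ∃ c : W.K, c ≠ 0 ∧ (σ γ).σ (P j) (v j i) = c • v j (γ • i))
    (hw : ∀ γ j i, ∃ c : W.K, c ≠ 0 ∧ (σ γ).σ (P j) (w j i) = c • w j (γ • i))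
    (D : J → Set ℕ)
    (hiso : ∀ j, ∀ d ∈ D j, ∀ x ∈ W.gr (P j) d, x ≠ 0 →
      ∃ c : W.K, ∃ γ ∈ algSpan W ((P j).prod (P j)),
        W.tr (P j) (W.corr γ (∑ τ, (σ τ).σ (P j) (c • x)) * ∑ τ, (σ τ).σ (P j) (c • x)) ≠ 0)
    (hdual : ∀ j, ∀ d ∈ D j, ∃ γ ∈ algSpan W ((P j).prod (P j)),
      (∀ x ∈ W.gr (P j) (2 * (P j).dim - d), W.corr γ x ∈ W.gr (P j) d) ∧
      ∀ x ∈ W.gr (P j) (2 * (P j).dim - d), W.corr γ x = 0 → x = 0)
    (hgen : ∀ j (U : Submodule W.K (W.H (P j))), (∀ x ∈ U, ∀ y ∈ U, x * y ∈ U) →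
      algSpan W (P j) ≤ U → (∀ d ∈ D j, W.gr (P j) d ≤ U) → U = ⊤)
    {Q : 𝒱.Obj} (hQ : IsProductOf P Q) : HomEqNum W Q := by
  classical
  set act : Γ → ((Σ j, I j) →₀ ℤ) →+ ((Σ j, I j) →₀ ℤ) :=
    fun γ => actG (fun _ i => γ • i) with hact
  have hone : ∀ x, act 1 x = x := by
    intro x
    induction x using Finsupp.induction_linear with
    | zero => exact map_zero _
    | add x y hx hy => rw [map_add, hx, hy]
    | single a n =>
      rw [hact]
      simp only [actG_single, one_smul]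
  have hmul : ∀ γ γ' x, act γ (act γ' x) = act (γ * γ') x := by
    intro γ γ' x
    induction x using Finsupp.induction_linear with
    | zero => simp only [map_zero]
    | add x y hx hy => rw [map_add, map_add, map_add, hx, hy]
    | single a n =>
      rw [hact]
      simp only [actG_single, mul_smul]
  have hu : ∀ γ, ∀ s : (Σ j, I j) × Bool, ∃ c : W.K, c ≠ 0 ∧
      (σ γ).σ (P s.1.1) (uOf v w s) = c • uOf v w (mv (fun _ i => γ • i) s) := by
    rintro γ ⟨⟨j, i⟩, b⟩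
    cases b
    · exact hw γ j i
    · exact hv γ j i
  refine homEqNum_of_neg hf (fun R x hx => ?_) hQ
  have hS : ∀ γ, ∀ x ∈ algSG (uOf v w) R, act γ x ∈ algSG (uOf v w) R := by
    rintro γ _ ⟨l, rfl, hl⟩
    exact ⟨l.map (mv (fun _ i => γ • i)), (actG_net _ _).symm, Alg.map_semi (σ γ) _ (hu γ) hl⟩
  refine neg_mem_of_good hone hS hx (good_all hf hS D ?_ hdual hgen x)
  intro j i d hd hi
  obtain ⟨c, γ, hγ, hne⟩ := hiso j d hd (v j i) hi ((hf j).ne_zero i)
  have hex : ∃ τ τ' : Γ, W.tr (P j) (W.corr γ (v j (τ • i)) * v j (τ' • i)) ≠ 0 := by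
    by_contra h0
    push Not at h0
    apply hne
    have h1 : ∀ τ, ∃ a : W.K, (σ τ).σ (P j) (c • v j i) = a • v j (τ • i) := by
      intro τ
      obtain ⟨a, -, ha⟩ := hv τ j i
      exact ⟨(σ τ).τ c * a, by rw [(σ τ).smul, ha, smul_smul]⟩
    choose a ha using h1
    simp only [ha]
    rw [map_sum, Finset.sum_mul, map_sum]
    apply Finset.sum_eq_zero
    intro τ _
    rw [Finset.mul_sum, map_sum]
    apply Finset.sum_eq_zero
    intro τ' _
    rw [map_smul, smul_mul_assoc, mul_smul_comm, map_smul, map_smul, h0, smul_zero, smul_zero]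
  obtain ⟨τ, τ', hττ⟩ := hex
  have h1 := le_cone hS (word2' hf (R := R) hγ hττ)
  have h2 : ∀ γ : Γ, act γ (-ln j i) = -ln j (γ • i) := by
    intro γ
    rw [map_neg, hact]
    simp only [ln, actG_single]
  rw [← h2, ← h2] at h1
  exact cone_of_pair hmul h1

end Pool.Agent.W537
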