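import Pool.Agent.W537.AnH
import Pool.Agent.H914R2.WBase2

/-!
# Galois descent for the extension of the coefficients
-/

open TensorProduct Polynomial

universe u v w

namespace Pool.Agent.W537

open Pool.Agent.H914

section Descent

variable {K : Type*} [Field K] {A : Type*} [Ring A] [Algebra K A] {B : Type*} [Ring B]
  [Algebra K B] {L : Type*} [Field L] [Algebra K L]

lemma formBase_sig (τ : L ≃ₐ[K] L) (f : A →ₗ[K] K) (a : L ⊗[K] A) :
    formBase L f (sig τ a) = τ (formBase L f a) := by
  refine tmul_induction (P := fun a => formBase L f (sig τ a) = τ (formBase L f a)) ?_ ?_ ?_ a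
  · rw [map_zero, map_zero, map_zero]
  · intro x y hx hy; rw [map_add, map_add, hx, hy, map_add, map_add]
  · intro l a
    rw [sig_tmul, formBase_tmul, formBase_tmul, map_mul, AlgEquiv.commutes]

variable (K L) in
/-- The descent of the trace of the extension of the coefficients. -/
noncomputable def trA (A : Type*) [Ring A] [Algebra K A] : L ⊗[K] A →ₗ[K] A :=
  (TensorProduct.lid K A).toLinearMap ∘ₗ (Algebra.trace K L).rTensor A

lemma trA_tmul (l : L) (a : A) : trA K L A (l ⊗ₜ[K] a) = Algebra.trace K L l • a := by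
  rw [trA, LinearMap.comp_apply, LinearMap.rTensor_tmul]
  exact TensorProduct.lid_tmul _ _

lemma sum_sig [FiniteDimensional K L] [IsGalois K L] (a : L ⊗[K] A) :
    ∑ τ : L ≃ₐ[K] L, sig τ a = (1 : L) ⊗ₜ[K] trA K L A a := by
  refine tmul_induction (P := fun a => ∑ τ : L ≃ₐ[K] L, sig τ a = (1 : L) ⊗ₜ[K] trA K L A a)
    ?_ ?_ ?_ a
  · simp only [map_zero, Finset.sum_const_zero, TensorProduct.tmul_zero]
  · intro x y hx hy
    simp only [map_add, Finset.sum_add_distrib, hx, hy, TensorProduct.tmul_add]
  · intro l a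
    simp only [sig_tmul]
    rw [← TensorProduct.sum_tmul, ← trace_eq_sum_automorphisms, trA_tmul,
      Algebra.algebraMap_eq_smul_one, TensorProduct.smul_tmul]

/-- A nonzero vector has a multiple with nonzero trace. -/
lemma exists_trA_ne [FiniteDimensional K L] [IsGalois K L] {a : L ⊗[K] A} (ha : a ≠ 0) :
    ∃ c : L, trA K L A (c • a) ≠ 0 := by
  classical
  by_contra h0
  push Not at h0
  apply ha
  set b := Module.Free.chooseBasis L (L ⊗[K] A) with hb
  apply b.ext_elem
  intro i
  rw [map_zero, Finsupp.zero_apply]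
  -- the automorphisms are linearly independent
  have h1 : ∀ c : L, ∑ τ : L ≃ₐ[K] L, τ c • sig τ a = 0 := by
    intro c
    have := sum_sig (c • a)
    rw [h0, TensorProduct.tmul_zero] at this
    simpa only [sig_smul] using this
  have h2 : ∀ (c : L), ∑ τ : L ≃ₐ[K] L, τ c * b.repr (sig τ a) i = 0 := by
    intro c
    have := congrArg (fun x => b.repr x i) (h1 c)
    simpa only [map_sum, map_smul, Finsupp.coe_finsetSum, Finset.sum_apply, Finsupp.smul_apply,
      smul_eq_mul, map_zero, Finsupp.zero_apply] using this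
  have h3 := linearIndependent_monoidHom L L
  have h4 : LinearIndependent L (fun τ : L ≃ₐ[K] L => ((τ : L →* L) : L → L)) := by
    refine h3.comp (fun τ : L ≃ₐ[K] L => (τ : L →* L)) ?_
    intro τ τ' h
    apply AlgEquiv.ext
    intro x
    exact DFunLike.congr_fun h x
  rw [Fintype.linearIndependent_iff] at h4
  have h5 := h4 (fun τ => b.repr (sig τ a) i) (by
    funext c
    rw [Finset.sum_apply]
    have := h2 c
    simp only [Pi.smul_apply, smul_eq_mul, Pi.zero_apply]
    rw [← this]
    apply Finset.sum_congr rfl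
    intro τ _
    rw [mul_comm]
    rfl) 1
  have h6 : sig (1 : L ≃ₐ[K] L) a = a := by
    refine tmul_induction (P := fun a => sig (1 : L ≃ₐ[K] L) a = a) (map_zero _) ?_ ?_ a
    · intro x y hx hy; rw [map_add, hx, hy]
    · intro l a; rw [sig_tmul]; rfl
  rw [h6] at h5
  exact h5

lemma trA_mem {p : Submodule K A} {a : L ⊗[K] A} (ha : a ∈ p.baseChange L) :
    trA K L A a ∈ p := by
  refine base_induction (P := fun a => trA K L A a ∈ p) ?_ ?_ ?_ ha
  · rw [map_zero]; exact Submodule.zero_mem _
  · intro x y hx hy; rw [map_add]; exact Submodule.add_mem _ hx hy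
  · intro l a ha; rw [trA_tmul]; exact Submodule.smul_mem _ _ ha

/-- An injective map on a subspace stays injective after the extension. -/
lemma base_injective [Module.Finite K A] {p : Submodule K A} {F : A →ₗ[K] B}
    (hF : ∀ x ∈ p, F x = 0 → x = 0) {x : L ⊗[K] A} (hx : x ∈ p.baseChange L)
    (h0 : F.baseChange L x = 0) : x = 0 := by
  have h1 : LinearMap.ker (F.comp p.subtype) = ⊥ := by
    rw [LinearMap.ker_eq_bot']
    intro y hy
    exact Subtype.ext (hF y y.2 hy)
  obtain ⟨G, hG⟩ := LinearMap.exists_leftInverse_of_injective _ h1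
  have h2 : ∀ y ∈ p, (p.subtype ∘ₗ G) (F y) = y := by
    intro y hy
    have := congrArg (fun f => f ⟨y, hy⟩) hG
    simp only [LinearMap.comp_apply, LinearMap.id_apply] at this
    rw [LinearMap.comp_apply]
    exact congrArg Subtype.val this
  have h3 : (p.subtype ∘ₗ G).baseChange L (F.baseChange L x) = x := by
    refine base_induction (P := fun x => (p.subtype ∘ₗ G).baseChange L (F.baseChange L x) = x)
      ?_ ?_ ?_ hx
    · rw [map_zero, map_zero]
    · intro x y hx hy; rw [map_add, map_add, hx, hy]
    · intro l a ha; rw [LinearMap.baseChange_tmul, LinearMap.baseChange_tmul, h2 a ha]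
  rw [← h3, h0, map_zero]

end Descent

end Pool.Agent.W537
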