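import Pool.Agent.W537.AnI

/-!
# Extension of the coefficients: no isotropic vectors, duality, generation
-/

open CategoryTheory AlgebraicGeometry TensorProduct Polynomial

universe u v w

namespace Pool.Agent.W537

open Pool.Agent.H914 VarClass Obj WeilCohomology

variable {k : Type u} [Field k] {𝒱 : VarClass k} {ops : CycleOps 𝒱}
  (W : WeilCohomology.{u, v} ops) (L : Type v) [Field L] [Algebra W.K L] {X Y : 𝒱.Obj}

/-- The inclusion of the cohomology into its extension. -/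
noncomputable def inc (X : 𝒱.Obj) : W.H X →+ (baseW W L).H X :=
  (TensorProduct.mk W.K L (W.H X) 1).toAddMonoidHom

/-- The inclusion of the coefficients into their extension. -/
noncomputable def incK : W.K →+* (baseW W L).K := algebraMap W.K L

/-- The descent. -/
noncomputable def des (X : 𝒱.Obj) : (baseW W L).H X →+ W.H X :=
  (trA W.K L (W.H X)).toAddMonoidHom

/-- The extension of a map. -/
noncomputable def bc (F : W.H X →ₗ[W.K] W.H Y) :
    (baseW W L).H X →ₗ[(baseW W L).K] (baseW W L).H Y :=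
  (F.baseChange L : L ⊗[W.K] W.H X →ₗ[L] L ⊗[W.K] W.H Y)

variable {W L}

lemma inc_smul (a : W.K) (x : W.H X) : inc W L X (a • x) = incK W L a • inc W L X x := by
  have h1 : ((1 : L) ⊗ₜ[W.K] (a • x) : L ⊗[W.K] W.H X) =
      (algebraMap W.K L a) • ((1 : L) ⊗ₜ[W.K] x) := by
    rw [TensorProduct.tmul_smul, algebraMap_smul]
  exact h1

lemma inc_mul (x y : W.H X) : inc W L X (x * y) = inc W L X x * inc W L X y := by
  have h1 : ((1 : L) ⊗ₜ[W.K] (x * y) : L ⊗[W.K] W.H X) =
      ((1 : L) ⊗ₜ[W.K] x) * ((1 : L) ⊗ₜ[W.K] y) := by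
    rw [Algebra.TensorProduct.tmul_mul_tmul, one_mul]
  exact h1

lemma inc_one : inc W L X 1 = 1 := rfl

lemma tr_inc (x : W.H X) : (baseW W L).tr X (inc W L X x) = incK W L (W.tr X x) := by
  have h1 : formBase L (W.tr X) ((1 : L) ⊗ₜ[W.K] x) = algebraMap W.K L (W.tr X x) := by
    rw [formBase_tmul, one_mul]
  exact h1

lemma incK_ne {a : W.K} (h : a ≠ 0) : incK W L a ≠ 0 :=
  (map_ne_zero_iff _ (incK W L).injective).2 h

lemma bc_inc (F : W.H X →ₗ[W.K] W.H Y) (x : W.H X) :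
    bc W L F (inc W L X x) = inc W L Y (F x) := by
  have h1 : F.baseChange L ((1 : L) ⊗ₜ[W.K] x) = (1 : L) ⊗ₜ[W.K] (F x) :=
    LinearMap.baseChange_tmul _ _ _
  exact h1

lemma corr_inc (γ : W.H (X.prod Y)) :
    (baseW W L).corr (inc W L _ γ) = bc W L (W.corr γ) :=
  corrOp_base (L := L) (W.map (fst X Y)) (W.push (snd X Y)) γ

lemma sum_semi [FiniteDimensional W.K L] [IsGalois W.K L] (x : (baseW W L).H X) :
    ∑ τ : L ≃ₐ[W.K] L, (semiLin W L τ).σ X x = inc W L X (des W L X x) :=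
  sum_sig (K := W.K) (L := L) (A := W.H X) x

lemma exists_des_ne [FiniteDimensional W.K L] [IsGalois W.K L] {x : (baseW W L).H X}
    (hx : x ≠ 0) : ∃ c : (baseW W L).K, des W L X (c • x) ≠ 0 :=
  exists_trA_ne (K := W.K) (L := L) (A := W.H X) hx

lemma des_mem {i : ℕ} {x : (baseW W L).H X} (hx : x ∈ (baseW W L).gr X i) :
    des W L X x ∈ W.gr X i :=
  trA_mem (K := W.K) (L := L) (A := W.H X) hx

lemma inc_mem {i : ℕ} {x : W.H X} (hx : x ∈ W.gr X i) :
    inc W L X x ∈ (baseW W L).gr X i :=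
  Submodule.tmul_mem_baseChange_of_mem (A := L) 1 hx

lemma bc_mem {F : W.H X →ₗ[W.K] W.H Y} {i j : ℕ} (hF : ∀ x ∈ W.gr X i, F x ∈ W.gr Y j)
    {x : (baseW W L).H X} (hx : x ∈ (baseW W L).gr X i) :
    bc W L F x ∈ (baseW W L).gr Y j :=
  base_induction (L := L) (K := W.K) (p := W.gr X i)
    (P := fun x => F.baseChange L x ∈ (W.gr Y j).baseChange L)
    (by rw [map_zero]; exact Submodule.zero_mem _)
    (fun x y hx hy => by rw [map_add]; exact Submodule.add_mem _ hx hy)
    (fun l a ha => by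
      rw [LinearMap.baseChange_tmul]
      exact Submodule.tmul_mem_baseChange_of_mem _ (hF a ha)) hx

lemma bc_inj {F : W.H X →ₗ[W.K] W.H Y} {i : ℕ} (hF : ∀ x ∈ W.gr X i, F x = 0 → x = 0)
    {x : (baseW W L).H X} (hx : x ∈ (baseW W L).gr X i) (h0 : bc W L F x = 0) : x = 0 :=
  base_injective (K := W.K) (L := L) (A := W.H X) hF hx h0

/-- Every vector is a combination of vectors of the original cohomology. -/
lemma base_span (U : Submodule (baseW W L).K ((baseW W L).H X)) (h : ∀ x, inc W L X x ∈ U)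
    (x : (baseW W L).H X) : x ∈ U :=
  tmul_induction (L := L) (K := W.K) (A := W.H X) (P := fun x => x ∈ U)
    (Submodule.zero_mem U) (fun x y hx hy => Submodule.add_mem U hx hy)
    (fun l a => by
      have h1 : (l ⊗ₜ[W.K] a : L ⊗[W.K] W.H X) = l • ((1 : L) ⊗ₜ[W.K] a) := by
        rw [TensorProduct.smul_tmul', smul_eq_mul, mul_one]
      have h2 : l • ((1 : L) ⊗ₜ[W.K] a : L ⊗[W.K] W.H X) ∈ (U : Set ((baseW W L).H X)) :=
        Submodule.smul_mem U l (h a)
      rw [h1]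
      exact h2) x

lemma base_algSpan {γ : W.H X} (h : γ ∈ algSpan W X) :
    inc W L X γ ∈ algSpan (baseW W L) X := by
  induction h using Submodule.span_induction with
  | mem x hx =>
    obtain ⟨p, z, hz, rfl⟩ := hx
    exact Submodule.subset_span ⟨p, z, hz, rfl⟩
  | zero => rw [map_zero]; exact Submodule.zero_mem _
  | add x y _ _ hx hy => rw [map_add]; exact Submodule.add_mem _ hx hy
  | smul a x _ hx =>
    rw [inc_smul]
    exact Submodule.smul_mem _ _ hx

lemma exists_of_corrSpan {i : ℕ} {T : Module.End W.K (W.H X)}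
    (hT : T ∈ corrSpan (W.map (fst X X)) (W.push (snd X X)) (algClasses W (X.prod X) i)) :
    ∃ γ ∈ spanCycles W (X.prod X) i, W.corr γ = T := by
  induction hT using Submodule.span_induction with
  | mem T hT =>
    obtain ⟨c, ⟨z, hz, rfl⟩, rfl⟩ := hT
    exact ⟨_, Submodule.subset_span ⟨i, rfl, z, hz, rfl⟩, rfl⟩
  | zero => exact ⟨0, Submodule.zero_mem _, corr_zero _⟩
  | add x y _ _ hx hy =>
    obtain ⟨γ, hγ, rfl⟩ := hx
    obtain ⟨δ, hδ, rfl⟩ := hy
    exact ⟨γ + δ, Submodule.add_mem _ hγ hδ, corr_add _ _ _⟩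
  | smul a x _ hx =>
    obtain ⟨γ, hγ, rfl⟩ := hx
    exact ⟨a • γ, Submodule.smul_mem _ _ hγ, corr_smul _ _ _⟩

/-- No isotropic vectors, after the extension. -/
lemma base_iso [FiniteDimensional W.K L] [IsGalois W.K L] {i : ℕ} (h : NoIsotropicVector W X i)
    {x : (baseW W L).H X} (hx : x ∈ (baseW W L).gr X i) (hx0 : x ≠ 0) :
    ∃ c : (baseW W L).K, ∃ γ ∈ algSpan (baseW W L) (X.prod X),
      (baseW W L).tr X ((baseW W L).corr γ (∑ τ : L ≃ₐ[W.K] L, (semiLin W L τ).σ X (c • x)) *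
        ∑ τ : L ≃ₐ[W.K] L, (semiLin W L τ).σ X (c • x)) ≠ 0 := by
  obtain ⟨c, hc⟩ := exists_des_ne hx0
  have hmem : des W L X (c • x) ∈ W.gr X i := des_mem (Submodule.smul_mem _ c hx)
  obtain ⟨q, _, ⟨z, hz, rfl⟩, hne⟩ := h _ hmem hc
  refine ⟨c, _, base_algSpan (cl_algSpan (W := W) hz), ?_⟩
  rw [sum_semi, corr_inc, bc_inc, ← inc_mul, tr_inc]
  exact incK_ne hne

/-- The duality, after the extension. -/
lemma base_dual {i : ℕ} (hi : i ≤ 2 * X.dim) (h : AlgebraicDuality W X i) :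
    ∃ γ ∈ algSpan (baseW W L) (X.prod X),
      (∀ x ∈ (baseW W L).gr X (2 * X.dim - i), (baseW W L).corr γ x ∈ (baseW W L).gr X i) ∧
      ∀ x ∈ (baseW W L).gr X (2 * X.dim - i), (baseW W L).corr γ x = 0 → x = 0 := by
  obtain ⟨T, hT, hinj⟩ := h
  obtain ⟨γ, hγ, rfl⟩ := exists_of_corrSpan hT
  refine ⟨_, base_algSpan (spanCycles_le _ hγ), fun x hx => ?_, fun x hx h0 => ?_⟩
  · rw [corr_inc]
    apply bc_mem _ hx
    intro y hy
    have hK : W.corr γ ∈ KOp W X X ((i : ℤ) - X.dim) := by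
      rw [mem_KOp_iff]
      refine ⟨γ, ?_, rfl⟩
      have : (X.dim : ℤ) + ((i : ℤ) - X.dim) = i := by ring
      rw [this]
      exact hγ
    obtain ⟨m, hm⟩ : ∃ m, m = 2 * X.dim - i := ⟨_, rfl⟩
    rw [← hm] at hy
    have h1 := KOp.isHom hK m y (by rw [grZ_natCast]; exact hy)
    have h2 : ((m : ℤ) + 2 * ((i : ℤ) - X.dim)) = (i : ℕ) := by omega
    rwa [h2, grZ_natCast] at h1
  · rw [corr_inc] at h0
    exact bc_inj hinj hx h0

/-- The generation, after the extension. -/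
lemma base_gen {S : Set ℕ} (h : GeneratedInDegrees W X S)
    (U : Submodule (baseW W L).K ((baseW W L).H X)) (hmul : ∀ x ∈ U, ∀ y ∈ U, x * y ∈ U)
    (halg : algSpan (baseW W L) X ≤ U) (hgr : ∀ d ∈ S, (baseW W L).gr X d ≤ U) : U = ⊤ := by
  let B : Subalgebra W.K (W.H X) :=
    { carrier := {x | inc W L X x ∈ U}
      mul_mem' := fun {x y} hx hy => by
        rw [Set.mem_ofPred_eq, inc_mul]
        exact hmul _ hx _ hy
      add_mem' := fun {x y} hx hy => by
        rw [Set.mem_ofPred_eq, map_add]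
        exact Submodule.add_mem _ hx hy
      algebraMap_mem' := fun r => by
        rw [Set.mem_ofPred_eq, Algebra.algebraMap_eq_smul_one, inc_smul]
        exact Submodule.smul_mem _ _ (halg (base_algSpan one_algSpan)) }
  have hB : (⊤ : Subalgebra W.K (W.H X)) ≤ B := by
    rw [← h]
    apply Algebra.adjoin_le
    rintro x (⟨j, hj⟩ | ⟨i, hi, hx⟩)
    · obtain ⟨z, hz, rfl⟩ := hj
      exact halg (base_algSpan (cl_algSpan hz))
    · exact hgr i hi (inc_mem hx)
  rw [eq_top_iff]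
  intro x _
  exact base_span U (fun x => hB trivial) x

end Pool.Agent.W537
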