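import Pool.Agent.W537.AnJ

/-!
# The frames after the extension of the coefficients, and the theorem
-/

open CategoryTheory AlgebraicGeometry TensorProduct Polynomial

universe u v w

namespace Pool.Agent.W537

open Pool.Agent.H914 VarClass Obj WeilCohomology

variable {k : Type u} [Field k] {𝒱 : VarClass k} {ops : CycleOps 𝒱}
  {W : WeilCohomology.{u, v} ops} {L : Type v} [Field L] [Algebra W.K L] {X Y : 𝒱.Obj}

lemma charpoly_bc (F : Module.End W.K (W.H X)) :
    (bc W L F : Module.End (baseW W L).K ((baseW W L).H X)).charpoly =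
      F.charpoly.map (incK W L) :=
  LinearMap.charpoly_baseChange (R := W.K) (M := W.H X) F L

lemma finrank_base : Module.finrank (baseW W L).K ((baseW W L).H X) =
    Module.finrank W.K (W.H X) :=
  Module.finrank_baseChange (R := L) (S := W.K) (M' := W.H X)

lemma semi_bc (τ : L ≃ₐ[W.K] L) (F : Module.End W.K (W.H X)) (x : (baseW W L).H X) :
    (semiLin W L τ).σ X (bc W L F x) = bc W L F ((semiLin W L τ).σ X x) :=
  sig_baseChange τ F x

lemma semi_inv (τ : L ≃ₐ[W.K] L) (x : (baseW W L).H X) :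
    (semiLin W L τ).σ X ((semiLin W L τ⁻¹).σ X x) = x :=
  sig_symm τ x

lemma tr_semi (τ : L ≃ₐ[W.K] L) (x : (baseW W L).H X) :
    (baseW W L).tr X ((semiLin W L τ).σ X x) =
      (semiLin W L τ).τ ((baseW W L).tr X x) :=
  formBase_sig τ (W.tr X) x

lemma semi_zero_iff (S : SemiLin W) {c : W.K} : S.τ c = 0 ↔ c = 0 :=
  map_eq_zero_iff _ S.τ.injective

variable (L) in
/-- The frame. -/
theorem exists_frame_base [FiniteDimensional W.K L] [IsGalois W.K L] {γ : W.H (X.prod X)}
    (hγ : γ ∈ spanCycles W (X.prod X) X.dim) (hsq : Squarefree (W.corr γ).charpoly)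
    (hsplit : ((W.corr γ).charpoly.map (algebraMap W.K L)).Splits) :
    ∃ (v w : (W.corr γ).charpoly.rootSet L → (baseW W L).H X)
      (E : (W.corr γ).charpoly.rootSet L → Module.End (baseW W L).K ((baseW W L).H X)),
      IsFrame (baseW W L) X v w E ∧
      (∀ (τ : L ≃ₐ[W.K] L) i, ∃ c : (baseW W L).K, c ≠ 0 ∧
        (semiLin W L τ).σ X (v i) = c • v (τ • i)) ∧
      (∀ (τ : L ≃ₐ[W.K] L) i, ∃ c : (baseW W L).K, c ≠ 0 ∧
        (semiLin W L τ).σ X (w i) = c • w (τ • i)) := by
  classical
  set p := (W.corr γ).charpoly with hp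
  have hsep : p.Separable := PerfectField.separable_iff_squarefree.2 hsq
  have hcard : Fintype.card (p.rootSet L) = Module.finrank (baseW W L).K ((baseW W L).H X) := by
    rw [card_rootSet_eq_natDegree hsep hsplit, finrank_base, hp, LinearMap.charpoly_natDegree]
  set e : Module.End (baseW W L).K ((baseW W L).H X) := bc W L (W.corr γ) with he
  have heK : e ∈ KOp (baseW W L) X X 0 := by
    apply KOp.base
    rw [mem_KOp_iff]
    refine ⟨γ, ?_, rfl⟩
    rwa [add_zero]
  set ev : p.rootSet L → (baseW W L).K := fun i => (i : L) with hev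
  have hinj : Function.Injective ev := fun i j h => Subtype.ext h
  have hroot : ∀ i, e.charpoly.IsRoot (ev i) := by
    intro i
    rw [he, charpoly_bc, ← hp, IsRoot.def, Polynomial.eval_map]
    have h1 := (mem_rootSet.1 i.2).2
    exact h1
  obtain ⟨b, hb⟩ := exists_eigenbasis e ev hinj hroot hcard
  obtain ⟨w, E, hE, hw⟩ := frame_of_eigenbasis heK ev hinj b hb
  have hv : ∀ (τ : L ≃ₐ[W.K] L) i, ∃ c : (baseW W L).K, c ≠ 0 ∧
        (semiLin W L τ).σ X (b i) = c • b (τ • i) := by
    intro τ i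
    have h1 : e ((semiLin W L τ).σ X (b i)) = ev (τ • i) • (semiLin W L τ).σ X (b i) := by
      rw [he, ← semi_bc, ← he, hb, (semiLin W L τ).smul]
      rfl
    have h2 := eq_smul_of_eigen e ev hinj b hb h1
    refine ⟨_, ?_, h2⟩
    intro h0
    rw [h0, zero_smul] at h2
    exact b.ne_zero i ((semiLin W L τ).inj _ h2)
  refine ⟨b, w, E, hE, hv, ?_⟩
  intro τ i
  choose c hc0 hc using hv
  refine ⟨(semiLin W L τ).τ (c τ⁻¹ (τ • i)), ?_, ?_⟩
  · rw [Ne, semi_zero_iff]
    exact hc0 _ _
  rw [← sub_eq_zero]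
  apply nondeg_right
  intro x
  rw [mul_sub, map_sub, sub_eq_zero, mul_smul_comm, map_smul, smul_eq_mul, hw]
  -- both sides are linear in `x`
  have key : ((baseW W L).tr X).comp (LinearMap.mulRight _ ((semiLin W L τ).σ X (w i))) =
      ((semiLin W L τ).τ (c τ⁻¹ (τ • i))) • b.coord (τ • i) := by
    apply b.ext
    intro m
    rw [LinearMap.comp_apply, LinearMap.mulRight_apply, LinearMap.smul_apply, smul_eq_mul,
      Module.Basis.coord_apply, Module.Basis.repr_self]
    have h1 : b m * (semiLin W L τ).σ X (w i) =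
        (semiLin W L τ).σ X ((semiLin W L τ⁻¹).σ X (b m) * w i) := by
      rw [(semiLin W L τ).mul, semi_inv]
    rw [h1, tr_semi, hw, hc, map_smul, smul_eq_mul, Module.Basis.coord_apply,
      Module.Basis.repr_self]
    by_cases hm : m = τ • i
    · subst hm
      rw [inv_smul_smul, Finsupp.single_eq_same, Finsupp.single_eq_same, mul_one, mul_one]
    · have hm' : τ⁻¹ • m ≠ i := by
        intro h
        exact hm (by rw [← h, smul_inv_smul])
      rw [Finsupp.single_apply, if_neg hm', Finsupp.single_apply, if_neg hm, mul_zero, map_zero,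
        mul_zero]
  have h2 := congrArg (fun F => F x) key
  exact h2

omit W L in
lemma IsProductOf.mono {ι : Type w} {κ : Type*} {P : ι → 𝒱.Obj} {P' : κ → 𝒱.Obj} (f : κ → ι)
    (hf : ∀ j, P (f j) = P' j) {Q : 𝒱.Obj} (h : IsProductOf P' Q) : IsProductOf P Q := by
  induction h with
  | base i => rw [← hf]; exact IsProductOf.base _
  | prod _ _ hY hZ => exact IsProductOf.prod hY hZ

omit W L in
lemma IsProductOf.finite {ι : Type w} {P : ι → 𝒱.Obj} {Q : 𝒱.Obj} (h : IsProductOf P Q) :
    ∃ T : Finset ι, IsProductOf (fun j : T => P j) Q := by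
  classical
  induction h with
  | base i =>
    exact ⟨{i}, IsProductOf.base (P := fun j : ({i} : Finset ι) => P j)
      ⟨i, Finset.mem_singleton_self i⟩⟩
  | prod _ _ hY hZ =>
    obtain ⟨T, hT⟩ := hY
    obtain ⟨T', hT'⟩ := hZ
    exact ⟨T ∪ T', IsProductOf.prod
      (hT.mono (fun j : T => ⟨j.1, Finset.mem_union_left _ j.2⟩) (fun _ => rfl))
      (hT'.mono (fun j : T' => ⟨j.1, Finset.mem_union_right _ j.2⟩) (fun _ => rfl))⟩

/-- **The conjecture D for products, finite families.** -/
theorem main_finite {J : Type w} [Finite J] (P : J → 𝒱.Obj)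
    (hsimple : ∀ j, SimpleCorrespondence W (P j)) (S : J → Set ℕ)
    (hgen : ∀ j, GeneratedInDegrees W (P j) (S j))
    (hdual : ∀ j, ∀ i ∈ S j, AlgebraicDuality W (P j) i)
    (hiso : ∀ j, ∀ i ∈ S j, NoIsotropicVector W (P j) i) {Q : 𝒱.Obj}
    (hQ : IsProductOf P Q) : HomEqNum W Q := by
  classical
  have := Fintype.ofFinite J
  have hsimple' : ∀ j, ∃ γ ∈ spanCycles W ((P j).prod (P j)) (P j).dim,
      Squarefree (W.corr γ).charpoly := by
    intro j
    obtain ⟨T, hT, hsq⟩ := hsimple j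
    obtain ⟨γ, hγ, rfl⟩ := exists_of_corrSpan hT
    exact ⟨γ, hγ, hsq⟩
  choose γ hγ hsq using hsimple'
  set f : W.K[X] := ∏ j, (W.corr (γ j)).charpoly with hf
  have hf0 : f ≠ 0 := Finset.prod_ne_zero_iff.2 fun j _ => (LinearMap.charpoly_monic _).ne_zero
  let L := SplittingField f
  have hnormal : Normal W.K L := Normal.of_isSplittingField f
  have hgal : IsGalois W.K L := isGalois_iff.2 ⟨inferInstance, hnormal⟩
  have hsplit : ∀ j, ((W.corr (γ j)).charpoly.map (algebraMap W.K L)).Splits := by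
    intro j
    apply (SplittingField.splits f).of_dvd (Polynomial.map_ne_zero hf0)
    exact Polynomial.map_dvd _ (Finset.dvd_prod_of_mem _ (Finset.mem_univ j))
  apply homEqNum_base (L := L)
  choose v w E hE hv hw using fun j => exists_frame_base L (hγ j) (hsq j) (hsplit j)
  refine main_generic (W := baseW W L) (Γ := L ≃ₐ[W.K] L)
    (I := fun j => (W.corr (γ j)).charpoly.rootSet L) (fun τ => semiLin W L τ) hE
    (fun τ j i => hv j τ i) (fun τ j i => hw j τ i)
    (fun j => {d | d ∈ S j ∧ d ≤ 2 * (P j).dim}) ?_ ?_ ?_ hQ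
  · rintro j d ⟨hd, -⟩ x hx hx0
    exact base_iso (hiso j d hd) hx hx0
  · rintro j d ⟨hd, hd'⟩
    exact base_dual hd' (hdual j d hd)
  · intro j U hmul halg hgr
    apply base_gen (hgen j) U hmul halg
    intro d hd
    by_cases hd' : d ≤ 2 * (P j).dim
    · exact hgr d ⟨hd, hd'⟩
    · rw [(baseW W L).gr_eq_bot (P j) d (by omega)]
      exact bot_le

/-- **The conjecture D for everything dominated by a product.** -/
theorem main {ι : Type w} (P : ι → 𝒱.Obj)
    (hsimple : ∀ j, SimpleCorrespondence W (P j)) (S : ι → Set ℕ)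
    (hgen : ∀ j, GeneratedInDegrees W (P j) (S j))
    (hdual : ∀ j, ∀ i ∈ S j, AlgebraicDuality W (P j) i)
    (hiso : ∀ j, ∀ i ∈ S j, NoIsotropicVector W (P j) i) (Q : 𝒱.Obj)
    (hQ : IsProductOf P Q) (Y : 𝒱.Obj) (hY : Dominates W Q Y) : HomEqNum W Y := by
  obtain ⟨T, hT⟩ := hQ.finite
  exact (main_finite (fun j : T => P j) (fun j => hsimple j) (fun j => S j)
    (fun j => hgen j) (fun j => hdual j) (fun j => hiso j) hT).image hY

end Pool.Agent.W537
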