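import Pool.Agent.W519.N

open Set Topology Filter

namespace Pool.Agent.W519.N

theorem exists_seq_G {X : Type*} [TopologicalSpace X] {ι : Type*} {C : Set X} {v : ι → Set X}
    (hv : LocallyFinite v) (hJ : {i | (v i ∩ C).Nonempty}.Infinite) :
    ∃ (q : ℕ → X) (i : ℕ → ι), Function.Injective q ∧ Function.Injective i ∧
      ∀ n, q n ∈ v (i n) ∧ q n ∈ C := by
  classical
  set J : Set ι := {i | (v i ∩ C).Nonempty} with hJdef
  have hc : ∀ i : ι, ∃ x : X, i ∈ J → x ∈ v i ∩ C := by
    intro i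
    by_cases h : i ∈ J
    · obtain ⟨x, hx⟩ := h
      exact ⟨x, fun _ => hx⟩
    · obtain ⟨j, hj⟩ := hJ.nonempty
      obtain ⟨x, hx⟩ := hj
      exact ⟨x, fun h' => absurd h' h⟩
  choose c hc using hc
  have hinf : (c '' J).Infinite := by
    intro hfin
    apply hJ
    refine (hfin.biUnion (fun x _ => hv.point_finite x)).subset ?_
    intro i hi
    simp only [mem_iUnion]
    exact ⟨c i, mem_image_of_mem c hi, (hc i hi).1⟩
  let e := hinf.natEmbedding
  have he : ∀ n, ∃ i, i ∈ J ∧ c i = (e n : X) := fun n => (e n).2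
  choose i hiJ hi using he
  refine ⟨fun n => (e n : X), i, ?_, ?_, ?_⟩
  · intro a b hab
    exact e.injective (Subtype.ext hab)
  · intro a b hab
    apply e.injective
    apply Subtype.ext
    rw [← hi a, ← hi b, hab]
  · intro n
    have := hc (i n) (hiJ n)
    rw [hi n] at this
    exact this

theorem exists_discrete_expansion {X : Type*} [TopologicalSpace X] [T2Space X]
    [ParacompactSpace X] {C : Set X} (hC : IsClosed C) (hnc : ¬ IsCompact C) :
    ∃ (q : ℕ → X) (W : ℕ → Set X), (∀ n, IsOpen (W n)) ∧ (∀ n, q n ∈ W n) ∧ (∀ n, q n ∈ C) ∧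
      LocallyFinite W ∧ Pairwise (Function.onFun Disjoint W) := by
  classical
  -- an open cover without finite subcover
  have h1 : ∃ (ι : Type _) (U : ι → Set X), (∀ i, IsOpen (U i)) ∧ C ⊆ ⋃ i, U i ∧
      ∀ t : Finset ι, ¬ C ⊆ ⋃ i ∈ t, U i := by
    by_contra hcon
    push Not at hcon
    apply hnc
    apply isCompact_of_finite_subcover
    intro ι U hU hCU
    exact hcon ι U hU hCU
  obtain ⟨ι, U, hUo, hCU, hfin⟩ := h1
  obtain ⟨v, hvo, hCv, hvf, hvU⟩ := precise_refinement_set hC U hUo hCU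
  have hJ : {i | (v i ∩ C).Nonempty}.Infinite := by
    intro hJfin
    apply hfin hJfin.toFinset
    intro x hx
    obtain ⟨i, hi⟩ := mem_iUnion.1 (hCv hx)
    simp only [mem_iUnion, Set.Finite.mem_toFinset, mem_ofPred_eq]
    exact ⟨i, ⟨x, hi, hx⟩, hvU i hi⟩
  obtain ⟨q, i, hq, hi, hqv⟩ := exists_seq_G hvf hJ
  have hv' : LocallyFinite (fun n => v (i n)) := hvf.comp_injective hi
  -- the other points form a closed set
  have hcl : ∀ n, IsClosed (⋃ m : {m : ℕ // m ≠ n}, ({q m} : Set X)) := by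
    intro n
    apply LocallyFinite.isClosed_iUnion
    · have : LocallyFinite (fun m : {m : ℕ // m ≠ n} => v (i m)) :=
        hv'.comp_injective Subtype.val_injective
      exact this.subset (fun m => by
        rw [singleton_subset_iff]
        exact (hqv m).1)
    · intro m
      exact isClosed_singleton
  have hT : ∀ n, ∃ T : Set X, T ∈ 𝓝 (q n) ∧ IsClosed T ∧ ∀ m, m ≠ n → q m ∉ T := by
    intro n
    have hmem : (⋃ m : {m : ℕ // m ≠ n}, ({q m} : Set X))ᶜ ∈ 𝓝 (q n) := by
      apply (hcl n).isOpen_compl.mem_nhds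
      simp only [mem_compl_iff, mem_iUnion, mem_singleton_iff, not_exists]
      rintro ⟨m, hm⟩ h
      exact hm (hq h).symm
    obtain ⟨T, hT, hTc, hTs⟩ := exists_mem_nhds_isClosed_subset hmem
    refine ⟨T, hT, hTc, fun m hm hmT => ?_⟩
    have := hTs hmT
    simp only [mem_compl_iff, mem_iUnion, mem_singleton_iff, not_exists] at this
    exact this ⟨m, hm⟩ rfl
  choose T hTn hTc hTq using hT
  refine ⟨q, fun n => (v (i n) ∩ interior (T n)) ∩ ⋂ m ∈ Finset.range n, (T m)ᶜ, ?_, ?_, ?_, ?_, ?_⟩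
  · intro n
    refine ((hvo _).inter isOpen_interior).inter ?_
    exact isOpen_biInter_finset (fun m _ => (hTc m).isOpen_compl)
  · intro n
    refine ⟨⟨(hqv n).1, mem_interior_iff_mem_nhds.2 (hTn n)⟩, ?_⟩
    simp only [mem_iInter, mem_compl_iff, Finset.mem_range]
    intro m hm
    exact hTq m n (by omega)
  · intro n
    exact (hqv n).2
  · exact hv'.subset (fun n x hx => hx.1.1)
  · have key : ∀ m n, m < n → Disjoint
        ((v (i m) ∩ interior (T m)) ∩ ⋂ k ∈ Finset.range m, (T k)ᶜ)
        ((v (i n) ∩ interior (T n)) ∩ ⋂ k ∈ Finset.range n, (T k)ᶜ) := by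
      intro m n hmn
      rw [Set.disjoint_left]
      intro x hx hx'
      have h2 := hx'.2
      simp only [mem_iInter, mem_compl_iff, Finset.mem_range] at h2
      exact h2 m hmn (interior_subset hx.1.2)
    intro m n hmn
    rcases lt_or_gt_of_ne hmn with h | h
    · exact key m n h
    · exact (key n m h).symm

end Pool.Agent.W519.N
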