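import Pool.Agent.W537.RangeA

/-!
# Consequences of the algebraicity of a power of the lowering operator
-/

open Polynomial Finset

namespace Pool.Agent.W537

open Pool.Agent.H914 Pool.Agent.H447

variable {K : Type*} [Field K] [CharZero K] {V : Type*} [AddCommGroup V] [Module K V]
variable {gr : ℕ → Submodule K V} {n : ℕ} {L : Module.End K V}

/-- The scalars of the powers of the lowering operator. -/
def kap (N j m : ℕ) : ℕ := ∏ l ∈ range m, (j - l) * (N - (j - l) + 1)

lemma kap_ne {N j m : ℕ} (hm : m ≤ j) : kap N j m ≠ 0 := by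
  rw [kap, Finset.prod_ne_zero_iff]
  intro l hl
  rw [Finset.mem_range] at hl
  exact Nat.mul_ne_zero (by omega) (by omega)

/-- The explicit action of the lowering operator. -/
def LowerAct (gr : ℕ → Submodule K V) (n : ℕ) (L f : Module.End K V) : Prop :=
  ∀ i ≤ n, ∀ a ∈ gr i, (L ^ (n - i + 1)) a = 0 → ∀ j ≤ n - i,
    f ((L ^ j) a) = ((j : K) * (((n - i : ℕ) : K) - j + 1)) • (L ^ (j - 1)) a

omit [CharZero K] in
lemma LowerAct.pow {f : Module.End K V} (hf : LowerAct gr n L f) {i : ℕ} (hi : i ≤ n) {a : V}
    (ha : a ∈ gr i) (hp : (L ^ (n - i + 1)) a = 0) {j : ℕ} (hj : j ≤ n - i) {m : ℕ}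
    (hm : m ≤ j) : (f ^ m) ((L ^ j) a) = (kap (n - i) j m : K) • (L ^ (j - m)) a := by
  induction m with
  | zero => simp [kap]
  | succ m ih =>
    rw [pow_succ', Module.End.mul_apply, ih (by omega), map_smul,
      hf i hi a ha hp (j - m) (by omega), smul_smul, show j - m - 1 = j - (m + 1) by omega]
    congr 1
    rw [kap, kap, Finset.prod_range_succ]
    push_cast
    have e1 : ((n - i - (j - m) : ℕ) : K) = ((n - i : ℕ) : K) - ((j - m : ℕ) : K) := by
      rw [Nat.cast_sub (by omega)]
    rw [e1]

/-- A polynomial inverse of an operator acting on the strings by nonzero rational scalars. -/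
lemma exists_inv_string (h : DirectSum.IsInternal gr) (hL : IsHom gr 2 L)
    (hbd : ∀ i, 2 * n + 1 ≤ i → gr i = ⊥) (hHL : HardLef gr n L) {g : Module.End K V} {N : ℕ}
    (κ : ℕ → ℕ → ℚ)
    (hg : ∀ i ≤ n, ∀ a ∈ gr i, (L ^ (n - i + 1)) a = 0 → ∀ j ≤ n - i, i + 2 * j = N →
      g ((L ^ j) a) = (κ i j : K) • (L ^ j) a)
    (hκ : ∀ i ≤ n, ∀ j ≤ n - i, i + 2 * j = N → κ i j ≠ 0) :
    ∃ p : ℚ[X], ∀ x ∈ gr N, (ev g p * g) x = x := by
  classical
  set S : Finset (ℕ × ℕ) := (range (n + 1) ×ˢ range (n + 1)).filter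
    (fun x => x.2 ≤ n - x.1 ∧ x.1 + 2 * x.2 = N) with hS
  have hmem : ∀ x ∈ S, κ x.1 x.2 ≠ 0 := by
    intro x hx
    rw [hS, Finset.mem_filter, Finset.mem_product, Finset.mem_range, Finset.mem_range] at hx
    exact hκ _ (by omega) _ hx.2.1 hx.2.2
  set q : ℚ[X] := ∏ x ∈ S, (1 - C (κ x.1 x.2)⁻¹ * X) with hq
  have h0 : (1 - q).coeff 0 = 0 := by
    rw [coeff_sub, coeff_one_zero, coeff_zero_eq_eval_zero, hq, eval_prod]
    simp
  obtain ⟨p, hp⟩ := X_dvd_iff.2 h0
  refine ⟨p, fun x hx => ?_⟩
  have key : ∀ y, (ev g p * g) (proj h N y) = proj h N y := by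
    intro y
    refine lef_induction' h hL hbd hHL
      (p := fun y => (ev g p * g) (proj h N y) = proj h N y) ?_ ?_ y
    · intro a b ha hb
      rw [map_add, map_add, ha, hb]
    · intro i hi a ha hpr j
      by_cases hj : j ≤ n - i
      · by_cases hN : i + 2 * j = N
        · have hmem' := pow_L_mem hL ha j
          rw [hN] at hmem'
          rw [proj_same h hmem', Module.End.mul_apply, hg i hi a ha hpr j hj hN, map_smul,
            ev_eigen (hg i hi a ha hpr j hj hN), smul_smul]
          have h1 : (κ i j : K) * (p.map (algebraMap ℚ K)).eval (κ i j : K) = 1 := by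
            have h2 : κ i j * p.eval (κ i j) = 1 := by
              have h3 := congrArg (Polynomial.eval (κ i j)) hp
              rw [eval_sub, eval_one, eval_mul, eval_X, hq, eval_prod,
                Finset.prod_eq_zero (i := (i, j))] at h3
              · rw [← h3, sub_zero]
              · rw [hS, Finset.mem_filter, Finset.mem_product, Finset.mem_range, Finset.mem_range]
                exact ⟨⟨by omega, by omega⟩, hj, hN⟩
              · rw [eval_sub, eval_one, eval_mul, eval_C, eval_X,
                  inv_mul_cancel₀ (hκ i hi j hj hN), sub_self]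
            have h4 : (p.map (algebraMap ℚ K)).eval (κ i j : K) = ((p.eval (κ i j) : ℚ) : K) := by
              rw [show ((κ i j : ℚ) : K) = algebraMap ℚ K (κ i j) from rfl,
                eval_map_algebraMap, aeval_algebraMap_apply]
              rfl
            rw [h4, ← Rat.cast_mul, h2, Rat.cast_one]
          rw [h1, one_smul]
        · rw [proj_ne h (pow_L_mem hL ha j) hN, map_zero]
      · rw [L_pow_gt hpr (by omega), map_zero, map_zero]
  have := key x
  rwa [proj_same h hx] at this

variable {R : ℤ → Module.End K V → Prop}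

/-- **The inverses of the powers of `L` in the outer range.** -/
theorem exists_theta_range (hR : OpAlg gr R) (h : DirectSum.IsInternal gr)
    (hbd : ∀ i, 2 * n + 1 ≤ i → gr i = ⊥) (hL : R 1 L) (hHL : HardLef gr n L)
    {f : Module.End K V} (hf : LowerAct gr n L f) {r : ℕ} (hr : 1 ≤ r) (hfr : R (-r) (f ^ r))
    {c : ℕ} (hrc : r ≤ c) (hcn : c ≤ n) :
    ∃ θ, R (-c) θ ∧ ∀ a ∈ gr (n - c), θ ((L ^ c) a) = a := by
  have hLh : IsHom gr 2 L := by simpa using hR.hom hL
  obtain ⟨k, hk1, hk2⟩ : ∃ k, k * r < c ∧ c ≤ (k + 1) * r := by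
    refine ⟨(c - 1) / r, ?_, ?_⟩
    · have := Nat.div_mul_le_self (c - 1) r
      omega
    · have := Nat.lt_mul_div_succ (c - 1) (by omega : 0 < r)
      rw [mul_comm ((c - 1) / r + 1) r]
      omega
  set v : Module.End K V := (f ^ r) ^ k * (L ^ ((k + 1) * r - c) * f ^ r) with hv
  have hvR : R (-c) v := by
    refine hR.cast (hR.mul (hR.pow hfr k) (hR.mul (hR.pow hL _) hfr)) ?_
    rw [Nat.cast_sub hk2]; push_cast; ring
  set g : Module.End K V := v * L ^ c with hg
  have hgR : R 0 g := hR.cast (hR.mul hvR (hR.pow hL c)) (by ring)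
  obtain ⟨p, hp⟩ := exists_inv_string h hLh hbd hHL (g := g) (N := n - c)
    (fun i j => ((kap (n - i) (c + j) r * kap (n - i) (k * r + j) (r * k) : ℕ) : ℚ)) (by
      intro i hi a ha hpr j hj hN
      rw [hg, hv, Module.End.mul_apply, Module.End.mul_apply, Module.End.mul_apply,
        ← Module.End.mul_apply (L ^ c), ← pow_add, hf.pow hi ha hpr (by omega) (by omega),
        map_smul, ← Module.End.mul_apply (L ^ _), ← pow_add, map_smul,
        show (k + 1) * r - c + (c + j - r) = k * r + j by
          rw [Nat.add_mul, one_mul] at hk2 ⊢; omega, ← pow_mul,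
        hf.pow hi ha hpr (by omega) (by rw [mul_comm]; omega), smul_smul,
        show k * r + j - r * k = j by rw [mul_comm]; omega]
      push_cast; rfl) (by
      intro i hi j hj hN
      exact_mod_cast Nat.mul_ne_zero (kap_ne (by omega)) (kap_ne (by rw [mul_comm]; omega)))
  refine ⟨ev g p * v, hR.cast (hR.mul (hR.ev hgR p) hvR) (by ring), fun a ha => ?_⟩
  have := hp a ha
  rw [hg, ← mul_assoc, Module.End.mul_apply] at this
  exact this

/-- If there are operators in the algebra inverting the powers of `L` in the outer range, then the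
projectors in this range are in the algebra. -/
lemma proj_mem_of_theta_range (hR : OpAlg gr R) (h : DirectSum.IsInternal gr)
    (hbd : ∀ i, 2 * n + 1 ≤ i → gr i = ⊥)
    (hL : R 1 L) (hHL : HardLef gr n L) {r : ℕ} (θ : ℕ → Module.End K V)
    (hθR : ∀ c, r ≤ c → c ≤ n → R (-c) (θ c))
    (hθ : ∀ c, r ≤ c → c ≤ n → ∀ a ∈ gr (n - c), θ c ((L ^ c) a) = a) :
    ∀ m ≤ n, ∀ c, r ≤ c → c + m = n → R 0 (proj h (n - c)) ∧ R 0 (proj h (n + c)) := by
  have hLh : IsHom gr 2 L := by simpa using hR.hom hL
  intro m
  induction m using Nat.strong_induction_on with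
  | _ m ih =>
    intro hm c hrc hc
    -- the truncated inverse
    set A : Module.End K V := 1 - ∑ l ∈ range m, proj h l with hA
    set B : Module.End K V := 1 - ∑ l ∈ range m, proj h (2 * n - l) with hB
    have hAR : R 0 A := by
      apply hR.sub hR.one
      apply hR.sum
      intro l hl
      rw [Finset.mem_range] at hl
      have := (ih l hl (by omega) (n - l) (by omega) (by omega)).1
      rwa [show n - (n - l) = l by omega] at this
    have hBR : R 0 B := by
      apply hR.sub hR.one
      apply hR.sum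
      intro l hl
      rw [Finset.mem_range] at hl
      have := (ih l hl (by omega) (n - l) (by omega) (by omega)).2
      rwa [show n + (n - l) = 2 * n - l by omega] at this
    set T := A * θ c * B with hT
    have hTR : R (-c) T := hR.cast (hR.mul (hR.mul hAR (hθR c hrc (by omega))) hBR) (by ring)
    have hAlow : ∀ l < m, ∀ a ∈ gr l, A a = 0 := by
      intro l hl a ha
      rw [hA, LinearMap.sub_apply, Module.End.one_apply, LinearMap.sum_apply,
        Finset.sum_eq_single l, proj_same h ha, sub_self]
      · intro l' _ hl'; exact proj_ne h ha (Ne.symm hl')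
      · intro h'; exact absurd (Finset.mem_range.2 hl) h'
    have hAhigh : ∀ l, m ≤ l → ∀ a ∈ gr l, A a = a := by
      intro l hl a ha
      rw [hA, LinearMap.sub_apply, Module.End.one_apply, LinearMap.sum_apply,
        Finset.sum_eq_zero, sub_zero]
      intro l' hl'
      rw [Finset.mem_range] at hl'
      exact proj_ne h ha (by omega)
    have hBhigh : ∀ l, 2 * n - m < l → ∀ a ∈ gr l, B a = 0 := by
      intro l hl a ha
      by_cases hl2 : 2 * n < l
      · rw [hbd l (by omega)] at ha
        rw [(Submodule.mem_bot _).1 ha, map_zero]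
      · rw [hB, LinearMap.sub_apply, Module.End.one_apply, LinearMap.sum_apply,
          Finset.sum_eq_single (2 * n - l), show 2 * n - (2 * n - l) = l by omega,
          proj_same h ha, sub_self]
        · intro l' hl' hne
          rw [Finset.mem_range] at hl'
          exact proj_ne h ha (by omega)
        · intro h'; exact absurd (Finset.mem_range.2 (by omega)) h'
    have hBlow : ∀ l ≤ 2 * n - m, ∀ a ∈ gr l, B a = a := by
      intro l hl a ha
      rw [hB, LinearMap.sub_apply, Module.End.one_apply, LinearMap.sum_apply,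
        Finset.sum_eq_zero, sub_zero]
      intro l' hl'
      rw [Finset.mem_range] at hl'
      exact proj_ne h ha (by omega)
    -- `T` is supported in degree `n + c`
    have hTsupp : ∀ l, l ≠ n + c → ∀ a ∈ gr l, T a = 0 := by
      intro l hl a ha
      rw [hT, Module.End.mul_apply, Module.End.mul_apply]
      by_cases h1 : 2 * n - m < l
      · rw [hBhigh l h1 a ha, map_zero, map_zero]
      · rw [hBlow l (by omega) a ha]
        have h2 := hR.hom (hθR c hrc (by omega)) l a (by rw [grZ_natCast]; exact ha)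
        by_cases h3 : 2 * c ≤ l
        · rw [show (l : ℤ) + 2 * -(c : ℤ) = ((l - 2 * c : ℕ) : ℤ) by omega, grZ_natCast] at h2
          exact hAlow _ (by omega) _ h2
        · rw [grZ_of_neg (by omega)] at h2
          rw [(Submodule.mem_bot _).1 h2, map_zero]
    have hTinv : ∀ a ∈ gr (n - c), T ((L ^ c) a) = a := by
      intro a ha
      have h1 := pow_L_mem hLh ha c
      rw [hT, Module.End.mul_apply, Module.End.mul_apply, hBlow _ (by omega) _ h1,
        hθ c hrc (by omega) a ha, hAhigh _ (by omega) a ha]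
    constructor
    · have e : proj h (n - c) = T * L ^ c := by
        apply gr_ext h
        intro l a ha
        rw [Module.End.mul_apply]
        by_cases hl : l = n - c
        · subst hl
          rw [proj_same h ha, hTinv a ha]
        · rw [proj_ne h ha hl, hTsupp (l + 2 * c) (by omega) _ (pow_L_mem hLh ha c)]
      rw [e]
      exact hR.cast (hR.mul hTR (hR.pow hL c)) (by ring)
    · have e : proj h (n + c) = L ^ c * T := by
        apply gr_ext h
        intro l a ha
        rw [Module.End.mul_apply]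
        by_cases hl : l = n + c
        · subst hl
          rw [proj_same h ha]
          obtain ⟨b, hb, hb'⟩ := (hHL (n - c) (by omega)).2 a
            (by rw [show 2 * n - (n - c) = n + c by omega]; exact ha)
          rw [show n - (n - c) = c by omega] at hb'
          rw [← hb', hTinv b hb]
        · rw [proj_ne h ha hl, hTsupp l hl a ha, map_zero]
      rw [e]
      exact hR.cast (hR.mul (hR.pow hL c) hTR) (by ring)

/-- **Numerically trivial operators of large degree.** -/
theorem eq_zero_of_num_large (hR : OpAlg gr R) (h : DirectSum.IsInternal gr)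
    (hbd : ∀ i, 2 * n + 1 ≤ i → gr i = ⊥) (hL : R 1 L) (hHL : HardLef gr n L)
    {f : Module.End K V} (hf : LowerAct gr n L f) {r : ℕ} (hr : 1 ≤ r) (hfr : R (-r) (f ^ r))
    (hN : ∀ u, R r u → (∀ y, R (-r) y → LinearMap.trace K V (par h * (u * y)) = 0) → u = 0)
    {s : ℕ} (hrs : r ≤ s) {u : Module.End K V} (hu : R s u)
    (hu0 : ∀ y, R (-s) y → LinearMap.trace K V (par h * (u * y)) = 0) : u = 0 := by
  have hLh : IsHom gr 2 L := by simpa using hR.hom hL
  obtain ⟨k, hk1, hk2⟩ : ∃ k, s - r ≤ r * k ∧ r * k < s := by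
    refine ⟨(s - r + (r - 1)) / r, ?_, ?_⟩
    · have := Nat.div_add_mod (s - r + (r - 1)) r
      have h2 := Nat.mod_lt (s - r + (r - 1)) (by omega : r > 0)
      omega
    · have := Nat.div_mul_le_self (s - r + (r - 1)) r
      rw [mul_comm]
      omega
  have hF : R (-(r * k : ℕ)) (f ^ (r * k)) := by
    rw [pow_mul]
    exact hR.cast (hR.pow hfr k) (by push_cast; ring)
  set q := s - r with hq
  -- right multiplication
  have hb : R (-q) (f ^ (r * k) * L ^ (r * k - q)) := by
    refine hR.cast (hR.mul hF (hR.pow hL _)) ?_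
    rw [Nat.cast_sub hk1]; push_cast; ring
  have hub : u * (f ^ (r * k) * L ^ (r * k - q)) = 0 := by
    apply hN _ (hR.cast (hR.mul hu hb) (by omega))
    intro y hy
    rw [mul_assoc]
    exact hu0 _ (hR.cast (hR.mul hb hy) (by omega))
  have hug : u * (f ^ (r * k) * L ^ (r * k)) = 0 := by
    have : f ^ (r * k) * L ^ (r * k) = f ^ (r * k) * L ^ (r * k - q) * L ^ q := by
      rw [mul_assoc, ← pow_add, Nat.sub_add_cancel hk1]
    rw [this, ← mul_assoc, hub, zero_mul]
  -- left multiplication
  have ha : R (-q) (L ^ (r * k - q) * f ^ (r * k)) := by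
    refine hR.cast (hR.mul (hR.pow hL _) hF) ?_
    rw [Nat.cast_sub hk1]; push_cast; ring
  have hau : L ^ (r * k - q) * f ^ (r * k) * u = 0 := by
    apply hN _ (hR.cast (hR.mul ha hu) (by omega))
    intro y hy
    rw [mul_assoc, str_comm h (hR.hom ha), mul_assoc]
    exact hu0 _ (hR.cast (hR.mul hy ha) (by omega))
  have hgu : L ^ (r * k) * f ^ (r * k) * u = 0 := by
    have : L ^ (r * k) * f ^ (r * k) = L ^ q * (L ^ (r * k - q) * f ^ (r * k)) := by
      rw [← mul_assoc, ← pow_add, show q + (r * k - q) = r * k by omega]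
    rw [this, mul_assoc, hau, mul_zero]
  apply gr_ext h
  intro i x hx
  rw [LinearMap.zero_apply]
  by_cases hi : i ≤ n - s ∧ s ≤ n
  · obtain ⟨p, hp⟩ := exists_inv_string h hLh hbd hHL (g := f ^ (r * k) * L ^ (r * k)) (N := i)
      (fun i j => ((kap (n - i) (r * k + j) (r * k) : ℕ) : ℚ)) (by
        intro i' hi' a ha' hpr j hj hN'
        rw [Module.End.mul_apply, ← Module.End.mul_apply (L ^ _), ← pow_add,
          hf.pow hi' ha' hpr (by omega) (by omega), show r * k + j - r * k = j by omega]
        push_cast; rfl) (by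
        intro i' hi' j hj hN'
        exact_mod_cast kap_ne (by omega))
    have h1 := hp x hx
    have h2 : ev (f ^ (r * k) * L ^ (r * k)) p * (f ^ (r * k) * L ^ (r * k)) =
        (f ^ (r * k) * L ^ (r * k)) * ev (f ^ (r * k) * L ^ (r * k)) p := by
      have : ∀ g : Module.End K V, ev g p * g = g * ev g p := by
        intro g
        have h3 : ev g X = g := ev_X g
        calc ev g p * g = ev g p * ev g X := by rw [h3]
          _ = ev g X * ev g p := by rw [← map_mul, mul_comm, map_mul]
          _ = g * ev g p := by rw [h3]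
      exact this _
    rw [h2] at h1
    have h3 := congrArg (fun F => F (ev (f ^ (r * k) * L ^ (r * k)) p x)) hug
    simp only [LinearMap.zero_apply] at h3
    rw [Module.End.mul_apply, ← Module.End.mul_apply (f ^ _ * L ^ _), h1] at h3
    exact h3
  · have huv := (hR.hom hu) i x (by rw [grZ_natCast]; exact hx)
    rw [show (i : ℤ) + 2 * (s : ℤ) = ((i + 2 * s : ℕ) : ℤ) by push_cast; ring, grZ_natCast] at huv
    by_cases hj2 : 2 * n < i + 2 * s
    · rw [hbd _ (by omega)] at huv
      exact (Submodule.mem_bot _).1 huv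
    obtain ⟨p, hp⟩ := exists_inv_string h hLh hbd hHL (g := L ^ (r * k) * f ^ (r * k))
      (N := i + 2 * s) (fun i j => ((kap (n - i) j (r * k) : ℕ) : ℚ)) (by
        intro i' hi' a ha' hpr j hj hN'
        rw [Module.End.mul_apply, hf.pow hi' ha' hpr hj (by omega), map_smul,
          ← Module.End.mul_apply (L ^ _), ← pow_add, show r * k + (j - r * k) = j by omega]
        push_cast; rfl) (by
        intro i' hi' j hj hN'
        exact_mod_cast kap_ne (by omega))
    have h1 := hp _ huv
    have h3 := congrArg (fun F => F x) hgu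
    simp only [LinearMap.zero_apply] at h3
    rw [Module.End.mul_apply] at h1
    rw [Module.End.mul_apply] at h3
    rw [h3, map_zero] at h1
    exact h1.symm

/-- **Numerically trivial operators vanish in the outer region.** -/
theorem vanish_region (hR : OpAlg gr R) (h : DirectSum.IsInternal gr)
    (hbd : ∀ i, 2 * n + 1 ≤ i → gr i = ⊥) (hL : R 1 L) (hHL : HardLef gr n L)
    {f : Module.End K V} (hf : LowerAct gr n L f) {r : ℕ} (hr : 1 ≤ r) (hfr : R (-r) (f ^ r))
    (hN : ∀ u, R r u → (∀ y, R (-r) y → LinearMap.trace K V (par h * (u * y)) = 0) → u = 0)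
    {d : ℤ} {u : Module.End K V} (hu : R d u)
    (hu0 : ∀ y, R (-d) y → LinearMap.trace K V (par h * (u * y)) = 0)
    {i : ℕ} (hi : 2 * (r : ℤ) ≤ |(i : ℤ) - n| + |(i : ℤ) + 2 * d - n|) {x : V}
    (hx : x ∈ gr i) : u x = 0 := by
  have hLh : IsHom gr 2 L := by simpa using hR.hom hL
  by_cases hi2 : 2 * n < i
  · rw [hbd i (by omega)] at hx
    rw [(Submodule.mem_bot _).1 hx, map_zero]
  have huv := (hR.hom hu) i x (by rw [grZ_natCast]; exact hx)
  by_cases hneg : (i : ℤ) + 2 * d < 0
  · rw [grZ_of_neg hneg] at huv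
    exact (Submodule.mem_bot _).1 huv
  obtain ⟨j, hj⟩ := Int.eq_ofNat_of_zero_le (not_lt.1 hneg)
  rw [hj] at huv
  change u x ∈ grZ gr ((j : ℕ) : ℤ) at huv
  rw [grZ_natCast] at huv
  by_cases hj2 : 2 * n < j
  · rw [hbd j (by omega)] at huv
    exact (Submodule.mem_bot _).1 huv
  have hj' : (i : ℤ) + 2 * d = (j : ℤ) := hj
  rw [hj'] at hi
  -- the shifted operator
  set α := n - j with hα
  set β := i - n with hβ
  obtain ⟨s, hs⟩ : ∃ s : ℕ, (s : ℤ) = α + d + β ∧ r ≤ s := by
    rcases abs_cases ((i : ℤ) - n) with h1 | h1 <;> rcases abs_cases ((j : ℤ) - n) with h2 | h2 <;>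
    · refine ⟨(α + d + β : ℤ).toNat, ?_, ?_⟩ <;> omega
  have hu' : L ^ α * u * L ^ β = 0 := by
    apply eq_zero_of_num_large hR h hbd hL hHL hf hr hfr hN hs.2
      (hR.cast (hR.mul (hR.mul (hR.pow hL α) hu) (hR.pow hL β)) (by rw [hs.1]; ring))
    intro y hy
    rw [mul_assoc, mul_assoc, str_comm h (hR.hom (hR.pow hL α)), mul_assoc]
    apply hu0
    refine hR.cast (hR.mul (hR.mul (hR.pow hL β) hy) (hR.pow hL α)) ?_
    rw [hs.1]; ring
  -- undo the shifts
  have h1 : (L ^ α) (u x) = 0 := by
    by_cases hin : n ≤ i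
    · obtain ⟨b, hb, hb'⟩ := surj_pow hHL (c := β) (by omega) (b := x)
        (by rwa [show n + β = i by omega])
      have h2 := congrArg (fun F => F b) hu'
      simp only [Module.End.mul_apply, LinearMap.zero_apply, hb'] at h2
      exact h2
    · have h2 := congrArg (fun F => F x) hu'
      rw [show β = 0 by omega, pow_zero, mul_one] at h2
      exact h2
  by_cases hjn : j ≤ n
  · exact (hHL j hjn).1 _ huv h1
  · rw [show α = 0 by omega, pow_zero] at h1
    exact h1

end Pool.Agent.W537
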